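import Mathlib

/-! The area identity for squares with three vertices on two Lipschitz graphs. -/

set_option autoImplicit false
open Set MeasureTheory intervalIntegral

namespace Pool.Agent.Run7.h564

/-- Lipschitz functions -/
def Lip (lam : ℝ) (h : ℝ → ℝ) : Prop := ∀ x y, |h x - h y| ≤ lam * |x - y|

theorem Lip.cont {lam : ℝ} {h : ℝ → ℝ} (H : Lip lam h) : Continuous h := by
  have : LipschitzWith lam.toNNReal h := by
    refine LipschitzWith.of_dist_le_mul fun x y => ?_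
    rw [Real.dist_eq, Real.dist_eq]
    exact (H x y).trans (mul_le_mul_of_nonneg_right (Real.le_coe_toNNReal lam) (abs_nonneg _))
  exact this.continuous

theorem Lip.int {lam : ℝ} {h : ℝ → ℝ} (H : Lip lam h) (a b : ℝ) :
    IntervalIntegrable h volume a b := H.cont.intervalIntegrable a b

/-- crude estimate of the integral -/
theorem Lip.est {lam : ℝ} (hl : 0 ≤ lam) {h : ℝ → ℝ} (H : Lip lam h) (x y : ℝ) :
    |(∫ s in x..y, h s) - h x * (y - x)| ≤ lam * (y - x) ^ 2 := by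
  have e : (∫ s in x..y, h s) - h x * (y - x) = ∫ s in x..y, (h s - h x) := by
    rw [intervalIntegral.integral_sub (H.int x y) (by simp), intervalIntegral.integral_const,
      smul_eq_mul]
    ring
  rw [e, ← Real.norm_eq_abs]
  have := intervalIntegral.norm_integral_le_of_norm_le_const (a := x) (b := y)
    (f := fun s => h s - h x) (C := lam * |y - x|) (fun s hs => by
      rw [Real.norm_eq_abs]
      refine (H s x).trans (mul_le_mul_of_nonneg_left ?_ hl)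
      rcases le_total x y with g | g
      · rw [uIoc_of_le g] at hs
        rw [abs_of_nonneg (by linarith [hs.1]), abs_of_nonneg (by linarith)]
        linarith [hs.2]
      · rw [uIoc_of_ge g] at hs
        rw [abs_of_nonpos (by linarith [hs.2]), abs_of_nonpos (by linarith)]
        linarith [hs.1])
  rwa [mul_assoc, ← abs_mul, ← sq, abs_of_nonneg (sq_nonneg (y - x))] at this

/-- sharp upper estimate, from the right end -/
theorem Lip.upper {lam : ℝ} {h : ℝ → ℝ} (H : Lip lam h) {x b : ℝ} (hb : 0 ≤ b) :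
    (∫ s in (x - b)..x, h s) ≤ h x * b + lam * b ^ 2 / 2 := by
  have h1 : (∫ s in (x - b)..x, h s) ≤ ∫ s in (x - b)..x, (h x + lam * (x - s)) := by
    refine intervalIntegral.integral_mono_on (by linarith) (H.int _ _)
      (Continuous.intervalIntegrable (by fun_prop) _ _) fun s hs => ?_
    have := (abs_le.1 (H s x)).2
    rw [abs_of_nonpos (by linarith [hs.2])] at this
    linarith
  refine h1.trans (le_of_eq ?_)
  have e : (∫ s in (x - b)..x, (h x + lam * (x - s))) =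
      (∫ s in (x - b)..x, (h x + lam * x)) - ∫ s in (x - b)..x, lam * s := by
    rw [← intervalIntegral.integral_sub (by simp)
      (Continuous.intervalIntegrable (by fun_prop) _ _)]
    congr 1; ext s; ring
  rw [e, intervalIntegral.integral_const, intervalIntegral.integral_const_mul, integral_id,
    smul_eq_mul]
  ring

/-- sharp lower estimate, from the right end -/
theorem Lip.lower {lam : ℝ} {h : ℝ → ℝ} (H : Lip lam h) {x b : ℝ} (hb : 0 ≤ b) :
    h x * b - lam * b ^ 2 / 2 ≤ ∫ s in (x - b)..x, h s := by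
  have H' : Lip lam (fun s => -h s) := fun x y => by
    have := H y x
    rw [show -h x - -h y = h y - h x by ring, abs_sub_comm x y]
    exact this
  have := H'.upper (x := x) hb
  rw [intervalIntegral.integral_neg] at this
  linarith

/-- squares with two lower vertices and the upper right vertex on the graphs -/
structure SQ (φ ψ : ℝ → ℝ) (lam x a b : ℝ) : Prop where
  b0 : 0 < b
  ab : |a| ≤ lam * b
  p1 : φ (x - b) = φ x + a
  p2 : ψ (x + a) = φ x + b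
  p3 : φ x + a + b ≤ ψ (x + a - b)

/-- the area functional -/
noncomputable def Ps (φ ψ : ℝ → ℝ) (x a b : ℝ) : ℝ :=
  (∫ s in (0:ℝ)..x, φ s) - (∫ s in (0:ℝ)..(x + a), ψ s) - (∫ s in (0:ℝ)..(x - b), φ s) +
    (∫ s in (0:ℝ)..(x + a - b), ψ s) - (a ^ 2 - b ^ 2) / 2

theorem Ps_neg {φ ψ : ℝ → ℝ} {lam : ℝ} (Hφ : Lip lam φ) (Hψ : Lip lam ψ) {x a b : ℝ}
    (S : SQ φ ψ lam x a b) : Ps φ ψ x a b ≤ -((1 / 2 - lam) * b ^ 2) := by
  have e1 : (∫ s in (0:ℝ)..x, φ s) - (∫ s in (0:ℝ)..(x - b), φ s) = ∫ s in (x - b)..x, φ s :=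
    intervalIntegral.integral_interval_sub_left (Hφ.int _ _) (Hφ.int _ _)
  have e2 : (∫ s in (0:ℝ)..(x + a), ψ s) - (∫ s in (0:ℝ)..(x + a - b), ψ s) =
      ∫ s in (x + a - b)..(x + a), ψ s :=
    intervalIntegral.integral_interval_sub_left (Hψ.int _ _) (Hψ.int _ _)
  have k1 := Hφ.upper (x := x) S.b0.le
  have k2 := Hψ.lower (x := x + a) S.b0.le
  rw [S.p2] at k2
  unfold Ps
  nlinarith [sq_nonneg a]

/-- differences of two squares -/
theorem diff_bd {lam Δ α β v : ℝ} (hl : 0 ≤ lam) (hl2 : lam ^ 2 + 2 * lam < 1) (hΔ : 0 ≤ Δ)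
    (h1 : |v| ≤ lam * |Δ|) (h2 : |v + β| ≤ lam * |Δ + α|) (h3 : |v + α| ≤ lam * |Δ - β|) :
    |α| ≤ 4 * Δ ∧ |β| ≤ 4 * Δ ∧ 0 ≤ Δ + α - β := by
  have hl1 : lam < 1 / 2 := by nlinarith
  rw [abs_of_nonneg hΔ] at h1
  have tβ : |β| ≤ |v + β| + |v| := by
    have := abs_sub (v + β) v
    rwa [add_sub_cancel_left] at this
  have tα : |α| ≤ |v + α| + |v| := by
    have := abs_sub (v + α) v
    rwa [add_sub_cancel_left] at this
  have uα : |Δ + α| ≤ Δ + |α| := by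
    have := abs_add_le Δ α
    rwa [abs_of_nonneg hΔ] at this
  have uβ : |Δ - β| ≤ Δ + |β| := by
    have := abs_sub Δ β
    rwa [abs_of_nonneg hΔ] at this
  have m1 := mul_le_mul_of_nonneg_left uα hl
  have m2 := mul_le_mul_of_nonneg_left uβ hl
  have s1 : |β| ≤ 2 * lam * Δ + lam * |α| := by linarith
  have s2 : |α| ≤ 2 * lam * Δ + lam * |β| := by linarith
  have aα := abs_nonneg α
  have aβ := abs_nonneg β
  have t1 : (|α| + |β|) * (1 - lam) ≤ 4 * lam * Δ := by linarith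
  have t2 : |α| + |β| ≤ 4 * Δ := by
    have h4 : (|α| + |β|) * (1 - lam) ≤ 4 * Δ * (1 - lam) := by nlinarith
    exact le_of_mul_le_mul_right h4 (by linarith)
  refine ⟨by linarith, by linarith, ?_⟩
  -- `β ≤ Δ`
  have b1 : β ≤ Δ := by
    by_contra hc
    push Not at hc
    have e1 : |Δ - β| = β - Δ := by rw [abs_of_neg (by linarith)]; ring
    rw [e1] at h3
    have e2 : |β| = β := abs_of_pos (by linarith)
    have k1 : |α| ≤ lam * β := by linarith
    have k2 := mul_le_mul_of_nonneg_left k1 hl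
    rw [e2] at s1
    have k3 : β * (1 - lam ^ 2) ≤ 2 * lam * Δ := by nlinarith
    have k4 : 0 < 1 - lam ^ 2 := by nlinarith
    nlinarith
  have b2 : -Δ ≤ α := by
    by_contra hc
    push Not at hc
    have e1 : |Δ + α| = -α - Δ := by rw [abs_of_neg (by linarith)]; ring
    rw [e1] at h2
    have e2 : |α| = -α := abs_of_neg (by linarith)
    have k1 : |β| ≤ lam * -α := by linarith
    have k2 := mul_le_mul_of_nonneg_left k1 hl
    rw [e2] at s2
    have k3 : -α * (1 - lam ^ 2) ≤ 2 * lam * Δ := by nlinarith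
    have k4 : 0 < 1 - lam ^ 2 := by nlinarith
    nlinarith
  rw [abs_of_nonneg (show 0 ≤ Δ + α by linarith)] at h2
  rw [abs_of_nonneg (show 0 ≤ Δ - β by linarith)] at h3
  have g1 := abs_le.1 h2
  have g2 := abs_le.1 h3
  have g3 : -(lam * (2 * Δ + (α - β))) ≤ α - β := by linarith [g1.2, g2.1]
  nlinarith

/-- the functional almost increases -/
theorem Ps_step {φ ψ : ℝ → ℝ} {lam : ℝ} (hl : 0 ≤ lam) (hl2 : lam ^ 2 + 2 * lam < 1)
    (Hφ : Lip lam φ) (Hψ : Lip lam ψ) {x a b x' a' b' : ℝ} (S : SQ φ ψ lam x a b)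
    (S' : SQ φ ψ lam x' a' b') (hx : x ≤ x') :
    Ps φ ψ x a b - 200 * (x' - x) ^ 2 ≤ Ps φ ψ x' a' b' := by
  obtain ⟨Δ, hΔ⟩ : ∃ Δ, Δ = x' - x := ⟨_, rfl⟩
  obtain ⟨α, hα⟩ : ∃ α, α = a' - a := ⟨_, rfl⟩
  obtain ⟨β, hβ⟩ : ∃ β, β = b' - b := ⟨_, rfl⟩
  obtain ⟨v, hv⟩ : ∃ v, v = φ x' - φ x := ⟨_, rfl⟩
  have hl1 : lam < 1 / 2 := by nlinarith
  have hΔ0 : 0 ≤ Δ := by linarith
  have h1 : |v| ≤ lam * |Δ| := by rw [hv, hΔ]; exact Hφ x' x
  have h2 : |v + β| ≤ lam * |Δ + α| := by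
    have := Hψ (x' + a') (x + a)
    rw [S.p2, S'.p2] at this
    rwa [show φ x' + b' - (φ x + b) = v + β by rw [hv, hβ]; ring,
      show x' + a' - (x + a) = Δ + α by rw [hΔ, hα]; ring] at this
  have h3 : |v + α| ≤ lam * |Δ - β| := by
    have := Hφ (x' - b') (x - b)
    rw [S.p1, S'.p1] at this
    rwa [show φ x' + a' - (φ x + a) = v + α by rw [hv, hα]; ring,
      show x' - b' - (x - b) = Δ - β by rw [hΔ, hβ]; ring] at this
  obtain ⟨q1, q2, q3⟩ := diff_bd hl hl2 hΔ0 h1 h2 h3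
  have i1 : (∫ s in (0:ℝ)..x', φ s) - (∫ s in (0:ℝ)..x, φ s) = ∫ s in x..x', φ s :=
    intervalIntegral.integral_interval_sub_left (Hφ.int _ _) (Hφ.int _ _)
  have i2 : (∫ s in (0:ℝ)..(x' + a'), ψ s) - (∫ s in (0:ℝ)..(x + a), ψ s) =
      ∫ s in (x + a)..(x' + a'), ψ s :=
    intervalIntegral.integral_interval_sub_left (Hψ.int _ _) (Hψ.int _ _)
  have i3 : (∫ s in (0:ℝ)..(x' - b'), φ s) - (∫ s in (0:ℝ)..(x - b), φ s) =
      ∫ s in (x - b)..(x' - b'), φ s :=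
    intervalIntegral.integral_interval_sub_left (Hφ.int _ _) (Hφ.int _ _)
  have i4 : (∫ s in (0:ℝ)..(x' + a' - b'), ψ s) - (∫ s in (0:ℝ)..(x + a - b), ψ s) =
      ∫ s in (x + a - b)..(x' + a' - b'), ψ s :=
    intervalIntegral.integral_interval_sub_left (Hψ.int _ _) (Hψ.int _ _)
  have j1 := (abs_le.1 (Hφ.est hl x x')).1
  have j2 := (abs_le.1 (Hψ.est hl (x + a) (x' + a'))).2
  have j3 := (abs_le.1 (Hφ.est hl (x - b) (x' - b'))).2
  have j4 := (abs_le.1 (Hψ.est hl (x + a - b) (x' + a' - b'))).1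
  have j5 : (φ x + a + b) * (Δ + α - β) ≤ ψ (x + a - b) * (Δ + α - β) :=
    mul_le_mul_of_nonneg_right S.p3 q3
  rw [show x' - x = Δ from hΔ.symm] at j1 ⊢
  rw [show x' + a' - (x + a) = Δ + α by rw [hΔ, hα]; ring, S.p2] at j2
  rw [show x' - b' - (x - b) = Δ - β by rw [hΔ, hβ]; ring, S.p1] at j3
  rw [show x' + a' - b' - (x + a - b) = Δ + α - β by rw [hΔ, hα, hβ]; ring] at j4
  have ea : a' = a + α := by rw [hα]; ring
  have eb : b' = b + β := by rw [hβ]; ring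
  have a1 := abs_le.1 q1
  have a2 := abs_le.1 q2
  have r1 : α ^ 2 ≤ 16 * Δ ^ 2 := by nlinarith
  have r2 : β ^ 2 ≤ 16 * Δ ^ 2 := by nlinarith
  have w1 : (Δ + α) ^ 2 ≤ 25 * Δ ^ 2 := by nlinarith
  have w2 : (Δ - β) ^ 2 ≤ 25 * Δ ^ 2 := by nlinarith
  have w3 : (Δ + α - β) ^ 2 ≤ 81 * Δ ^ 2 := by nlinarith
  have s0 := sq_nonneg Δ
  have z1 : lam * (Δ + α) ^ 2 ≤ 1 / 2 * (25 * Δ ^ 2) := by
    have := sq_nonneg (Δ + α)
    nlinarith
  have z2 : lam * (Δ - β) ^ 2 ≤ 1 / 2 * (25 * Δ ^ 2) := by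
    have := sq_nonneg (Δ - β)
    nlinarith
  have z3 : lam * (Δ + α - β) ^ 2 ≤ 1 / 2 * (81 * Δ ^ 2) := by
    have := sq_nonneg (Δ + α - β)
    nlinarith
  have z0 : lam * Δ ^ 2 ≤ 1 / 2 * Δ ^ 2 := by nlinarith
  unfold Ps
  have e5 : (a' ^ 2 - b' ^ 2) / 2 = (a ^ 2 - b ^ 2) / 2 + a * α - b * β + (α ^ 2 - β ^ 2) / 2 := by
    rw [ea, eb]; ring
  have id0 : φ x * Δ - (φ x + b) * (Δ + α) - (φ x + a) * (Δ - β) +
      (φ x + a + b) * (Δ + α - β) - a * α + b * β = 0 := by ring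
  have b3 := sq_nonneg β
  nlinarith

theorem Ps_start {φ ψ : ℝ → ℝ} {lam : ℝ} (hl : 0 ≤ lam) (hl2 : lam ^ 2 + 2 * lam < 1)
    (Hφ : Lip lam φ) (Hψ : Lip lam ψ) (h1 : φ 0 = 0) (h2 : ψ 0 = 0) {x a b : ℝ}
    (S : SQ φ ψ lam x a b) (hb : b ≤ x) : -(20 * x ^ 2) ≤ Ps φ ψ x a b := by
  have hl1 : lam < 1 / 2 := by nlinarith
  have b0 := S.b0
  have ha := abs_le.1 S.ab
  have ha1 : a ≤ x := by nlinarith
  have ha2 : -x ≤ a := by nlinarith
  have key : ∀ {h : ℝ → ℝ}, Lip lam h → h 0 = 0 → ∀ y, |y| ≤ 2 * x →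
      |∫ s in (0:ℝ)..y, h s| ≤ 2 * x ^ 2 := by
    intro h H h0 y hy
    have := H.est hl 0 y
    rw [h0, zero_mul, sub_zero, sub_zero] at this
    have h5 : y ^ 2 ≤ 4 * x ^ 2 := by
      rw [← sq_abs y]
      have := abs_nonneg y
      nlinarith
    have h6 := sq_nonneg y
    nlinarith
  have k1 := abs_le.1 (key Hφ h1 x (by rw [abs_of_nonneg (by linarith)]; linarith))
  have k2 := abs_le.1 (key Hψ h2 (x + a) (by rw [abs_le]; constructor <;> linarith))
  have k3 := abs_le.1 (key Hφ h1 (x - b) (by rw [abs_le]; constructor <;> linarith))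
  have k4 := abs_le.1 (key Hψ h2 (x + a - b) (by rw [abs_le]; constructor <;> linarith))
  have h5 : a ^ 2 ≤ x ^ 2 := by nlinarith
  unfold Ps
  nlinarith [sq_nonneg b, sq_nonneg x]

/-- there is no family of squares that grows from the cusp -/
theorem no_growth {φ ψ : ℝ → ℝ} {lam : ℝ} (hl : 0 ≤ lam) (hl2 : lam ^ 2 + 2 * lam < 1)
    (Hφ : Lip lam φ) (Hψ : Lip lam ψ) (h1 : φ 0 = 0) (h2 : ψ 0 = 0) {x₀ X m : ℝ}
    (h0 : 0 ≤ x₀) (hX : x₀ ≤ X) (hm : 0 < m)
    (cov : ∀ x, x₀ ≤ x → x ≤ X → ∃ a b, SQ φ ψ lam x a b)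
    (st : ∃ a b, SQ φ ψ lam x₀ a b ∧ b ≤ x₀)
    (en : ∀ a b, SQ φ ψ lam X a b → m ≤ b)
    (sm : 20 * x₀ ^ 2 < (1 / 2 - lam) * m ^ 2) : False := by
  have hl1 : lam < 1 / 2 := by nlinarith
  choose! A B hAB using cov
  obtain ⟨a₀, b₀, S₀, hb₀⟩ := st
  have s0 := Ps_start hl hl2 Hφ Hψ h1 h2 S₀ hb₀
  have se := Ps_neg Hφ Hψ (hAB X hX le_rfl)
  have me := en _ _ (hAB X hX le_rfl)
  have key : ∀ n : ℕ, 0 < n →
      Ps φ ψ x₀ a₀ b₀ - 200 * (X - x₀) ^ 2 / n ≤ Ps φ ψ X (A X) (B X) := by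
    intro n hn
    have n0 : (0:ℝ) < n := by exact_mod_cast hn
    obtain ⟨h, hh⟩ : ∃ h, h = (X - x₀) / n := ⟨_, rfl⟩
    have hh0 : 0 ≤ h := by rw [hh]; exact div_nonneg (by linarith) n0.le
    have ind : ∀ k : ℕ, k ≤ n → Ps φ ψ x₀ a₀ b₀ - k * (200 * h ^ 2) ≤
        Ps φ ψ (x₀ + k * h) (A (x₀ + k * h)) (B (x₀ + k * h)) := by
      intro k
      induction k with
      | zero =>
        intro _
        have := Ps_step hl hl2 Hφ Hψ S₀ (hAB x₀ le_rfl hX) le_rfl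
        simp only [Nat.cast_zero, zero_mul, add_zero]
        linarith
      | succ k ih =>
        intro hk
        have i1 := ih (by omega)
        have hk' : (k : ℝ) + 1 ≤ n := by exact_mod_cast hk
        have top : x₀ + ((k:ℝ) + 1) * h ≤ X := by
          have : ((k:ℝ) + 1) * h ≤ n * h := mul_le_mul_of_nonneg_right hk' hh0
          have e : (n:ℝ) * h = X - x₀ := by rw [hh]; field_simp
          linarith
        have bot : 0 ≤ (k:ℝ) * h := by positivity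
        have i2 := Ps_step hl hl2 Hφ Hψ (hAB (x₀ + k * h) (by linarith) (by linarith))
          (hAB (x₀ + ((k:ℝ) + 1) * h) (by linarith) top) (by linarith)
        push_cast
        have e : x₀ + ((k:ℝ) + 1) * h - (x₀ + k * h) = h := by ring
        rw [e] at i2
        linarith
    have := ind n le_rfl
    have e1 : x₀ + (n:ℝ) * h = X := by rw [hh]; field_simp; ring
    have e2 : (n:ℝ) * (200 * h ^ 2) = 200 * (X - x₀) ^ 2 / n := by rw [hh]; field_simp
    rw [e1, e2] at this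
    exact this
  obtain ⟨ε, hε⟩ : ∃ ε, ε = (1 / 2 - lam) * m ^ 2 - 20 * x₀ ^ 2 := ⟨_, rfl⟩
  have ε0 : 0 < ε := by linarith
  obtain ⟨n, hn⟩ := exists_nat_gt (200 * (X - x₀) ^ 2 / ε)
  have n0 : (0:ℝ) < n := lt_of_le_of_lt (by positivity) hn
  have k1 := key n (by exact_mod_cast n0)
  have k2 : 200 * (X - x₀) ^ 2 / n < ε := by
    rw [div_lt_iff₀ n0]
    rw [div_lt_iff₀ ε0] at hn
    linarith
  have k3 : (1 / 2 - lam) * m ^ 2 ≤ (1 / 2 - lam) * (B X) ^ 2 :=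
    mul_le_mul_of_nonneg_left (pow_le_pow_left₀ hm.le me 2) (by linarith)
  linarith

end Pool.Agent.Run7.h564
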