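import Pool.Agent.Run7.h564.Rng

/-! Directions of the chords at a fold, and the winding numbers of points near a fold. -/

set_option autoImplicit false
open Complex Set Topology Metric Filter
open scoped ComplexConjugate

namespace Pool.Agent.Run7.h564

open Pool.Agent.H763R2 Pool.Agent.H763R2.An
open Pool.Agent.H763R2.Dm (NoSq)
open Pool.Agent.Y765.Sq (Ann exists_int exists_rep TriM tri_fam)
open Pool.Agent.N335.Hg

variable {c : ℝ → ℂ} {θ : ℝ → ℝ → ℝ} {Rp : ℂ → ℂ → ℂ → Prop}

/-- the directions of the chords in a window -/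
structure Dr (c : ℝ → ℂ) (θ : ℝ → ℝ → ℝ) (w : ℂ) (l h C a : ℝ) : Prop where
  lo : ∀ x y, l ≤ x → x < y → y ≤ h → a < θ x y + C
  hi : ∀ x y, l ≤ x → x < y → y ≤ h → θ x y + C < a + 2 * Real.pi
  pol : ∀ x y, l ≤ x → x < y → y ≤ h →
    ∃ ρ : ℝ, 0 < ρ ∧ w * (c y - c x) = ρ * exp ((θ x y + C : ℝ) * I)

theorem dr_of (L : Loop c) (J : Inj c) (D : Dirn c θ) {w κ : ℂ} (w0 : w ≠ 0) {α lo hi a : ℝ}
    (ha : α = a + Real.pi)
    (hκ : exp (α * I) * κ = 1) (h1 : lo < hi) (h2 : hi < lo + 1)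
    (h : ∀ x y, lo ≤ x → x < y → y ≤ hi → κ * (w * (c y - c x)) ∈ slitPlane) :
    ∃ C, Dr c θ w lo hi C a := by
  obtain ⟨C, hC⟩ := dir_const L D w0 hκ h1 h2 h
  refine ⟨C, fun x y g1 g2 g3 => ?_, fun x y g1 g2 g3 => ?_, fun x y g1 g2 g3 => ?_⟩
  · rw [hC x y g1 g2 g3]
    linarith [(ag_lt (α := α) (h x y g1 g2 g3)).1]
  · rw [hC x y g1 g2 g3]
    linarith [(ag_lt (α := α) (h x y g1 g2 g3)).2]
  · rw [hC x y g1 g2 g3]
    refine ⟨‖w * (c y - c x)‖, norm_pos_iff.2 (mul_ne_zero w0 (sub_ne_zero.2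
      (J x y g2 (by linarith)).symm)), ag_polar hκ _⟩

theorem re_polar {v : ℂ} {ρ T : ℝ} (h : v = ρ * exp (T * I)) : v.re = ρ * Real.cos T := by
  rw [h, re_ofReal_mul, exp_ofReal_mul_I_re]

theorem cos_rng {T : ℝ} (h1 : -(Real.pi / 2) < T) (h2 : T < 3 * Real.pi / 2) (h : 0 < Real.cos T) :
    T < Real.pi / 2 := by
  by_contra hc
  push Not at hc
  have := Real.cos_nonpos_of_pi_div_two_le_of_le hc (by linarith)
  linarith

theorem cos_rng' {T : ℝ} (h1 : -(Real.pi / 2) < T) (h : Real.cos T < 0) :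
    Real.pi / 2 < T := by
  by_contra hc
  push Not at hc
  have := Real.cos_nonneg_of_neg_pi_div_two_le_of_le h1.le hc
  linarith

theorem cos_sym {T : ℝ} (h1 : -Real.pi < T) (h2 : T < Real.pi) (h : 0 < Real.cos T) :
    -(Real.pi / 2) < T ∧ T < Real.pi / 2 := by
  have hp := Real.pi_pos
  constructor
  · by_contra hc
    push Not at hc
    have := Real.cos_nonpos_of_pi_div_two_le_of_le (x := -T) (by linarith) (by linarith)
    rw [Real.cos_neg] at this
    linarith
  · by_contra hc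
    push Not at hc
    have := Real.cos_nonpos_of_pi_div_two_le_of_le hc (by linarith)
    linarith

section

variable {w : ℂ} {t r : ℝ}

theorem mv_sub (c : ℝ → ℂ) (w : ℂ) (t x y : ℝ) : w * (c y - c x) = mv c w t y - mv c w t x := by
  unfold mv; ring

theorem Fold.dirR (L : Loop c) (J : Inj c) (D : Dirn c θ) (P : Fold c w t r)
    (hT : TurnR c w t r) : ∃ C, Dr c θ w (t - r) (t + r) C (-(Real.pi / 2)) ∧
      (∀ x y, t - r ≤ x → x < y → y ≤ t → Real.pi / 2 < θ x y + C) ∧
      ∀ x y, t ≤ x → x < y → y ≤ t + r → θ x y + C < Real.pi / 2 := by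
  have r0 := P.r0
  have r1 := P.r1
  obtain ⟨C, hC⟩ := dr_of L J D P.w0 (a := -(Real.pi / 2)) (α := Real.pi / 2) (by ring) kdn
    (lo := t - r) (hi := t + r) (by linarith) (by linarith) (fun x y h1 h2 h3 => by
      apply slit_dn
      rw [mv_sub c w t, sub_re, sub_im]
      rcases le_or_gt y t with g | g
      · left
        have := P.anti x y h1 h2 g
        intro h0; linarith
      rcases le_or_gt t x with g' | g'
      · left
        have := P.mono x y g' h2 h3
        intro h0; linarith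
      by_cases h0 : (mv c w t x).re = (mv c w t y).re
      · right
        have := hT x y h1 g'.le g.le h3 h2 h0
        linarith
      · left
        intro h4; exact h0 (by linarith))
  refine ⟨C, hC, fun x y h1 h2 h3 => ?_, fun x y h1 h2 h3 => ?_⟩
  · obtain ⟨ρ, hρ, e⟩ := hC.pol x y h1 h2 (by linarith)
    refine cos_rng' (hC.lo x y h1 h2 (by linarith)) ?_
    have e1 := re_polar e
    rw [mv_sub c w t, sub_re] at e1
    have := P.anti x y h1 h2 h3
    by_contra hc
    push Not at hc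
    have := mul_nonneg hρ.le hc
    linarith
  · obtain ⟨ρ, hρ, e⟩ := hC.pol x y (by linarith) h2 h3
    refine cos_rng (hC.lo x y (by linarith) h2 h3)
      (by linarith [hC.hi x y (by linarith) h2 h3]) ?_
    have e1 := re_polar e
    rw [mv_sub c w t, sub_re] at e1
    have := P.mono x y h1 h2 h3
    exact (mul_pos_iff_of_pos_left hρ).1 (by linarith)

theorem Fold.dirL (L : Loop c) (J : Inj c) (D : Dirn c θ) (P : Fold c w t r)
    (hT : TurnL c w t r) : ∃ C, Dr c θ w (t - r) (t + r) C (Real.pi / 2) ∧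
      (∀ x y, t - r ≤ x → x < y → y ≤ t → θ x y + C < 3 * Real.pi / 2) ∧
      ∀ x y, t ≤ x → x < y → y ≤ t + r → 3 * Real.pi / 2 < θ x y + C := by
  have r0 := P.r0
  have r1 := P.r1
  have hp := Real.pi_pos
  obtain ⟨C, hC⟩ := dr_of L J D P.w0 (a := Real.pi / 2) (α := 3 * Real.pi / 2) (by ring) kup'
    (lo := t - r) (hi := t + r) (by linarith) (by linarith) (fun x y h1 h2 h3 => by
      apply slit_up
      rw [mv_sub c w t, sub_re, sub_im]
      rcases le_or_gt y t with g | g
      · left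
        have := P.anti x y h1 h2 g
        intro h0; linarith
      rcases le_or_gt t x with g' | g'
      · left
        have := P.mono x y g' h2 h3
        intro h0; linarith
      by_cases h0 : (mv c w t x).re = (mv c w t y).re
      · right
        have := hT x y h1 g'.le g.le h3 h2 h0
        linarith
      · left
        intro h4; exact h0 (by linarith))
  refine ⟨C, hC, fun x y h1 h2 h3 => ?_, fun x y h1 h2 h3 => ?_⟩
  · obtain ⟨ρ, hρ, e⟩ := hC.pol x y h1 h2 (by linarith)
    have e1 := re_polar e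
    rw [mv_sub c w t, sub_re] at e1
    have a1 := P.anti x y h1 h2 h3
    by_contra hc
    push Not at hc
    have hh := hC.hi x y h1 h2 (by linarith)
    have := Real.cos_nonneg_of_neg_pi_div_two_le_of_le (x := θ x y + C - 2 * Real.pi)
      (by linarith) (by linarith)
    rw [Real.cos_sub_two_pi] at this
    have := mul_nonneg hρ.le this
    linarith
  · obtain ⟨ρ, hρ, e⟩ := hC.pol x y (by linarith) h2 h3
    have e1 := re_polar e
    rw [mv_sub c w t, sub_re] at e1
    have a1 := P.mono x y h1 h2 h3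
    have hl := hC.lo x y (by linarith) h2 h3
    by_contra hc
    push Not at hc
    have := Real.cos_nonpos_of_pi_div_two_le_of_le hl.le (by linarith)
    have := mul_nonneg hρ.le (neg_nonneg.2 this)
    linarith

/-- nearby points are seen in nearby directions -/
theorem cos_near {a b : ℂ} {ρ σ A B : ℝ} (hρ : 0 < ρ) (hσ : 0 < σ) (ha : a = ρ * exp (A * I))
    (hb : b = σ * exp (B * I)) (h : ‖b - a‖ < ‖b‖) : 0 < Real.cos (A - B) := by
  have nb : ‖b‖ = σ := by
    rw [hb, norm_mul, norm_exp_ofReal_mul_I, mul_one, norm_real, Real.norm_of_nonneg hσ.le]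
  have na : ‖a‖ = ρ := by
    rw [ha, norm_mul, norm_exp_ofReal_mul_I, mul_one, norm_real, Real.norm_of_nonneg hρ.le]
  have e1 : ‖b - a‖ ^ 2 = σ ^ 2 + ρ ^ 2 - 2 * (σ * ρ * Real.cos (A - B)) := by
    rw [← normSq_eq_norm_sq, normSq_apply]
    have r1 : a.re = ρ * Real.cos A := re_polar ha
    have r2 : b.re = σ * Real.cos B := re_polar hb
    have i1 : a.im = ρ * Real.sin A := by rw [ha, im_ofReal_mul, exp_ofReal_mul_I_im]
    have i2 : b.im = σ * Real.sin B := by rw [hb, im_ofReal_mul, exp_ofReal_mul_I_im]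
    rw [sub_re, sub_im, r1, r2, i1, i2, Real.cos_sub]
    linear_combination ρ ^ 2 * Real.sin_sq_add_cos_sq A + σ ^ 2 * Real.sin_sq_add_cos_sq B
  have h2 : ‖b - a‖ ^ 2 < σ ^ 2 := by
    rw [← nb]
    exact pow_lt_pow_left₀ h (norm_nonneg _) (by norm_num)
  have h3 : 0 < ρ ^ 2 := by positivity
  by_contra hc
  push Not at hc
  have : σ * ρ * Real.cos (A - B) ≤ 0 := mul_nonpos_of_nonneg_of_nonpos (by positivity) hc
  linarith

/-- the winding number of a point near a fold -/
theorem wind_fold (L : Loop c) (D : Dirn c θ) (P : Fold c w t r) {e m n : ℤ}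
    (hκ : ∀ x y, x < y → y < x + 1 → θ y (x + 1) = θ x y + (2 * e - 1) * Real.pi) {C a : ℝ}
    (hC : Dr c θ w (t - r) (t + r) C a)
    (m1 : -(Real.pi / 2) < θ t (t + r) + C - m * (2 * Real.pi))
    (m2 : θ t (t + r) + C - m * (2 * Real.pi) < Real.pi / 2)
    (m3 : Real.pi / 2 < θ (t - r) t + C) (m4 : θ (t - r) t + C < 3 * Real.pi / 2)
    {E κ : ℂ} {α : ℝ} (hka : exp (α * I) * κ = 1) (hα : α = Real.pi / 2 ∨ α = -(Real.pi / 2))
    (hE : E ∉ range c)
    (hs : ∀ s, t - r ≤ s → s ≤ t + r → κ * (w * (c s - E)) ∈ slitPlane)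
    (hnear : ∀ s, t + r ≤ s → s ≤ t + 1 - r → ‖E - c t‖ < ‖c s - c t‖)
    (v1 : 0 < (w * (c (t - r) - E)).re) (v2 : 0 < (w * (c (t + r) - E)).re)
    (hn : IsWc c E n) : n = e - m := by
  have r0 := P.r0
  have r1 := P.r1
  have hp := Real.pi_pos
  have w0 := P.w0
  obtain ⟨k, hk, ek⟩ := exists_Lg L hE
  -- far away
  have far := close_of_cos (φ := fun s => (k s).im - θ t s) (Y := Icc (t + r) (t + 1 - r))
    isPreconnected_Icc (ContinuousOn.sub (by fun_prop) (D.contR fun y hy =>
      ⟨by linarith [hy.1], by linarith [hy.2]⟩)) (fun s hs => by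
      obtain ⟨ρ, hρ, e1⟩ := D.ex t s (by linarith [hs.1]) (by linarith [hs.2])
      refine cos_near (Real.exp_pos (k s).re) hρ (a := c s - E) (b := c s - c t) ?_ e1 ?_
      · rw [← ek]
        nth_rewrite 1 [← re_add_im (k s)]
        rw [exp_add, ofReal_exp]
      · rw [show c s - c t - (c s - E) = E - c t by ring]
        exact hnear s hs.1 hs.2) (y₀ := t + r) (y₁ := t + 1 - r) ⟨le_rfl, by linarith⟩
      ⟨by linarith, le_rfl⟩
  have hr1 : ‖E - c t‖ < ‖c (t + r) - c t‖ := hnear _ le_rfl (by linarith)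
  have hr2 : ‖E - c t‖ < ‖c (t - r) - c t‖ := by
    have := hnear (t + 1 - r) (by linarith) le_rfl
    rwa [show t + 1 - r = t - r + 1 by ring, L.per] at this
  have nw : 0 < ‖w‖ := norm_pos_iff.2 w0
  -- the principal values
  obtain ⟨ψ1, hψ1⟩ : ∃ x, x = ag κ α (w * (c (t - r) - E)) := ⟨_, rfl⟩
  obtain ⟨ψ2, hψ2⟩ : ∃ x, x = ag κ α (w * (c (t + r) - E)) := ⟨_, rfl⟩
  have ne1 : 0 < ‖w * (c (t - r) - E)‖ := norm_pos_iff.2 fun h => by
    rw [h, zero_re] at v1; exact lt_irrefl _ v1
  have ne2 : 0 < ‖w * (c (t + r) - E)‖ := norm_pos_iff.2 fun h => by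
    rw [h, zero_re] at v2; exact lt_irrefl _ v2
  have p1 := ag_polar hka (w * (c (t - r) - E))
  have p2 := ag_polar hka (w * (c (t + r) - E))
  rw [← hψ1] at p1
  rw [← hψ2] at p2
  have q1 : -(Real.pi / 2) < ψ1 ∧ ψ1 < Real.pi / 2 := by
    have b := ag_lt (α := α) (hs (t - r) le_rfl (by linarith))
    rw [← hψ1] at b
    have e1 := re_polar p1
    have cp : 0 < Real.cos ψ1 := (mul_pos_iff_of_pos_left ne1).1 (by linarith)
    rcases hα with rfl | rfl
    · exact ⟨by linarith [b.1], cos_rng (by linarith [b.1]) (by linarith [b.2]) cp⟩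
    · have := cos_rng (T := -ψ1) (by linarith [b.2]) (by linarith [b.1])
        (by rw [Real.cos_neg]; exact cp)
      exact ⟨by linarith, by linarith [b.2]⟩
  have q2 : -(Real.pi / 2) < ψ2 ∧ ψ2 < Real.pi / 2 := by
    have b := ag_lt (α := α) (hs (t + r) (by linarith) le_rfl)
    rw [← hψ2] at b
    have e1 := re_polar p2
    have cp : 0 < Real.cos ψ2 := (mul_pos_iff_of_pos_left ne2).1 (by linarith)
    rcases hα with rfl | rfl
    · exact ⟨by linarith [b.1], cos_rng (by linarith [b.1]) (by linarith [b.2]) cp⟩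
    · have := cos_rng (T := -ψ2) (by linarith [b.2]) (by linarith [b.1])
        (by rw [Real.cos_neg]; exact cp)
      exact ⟨by linarith, by linarith [b.2]⟩
  obtain ⟨ρ1, hρ1, f1⟩ := hC.pol (t - r) t le_rfl (by linarith) (by linarith)
  obtain ⟨ρ2, hρ2, f2⟩ := hC.pol t (t + r) (by linarith) (by linarith) le_rfl
  have d1 : -(Real.pi / 2) < ψ1 - (θ (t - r) t + C - Real.pi) ∧
      ψ1 - (θ (t - r) t + C - Real.pi) < Real.pi / 2 := by
    refine cos_sym (by linarith [q1.1]) (by linarith [q1.2]) ?_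
    refine cos_near ne1 hρ1 p1 (b := w * (c (t - r) - c t)) ?_ ?_
    · have : exp (((θ (t - r) t + C - Real.pi : ℝ) : ℂ) * I) = -exp ((θ (t - r) t + C : ℝ) * I) := by
        push_cast
        rw [sub_mul, exp_sub, exp_pi_mul_I, div_neg, div_one]
      rw [this, mul_neg, ← f1]
      ring
    · rw [show w * (c (t - r) - c t) - w * (c (t - r) - E) = w * (E - c t) by ring, norm_mul,
        norm_mul]
      exact mul_lt_mul_of_pos_left hr2 nw
  have d2 : -(Real.pi / 2) < ψ2 - (θ t (t + r) + C - m * (2 * Real.pi)) ∧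
      ψ2 - (θ t (t + r) + C - m * (2 * Real.pi)) < Real.pi / 2 := by
    refine cos_sym (by linarith [q2.1]) (by linarith [q2.2]) ?_
    refine cos_near ne2 hρ2 p2 (b := w * (c (t + r) - c t)) ?_ ?_
    · rw [f2]
      congr 1
      rw [exp_eq_exp_iff_exists_int]
      exact ⟨m, by push_cast; ring⟩
    · rw [show w * (c (t + r) - c t) - w * (c (t + r) - E) = w * (E - c t) by ring, norm_mul,
        norm_mul]
      exact mul_lt_mul_of_pos_left hr1 nw
  -- the total variation
  have a1 := Phi_wind L hn (t - r)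
  have a2 := Phi_add L hE (t - r) (t + r) (t - r + 1)
  have a3 := Phi_ag L hE w0 hka hs (s := t - r) (s' := t + r) le_rfl (by linarith) (by linarith)
    le_rfl
  have a4 := Phi_eq ⟨hk, ek⟩ (t + r) (t - r + 1)
  have a5 := hκ (t - r) t (by linarith) (by linarith)
  rw [← hψ1, ← hψ2] at a3
  rw [show t + 1 - r = t - r + 1 by ring] at far
  rw [a5, abs_lt] at far
  rw [sub_im] at a4
  have h1 : 2 * Real.pi * (n - (e - m) : ℤ) < 2 * Real.pi * 1 := by
    push_cast
    linarith [far.1, far.2, d1.1, d1.2, d2.1, d2.2]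
  have h2 : 2 * Real.pi * (-1) < 2 * Real.pi * (n - (e - m) : ℤ) := by
    push_cast
    linarith [far.1, far.2, d1.1, d1.2, d2.1, d2.2]
  have h3 := lt_of_mul_lt_mul_left h1 (by positivity)
  have h4 := lt_of_mul_lt_mul_left h2 (by positivity)
  have h5 : n - (e - m) < 1 := by exact_mod_cast h3
  have h6 : -1 < n - (e - m) := by exact_mod_cast h4
  omega

end

end Pool.Agent.Run7.h564
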