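import Pool.Agent.Run7.h564.TipL
import Pool.Agent.Run7.h564.Turn

/-! Caps: arcs in the half-strip over their chord. -/

set_option autoImplicit false
open Complex Set Topology Metric Filter
open scoped ComplexConjugate

namespace Pool.Agent.Run7.h564

open Pool.Agent.H763R2 Pool.Agent.H763R2.An
open Pool.Agent.H763R2.Dm (NoSq)
open Pool.Agent.Y765.Sq (Ann exists_int exists_rep TriM tri_fam)
open Pool.Agent.N335.Hg

variable {c : ℝ → ℂ} {θ : ℝ → ℝ → ℝ} {Rp : ℂ → ℂ → ℂ → Prop} {In : ℂ → Prop}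

/-- a cap -/
structure CapD (c : ℝ → ℂ) (In : ℂ → Prop) (t α β σ d : ℝ) (w : ℂ) : Prop where
  a0 : α < t
  b0 : t < β
  b1 : β < α + 1
  hσ : σ = 1 ∨ σ = -1
  hw : w * (c β - c α) = 1
  strip : ∀ s, α < s → s < β → 0 ≤ (w * (c s - c α)).re ∧ (w * (c s - c α)).re ≤ 1 ∧
    0 < σ * (w * (c s - c α)).im
  back : ∀ x y, α ≤ x → x < y → y ≤ β → (w * (c y - c x)).im = 0 → (w * (c y - c x)).re < 0 →
    σ * (w * (c x - c α)).im < 1 - (w * (c x - c α)).re ∧
      σ * (w * (c y - c α)).im < (w * (c y - c α)).re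
  dist : ∀ s, α ≤ s → s ≤ β → ‖c s - c α‖ ≤ d ∧ ‖c s - c β‖ ≤ d
  side : ∀ p, In p → (‖p - c α‖ ≤ d ∨ ‖p - c β‖ ≤ d) → 0 ≤ σ * (w * (p - c α)).im →
    0 < (w * (p - c α)).re ∧ (w * (p - c α)).re < 1

/-- the parameter `t` is on a cap -/
def Cap (c : ℝ → ℂ) (In : ℂ → Prop) (t : ℝ) : Prop :=
  ∃ (α β σ d : ℝ) (w : ℂ), CapD c In t α β σ d w

theorem CapD.rev {t α β σ d : ℝ} {w : ℂ} (h : CapD c In t α β σ d w) :
    CapD (fun s => c (-s)) In (-t) (-β) (-α) (-σ) d (-w) := by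
  have e : ∀ p, -w * (p - c β) = 1 - w * (p - c α) := fun p => by
    have := h.hw
    linear_combination this
  refine ⟨by linarith [h.b0], by linarith [h.a0], by linarith [h.b1], ?_, ?_, ?_, ?_, ?_, ?_⟩
  · rcases h.hσ with rfl | rfl
    · right; rfl
    · left; ring
  · simp only [neg_neg]
    rw [← h.hw]; ring
  · intro s h1 h2
    simp only [neg_neg]
    obtain ⟨a, b, d⟩ := h.strip (-s) (by linarith) (by linarith)
    rw [e, sub_re, sub_im, one_re, one_im]
    exact ⟨by linarith, by linarith, by linarith⟩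
  · intro x y h1 h2 h3
    simp only [neg_neg]
    intro h4 h5
    have e4 : -w * (c (-y) - c (-x)) = w * (c (-x) - c (-y)) := by ring
    rw [e4] at h4 h5
    obtain ⟨a, b⟩ := h.back (-y) (-x) (by linarith) (by linarith) (by linarith) h4 h5
    rw [e, e, sub_re, sub_im, sub_re, sub_im, one_re, one_im]
    exact ⟨by linarith, by linarith⟩
  · intro s h1 h2
    simp only [neg_neg]
    exact (h.dist (-s) (by linarith) (by linarith)).symm
  · intro p hp h1 h2
    simp only [neg_neg] at h1 h2 ⊢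
    rw [e, sub_im, one_im] at h2
    rw [e, sub_re, one_re]
    obtain ⟨a, b⟩ := h.side p hp h1.symm (by linarith)
    exact ⟨by linarith, by linarith⟩

theorem Cap.rev {t : ℝ} (h : Cap c In t) : Cap (fun s => c (-s)) In (-t) := by
  obtain ⟨α, β, σ, d, w, h⟩ := h
  exact ⟨_, _, _, _, _, h.rev⟩

theorem Cap.conj {t : ℝ} (h : Cap c In t) :
    Cap (fun s => conj (c s)) (fun z => In (conj z)) t := by
  obtain ⟨α, β, σ, d, w, h⟩ := h
  have e : ∀ x y, conj w * (conj (c x) - conj (c y)) = conj (w * (c x - c y)) := fun x y => by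
    rw [map_mul, map_sub]
  refine ⟨α, β, -σ, d, conj w, h.a0, h.b0, h.b1, ?_, ?_, ?_, ?_, ?_, ?_⟩
  · rcases h.hσ with rfl | rfl
    · right; rfl
    · left; ring
  · rw [e, h.hw, map_one]
  · intro s h1 h2
    obtain ⟨a, b, d⟩ := h.strip s h1 h2
    simp only [e, conj_re, conj_im]
    exact ⟨a, b, by linarith⟩
  · intro x y h1 h2 h3
    simp only [e, conj_re, conj_im]
    intro h4 h5
    obtain ⟨a, b⟩ := h.back x y h1 h2 h3 (by linarith) h5
    exact ⟨by linarith, by linarith⟩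
  · intro s h1 h2
    rw [← map_sub, ← map_sub, RCLike.norm_conj, RCLike.norm_conj]
    exact h.dist s h1 h2
  · intro p hp h1 h2
    have e2 : ∀ y, conj w * (p - conj (c y)) = conj (w * (conj p - c y)) := fun y => by
      rw [map_mul, map_sub, conj_conj]
    have n : ∀ y, ‖p - conj (c y)‖ = ‖conj p - c y‖ := fun y => by
      have : conj p - c y = conj (p - conj (c y)) := by rw [map_sub, conj_conj]
      rw [this, RCLike.norm_conj]
    rw [n, n] at h1
    simp only [e2, conj_re, conj_im] at h2 ⊢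
    exact h.side _ hp h1 (by linarith)

/-- a family stays in a part of the space of triangles if it avoids its frontier -/
theorem escape (L : Loop c) (J : Inj c) {δ : ℝ} {T : Set Ann} (F : Fm c Rp δ T) {a α β : ℝ}
    {g h : ℝ × ℝ × ℝ → ℝ} (cg : Continuous g) (ch : Continuous h)
    (hin : ∀ q ∈ Mm c δ a, α ≤ g q → h q ≤ β → a < q.1 ∧ q.1 < a + 1) {q₀ : ℝ × ℝ × ℝ}
    (hq₀ : q₀ ∈ Mm c δ a) (hT₀ : (((q₀.1 : AddCircle (1 : ℝ)), q₀.2.1) : Ann) ∈ T)
    (i1 : α ≤ g q₀) (i2 : h q₀ ≤ β)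
    (no : ∀ q ∈ Mm c δ a, (((q.1 : AddCircle (1 : ℝ)), q.2.1) : Ann) ∈ T → α ≤ g q → h q ≤ β →
      (g q ≤ α ∨ β ≤ h q) → False) :
    ∀ p ∈ T, ∃ q ∈ Mm c δ a, α ≤ g q ∧ h q ≤ β ∧ q.2.1 = p.2 := by
  have hM := Mm_closed L.cont δ a
  obtain ⟨N, hN⟩ : ∃ N : Set (ℝ × ℝ × ℝ), N = {q | α ≤ g q ∧ h q ≤ β} := ⟨_, rfl⟩
  obtain ⟨N', hN'⟩ : ∃ N' : Set (ℝ × ℝ × ℝ), N' = {q | g q ≤ α ∨ β ≤ h q} := ⟨_, rfl⟩
  have cN : IsClosed N := by
    have k1 : IsClosed {q : ℝ × ℝ × ℝ | α ≤ g q} := isClosed_le (by fun_prop) cg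
    have k2 : IsClosed {q : ℝ × ℝ × ℝ | h q ≤ β} := isClosed_le ch (by fun_prop)
    rw [hN]; exact k1.inter k2
  have cN' : IsClosed N' := by
    have k1 : IsClosed {q : ℝ × ℝ × ℝ | g q ≤ α} := isClosed_le cg (by fun_prop)
    have k2 : IsClosed {q : ℝ × ℝ × ℝ | β ≤ h q} := isClosed_le (by fun_prop) ch
    rw [hN']; exact k1.union k2
  have key := clopen3 L J F.δ0 F.pre F.ty.tyA (hM.inter cN) (hM.inter cN') (fun q _ hq => by
      rw [hN']
      rw [hN] at hq
      by_contra hc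
      simp only [mem_ofPred_eq, not_or, not_le] at hc hq
      exact hq ⟨hc.1.le, hc.2.le⟩)
    (fun q hq => by
      have n := hq.2
      rw [hN] at n
      exact hin q hq.1 n.1 n.2)
    (fun q hq n n' hT => by
      rw [hN] at n
      rw [hN'] at n'
      exact no q hq hT n.1 n.2 n') ⟨hq₀, by rw [hN]; exact ⟨i1, i2⟩⟩ hT₀
  intro p hp
  obtain ⟨q, hq, e⟩ := key p hp
  have n := hq.2
  rw [hN] at n
  exact ⟨q, hq.1, n.1, n.2, by rw [← e]⟩

/-- the variation is at most `π` if the arc is seen in a closed half plane -/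
theorem half0 (L : Loop c) {E w z₀ : ℂ} (hE : E ∉ range c) (w0 : w ≠ 0) {s s' σ : ℝ}
    (hσ : σ = 1 ∨ σ = -1) (hss : s ≤ s')
    (h : ∀ τ, s ≤ τ → τ ≤ s' → 0 ≤ σ * ((w * (c τ - z₀)).im - (w * (E - z₀)).im)) {p q : ℝ}
    (hp : s ≤ p) (hpq : p ≤ q) (hq : q ≤ s') :
    |Phi c E p q| ≤ Real.pi := by
  have hπ := Real.pi_pos
  have ne : ∀ τ, w * (c τ - E) ≠ 0 := fun τ h0 => by
    rcases mul_eq_zero.1 h0 with h1 | h1
    · exact w0 h1
    · exact hE ⟨τ, sub_eq_zero.1 h1⟩
  have e : ∀ τ, w * (c τ - E) = w * (c τ - z₀) - w * (E - z₀) := fun τ => by ring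
  rcases hσ with rfl | rfl
  · have h' : ∀ τ, s ≤ τ → τ ≤ s' → 0 ≤ (w * (c τ - E)).im := fun τ a b => by
      rw [e, sub_im]; linarith [h τ a b]
    have sl : ∀ τ, s ≤ τ → τ ≤ s' → -I * (w * (c τ - E)) ∈ slitPlane := fun τ a b => by
      apply slit_dn
      by_cases h0 : (w * (c τ - E)).re = 0
      · right
        refine lt_of_le_of_ne (h' τ a b) fun h1 => ne τ (Complex.ext h0 h1.symm)
      · left; exact h0
    rw [Phi_ag L hE w0 kdn sl hp (by linarith) (by linarith) hq]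
    unfold ag
    have b1 : |arg (-I * (w * (c p - E)))| ≤ Real.pi / 2 := by
      rw [abs_arg_le_pi_div_two_iff]
      have := h' p hp (by linarith)
      simp only [neg_mul, neg_re, mul_re, I_re, I_im] at this ⊢
      linarith
    have b2 : |arg (-I * (w * (c q - E)))| ≤ Real.pi / 2 := by
      rw [abs_arg_le_pi_div_two_iff]
      have := h' q (by linarith) hq
      simp only [neg_mul, neg_re, mul_re, I_re, I_im] at this ⊢
      linarith
    rw [abs_le] at b1 b2 ⊢
    constructor <;> linarith [b1.1, b1.2, b2.1, b2.2]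
  · have h' : ∀ τ, s ≤ τ → τ ≤ s' → (w * (c τ - E)).im ≤ 0 := fun τ a b => by
      rw [e, sub_im]; linarith [h τ a b]
    have sl : ∀ τ, s ≤ τ → τ ≤ s' → I * (w * (c τ - E)) ∈ slitPlane := fun τ a b => by
      apply slit_up
      by_cases h0 : (w * (c τ - E)).re = 0
      · right
        refine lt_of_le_of_ne (h' τ a b) fun h1 => ne τ (Complex.ext h0 h1)
      · left; exact h0
    rw [Phi_ag L hE w0 kup sl hp (by linarith) (by linarith) hq]
    unfold ag
    have b1 : |arg (I * (w * (c p - E)))| ≤ Real.pi / 2 := by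
      rw [abs_arg_le_pi_div_two_iff]
      have := h' p hp (by linarith)
      simp only [mul_re, I_re, I_im] at this ⊢
      linarith
    have b2 : |arg (I * (w * (c q - E)))| ≤ Real.pi / 2 := by
      rw [abs_arg_le_pi_div_two_iff]
      have := h' q (by linarith) hq
      simp only [mul_re, I_re, I_im] at this ⊢
      linarith
    rw [abs_le] at b1 b2 ⊢
    constructor <;> linarith [b1.1, b1.2, b2.1, b2.2]

/-- the winding number and the label for the order `Q`, `P`, `V` -/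
theorem wind_L2 (L : Loop c) {E : ℂ} (hE : E ∉ range c) {n : ℤ} (hn : IsWc c E n) (n0 : n ≠ 0)
    {u y : ℝ} (hm : Phi c E u y = Real.pi / 2) (h : |Phi c E (y - 1) u| ≤ Real.pi) : False := by
  have hπ := Real.pi_pos
  have e1 := Phi_wind L hn (y - 1)
  have e2 := Phi_add L hE (y - 1) u y
  rw [sub_add_cancel] at e1
  rw [abs_le] at h
  rcases lt_trichotomy n 0 with hn' | hn' | hn'
  · have : n ≤ -1 := by omega
    have : (n : ℝ) ≤ -1 := by exact_mod_cast this
    nlinarith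
  · exact n0 hn'
  · have : 1 ≤ n := by omega
    have : (1 : ℝ) ≤ n := by exact_mod_cast this
    nlinarith

/-- the winding number and the label for the order `V`, `Q`, `P` -/
theorem wind_L3 (L : Loop c) {E : ℂ} (hE : E ∉ range c) {n : ℤ} (hn : IsWc c E n) (n0 : n ≠ 0)
    {x u : ℝ} (hm : Phi c E x u = -(Real.pi / 4)) (h : |Phi c E (u - 1) x| ≤ Real.pi) : False := by
  have hπ := Real.pi_pos
  have e1 := Phi_wind L hn (u - 1)
  have e2 := Phi_add L hE (u - 1) x u
  rw [sub_add_cancel] at e1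
  rw [abs_le] at h
  rcases lt_trichotomy n 0 with hn' | hn' | hn'
  · have : n ≤ -1 := by omega
    have : (n : ℝ) ≤ -1 := by exact_mod_cast this
    nlinarith
  · exact n0 hn'
  · have : 1 ≤ n := by omega
    have : (1 : ℝ) ≤ n := by exact_mod_cast this
    nlinarith

end Pool.Agent.Run7.h564
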