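import Pool.Agent.Run7.h564.Cap

/-! Caps: the exits of the families of triangles. -/

set_option autoImplicit false
open Complex Set Topology Metric Filter
open scoped ComplexConjugate

namespace Pool.Agent.Run7.h564

open Pool.Agent.H763R2 Pool.Agent.H763R2.An
open Pool.Agent.H763R2.Dm (NoSq)
open Pool.Agent.Y765.Sq (Ann exists_int exists_rep TriM tri_fam)
open Pool.Agent.N335.Hg

variable {c : ℝ → ℂ} {θ : ℝ → ℝ → ℝ} {Rp : ℂ → ℂ → ℂ → Prop} {In : ℂ → Prop}
  {t α β σ d : ℝ} {w : ℂ}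

/-- coordinates of the vertices -/
theorem cds {w z₀ P Q V : ℂ} (h : V = P + I * (Q - P)) :
    (w * (V - z₀)).re = (w * (P - z₀)).re - ((w * (Q - z₀)).im - (w * (P - z₀)).im) ∧
    (w * (V - z₀)).im = (w * (P - z₀)).im + ((w * (Q - z₀)).re - (w * (P - z₀)).re) ∧
    (w * (Q + I * (Q - P) - z₀)).re =
      (w * (Q - z₀)).re - ((w * (Q - z₀)).im - (w * (P - z₀)).im) ∧
    (w * (Q + I * (Q - P) - z₀)).im =
      (w * (Q - z₀)).im + ((w * (Q - z₀)).re - (w * (P - z₀)).re) := by
  have e1 : w * (V - z₀) = w * (P - z₀) + I * (w * (Q - z₀) - w * (P - z₀)) := by rw [h]; ring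
  have e2 : w * (Q + I * (Q - P) - z₀) = w * (Q - z₀) + I * (w * (Q - z₀) - w * (P - z₀)) := by
    ring
  have i1 : ∀ z : ℂ, (I * z).re = -z.im := fun z => by simp
  have i2 : ∀ z : ℂ, (I * z).im = z.re := fun z => by simp
  rw [e1, e2, add_re, add_im, add_re, add_im, i1, i2, sub_re, sub_im]
  refine ⟨?_, rfl, ?_, rfl⟩ <;> ring

theorem CapD.w0 (K : CapD c In t α β σ d w) : w ≠ 0 := by
  rintro rfl
  have := K.hw
  rw [zero_mul] at this
  exact zero_ne_one this

theorem CapD.zα (_K : CapD c In t α β σ d w) :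
    (w * (c α - c α)).re = 0 ∧ (w * (c α - c α)).im = 0 := by
  rw [sub_self, mul_zero]; exact ⟨rfl, rfl⟩

theorem CapD.zβ (K : CapD c In t α β σ d w) :
    (w * (c β - c α)).re = 1 ∧ (w * (c β - c α)).im = 0 := by
  rw [K.hw]; exact ⟨rfl, rfl⟩

theorem CapD.st (K : CapD c In t α β σ d w) {s : ℝ} (h1 : α ≤ s) (h2 : s ≤ β) :
    0 ≤ (w * (c s - c α)).re ∧ (w * (c s - c α)).re ≤ 1 ∧ 0 ≤ σ * (w * (c s - c α)).im := by
  rcases eq_or_lt_of_le h1 with g | g
  · rw [← g, K.zα.1, K.zα.2]
    exact ⟨le_rfl, zero_le_one, by rw [mul_zero]⟩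
  · rcases eq_or_lt_of_le h2 with g' | g'
    · rw [g', K.zβ.1, K.zβ.2]
      exact ⟨zero_le_one, le_rfl, by rw [mul_zero]⟩
    · obtain ⟨a, b, d⟩ := K.strip s g g'
      exact ⟨a, b, d.le⟩

theorem norm_E (P Q : ℂ) : ‖Q + I * (Q - P) - Q‖ = ‖P - Q‖ := by
  rw [add_sub_cancel_left, norm_mul, norm_I, one_mul, norm_sub_rev]

theorem norm_V {P Q V : ℂ} (h : V = P + I * (Q - P)) : ‖Q + I * (Q - P) - V‖ = ‖P - V‖ := by
  have e1 : Q + I * (Q - P) - V = Q - P := by rw [h]; ring
  have e2 : P - V = -(I * (Q - P)) := by rw [h]; ring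
  rw [e1, e2, norm_neg, norm_mul, norm_I, one_mul]

/-- exits of the families of short triangles -/
theorem CapD.exitS (K : CapD c In t α β σ d w) {x u y : ℝ} (h1 : α ≤ x) (h2 : x < u) (h3 : u < y)
    (h4 : y ≤ β) (hV : c u = c x + I * (c y - c x)) (hI : In (c y + I * (c y - c x)))
    (hex : x = α ∨ y = β) : σ = -1 ∧ y = β := by
  obtain ⟨e1, e2, e3, e4⟩ := cds (w := w) (z₀ := c α) hV
  obtain ⟨u1, u2, u3⟩ := K.strip u (by linarith) (by linarith)
  obtain ⟨p1, p2, p3⟩ := K.st h1 (by linarith : x ≤ β)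
  have key : y = β → σ = -1 := by
    intro hy
    rcases K.hσ with hs | hs
    · exfalso
      rw [hy] at e3 e4 hI
      have k := (K.side _ hI (Or.inr (by
        rw [norm_E]; exact (K.dist x h1 (by linarith)).2)) (by
        rw [e4, K.zβ.1, K.zβ.2, hs]; linarith)).2
      rw [e3, K.zβ.1, K.zβ.2] at k
      rw [hs] at p3
      linarith
    · exact hs
  rcases eq_or_lt_of_le h4 with hy | hy
  · exact ⟨key hy, hy⟩
  · exfalso
    have hx : x = α := by
      rcases hex with h | h
      · exact h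
      · linarith
    rw [hx, K.zα.1, K.zα.2] at e1 e2
    obtain ⟨q1, q2, q3⟩ := K.strip y (by linarith) hy
    rcases K.hσ with hs | hs
    · rw [hs] at q3
      linarith
    · rw [hs] at u3
      linarith

/-- the labels at the exit -/
theorem CapD.labS (L : Loop c) (J : Inj c) (nosq : NoSq (range c)) (D : Dirn c θ)
    (K : CapD c In t α β σ d w) {δ a : ℝ} (hδ : 0 < δ) {q : ℝ × ℝ × ℝ} (hq : q ∈ Mm c δ a)
    (h1 : α ≤ q.1) (hβ : q.1 + q.2.1 = β) (hs : σ = -1) :
    l1 θ q = Real.pi / 2 ∧ m1 c q = -(Real.pi / 4) ∧ m2 c q = Real.pi / 2 := by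
  have hπ := Real.pi_pos
  have st := Mm_strict J hδ hq
  have hE := E4_notMem J nosq hδ hq
  have w0 := K.w0
  obtain ⟨x, s, u⟩ := q
  have hV := hq.2.2.2.2
  simp only at h1 hβ st hV
  obtain ⟨e1, e2, e3, e4⟩ := cds (w := w) (z₀ := c α) hV
  obtain ⟨p1, p2, p3⟩ := K.st h1 (by linarith : x ≤ β)
  obtain ⟨u1, u2, u3⟩ := K.strip u (by linarith) (by linarith)
  have zb := K.zβ
  rw [← hβ] at zb
  rw [zb.2] at e1
  rw [zb.1] at e2
  rw [zb.1, zb.2] at e3 e4
  rw [hs] at u3 p3
  have hh : ∀ τ, α ≤ τ → τ ≤ β → 0 ≤ σ * ((w * (c τ - c α)).im -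
      (w * (E4 c (x, s, u) - c α)).im) := fun τ a b => by
    have := (K.st a b).2.2
    have e5 : (w * (E4 c (x, s, u) - c α)).im = 0 + (1 - (w * (c x - c α)).re) := e4
    rw [e5, hs]
    rw [hs] at this
    linarith
  have n1 := half0 L hE w0 K.hσ (by linarith [K.a0, K.b0] : α ≤ β) hh h1 st.1.le
    (by linarith : u ≤ β)
  have n2 := half0 L hE w0 K.hσ (by linarith [K.a0, K.b0] : α ≤ β) hh (by linarith) st.2.1.le
    (by linarith : x + s ≤ β)
  rw [abs_le] at n1 n2
  refine ⟨?_, ?_, ?_⟩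
  · -- the directions from `P`
    obtain ⟨lw, hlw⟩ : ∃ v, exp v = w := ⟨log w, exp_log w0⟩
    have ne : ∀ τ, u ≤ τ → τ ≤ x + s → w * (c τ - c x) ≠ 0 := fun τ a b h0 => by
      rcases mul_eq_zero.1 h0 with h | h
      · exact w0 h
      · exact J x τ (by linarith) (by linarith) (sub_eq_zero.1 h).symm
    have sl : ∀ τ, u ≤ τ → τ ≤ x + s → w * (c τ - c x) ∈ slitPlane := fun τ a b => by
      rw [mem_slitPlane_iff]
      by_cases h0 : (w * (c τ - c x)).im = 0
      · left
        by_contra hc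
        push Not at hc
        have hlt : (w * (c τ - c x)).re < 0 :=
          lt_of_le_of_ne hc fun h5 => ne τ a b (Complex.ext h5 h0)
        have := (K.back x τ h1 (by linarith) (by linarith) h0 hlt).1
        rw [hs] at this
        linarith
      · right; exact h0
    have key := arg_diff (φ := fun τ => θ x τ) (ψ := fun τ => arg (w * (c τ - c x)) - lw.im)
      st.2.1.le (D.contR fun y hy => ⟨by linarith [hy.1], by linarith [hy.2]⟩)
      (by
        have cc := L.cont
        refine ContinuousOn.sub (fun τ hτ => ?_) continuousOn_const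
        exact ContinuousAt.comp_continuousWithinAt (g := arg) (continuousAt_arg (sl τ hτ.1 hτ.2))
          (Continuous.continuousWithinAt (by fun_prop))) (fun τ hτ => by
        obtain ⟨ρ, hρ, e⟩ := D.ex x τ (by linarith [hτ.1]) (by linarith [hτ.2])
        have e5 : ((Real.exp lw.re * ρ : ℝ) : ℂ) * exp ((θ x τ + lw.im : ℝ) * I) =
            ((‖w * (c τ - c x)‖ : ℝ) : ℂ) * exp (arg (w * (c τ - c x)) * I) := by
          rw [norm_mul_exp_arg_mul_I, e]
          have hw' : w = exp (lw.re + lw.im * I) := by rw [re_add_im, hlw]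
          rw [hw']
          push_cast
          rw [exp_add, add_mul, exp_add]
          ring
        obtain ⟨n, hn⟩ := ang_eq (mul_pos (Real.exp_pos _) hρ)
          (norm_pos_iff.2 (ne τ hτ.1 hτ.2)) e5
        exact ⟨n, by linarith⟩)
    have ey : w * (c (x + s) - c x) = w * (c (x + s) - c α) - w * (c x - c α) := by ring
    have a1 : 0 ≤ arg (w * (c (x + s) - c x)) := by
      rw [arg_nonneg_iff, ey, sub_im, zb.2]
      linarith
    have a2 : |arg (w * (c (x + s) - c x))| ≤ Real.pi / 2 := by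
      rw [abs_arg_le_pi_div_two_iff, ey, sub_re, zb.1]
      linarith
    have a3 := neg_pi_lt_arg (w * (c u - c x))
    have a4 := arg_le_pi (w * (c u - c x))
    have a5 : arg (w * (c u - c x)) ≠ Real.pi :=
      (mem_slitPlane_iff_arg.1 (sl u le_rfl st.2.1.le)).1
    have a6 : arg (w * (c u - c x)) < Real.pi := lt_of_le_of_ne a4 a5
    rw [abs_le] at a2
    obtain ⟨j, hj⟩ := l1_val D J hδ hq
    unfold l1 at hj ⊢
    simp only at hj ⊢
    have : j = 0 := int_zero_of (x := θ x u - θ x (x + s) - Real.pi / 2) (by linarith)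
      (by linarith [a2.1, a2.2]) (by linarith [a2.1, a2.2])
    rw [hj, this]; push_cast; ring
  · obtain ⟨j, hj⟩ := m1_val L J nosq hδ hq
    unfold m1 at hj ⊢
    simp only at hj ⊢
    have : j = 0 := int_zero_of (x := Phi c (E4 c (x, s, u)) x u + Real.pi / 4) (by linarith)
      (by linarith [n1.1]) (by linarith [n1.2])
    rw [hj, this]; push_cast; ring
  · obtain ⟨j, hj⟩ := m2_val L J nosq hδ hq
    unfold m2 at hj ⊢
    simp only at hj ⊢
    have : j = 0 := int_zero_of (x := Phi c (E4 c (x, s, u)) u (x + s) - Real.pi / 2)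
      (by linarith) (by linarith [n2.1]) (by linarith [n2.2])
    rw [hj, this]; push_cast; ring

/-- exits of the families of long triangles, order `Q`, `P`, `V` -/
theorem CapD.exitL2 (L : Loop c) (K : CapD c In t α β σ d w) {x u y : ℝ} (h1 : α ≤ y)
    (h2 : y < x) (h3 : x < u) (h4 : u ≤ β) (hV : c u = c x + I * (c y - c x))
    (hI : In (c y + I * (c y - c x))) (hE : c y + I * (c y - c x) ∉ range c) {n : ℤ}
    (hn : IsWc c (c y + I * (c y - c x)) n) (n0 : n ≠ 0)
    (hm : Phi c (c y + I * (c y - c x)) u (y + 1) = Real.pi / 2) (hex : y = α ∨ u = β) :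
    False := by
  obtain ⟨e1, e2, e3, e4⟩ := cds (w := w) (z₀ := c α) hV
  obtain ⟨p1, p2, p3⟩ := K.strip x (by linarith) (by linarith)
  have hσ := K.hσ
  have w0 := K.w0
  have fin : (∀ τ, α ≤ τ → τ ≤ β → 0 ≤ σ * ((w * (c τ - c α)).im -
      (w * (c y + I * (c y - c x) - c α)).im)) → False := by
    intro hh
    have := half0 L hE w0 hσ (by linarith : α ≤ β) hh h1 (by linarith : y ≤ u) h4
    refine wind_L2 L hE hn n0 hm ?_
    rw [add_sub_cancel_right]; exact this
  rcases hex with hy | hu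
  · rw [hy, K.zα.1, K.zα.2] at e3 e4
    rw [hy] at fin hI
    rcases hσ with hs | hs
    · refine fin fun τ a b => ?_
      have := (K.st a b).2.2
      rw [hs] at this
      rw [e4, hs]; linarith
    · have k := (K.side _ hI (Or.inl (by rw [norm_E]; exact (K.dist x (by linarith)
        (by linarith)).1)) (by rw [e4, hs]; linarith)).1
      rw [e3] at k
      rw [hs] at p3
      linarith
  · rw [hu, K.zβ.1] at e1
    rw [hu, K.zβ.2] at e2
    rcases hσ with hs | hs
    · refine fin fun τ a b => ?_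
      have := (K.st a b).2.2
      rw [hs] at this
      rw [e4, hs]; linarith
    · have hV' : c β = c x + I * (c y - c x) := by rw [← hu]; exact hV
      have k := (K.side _ hI (Or.inr (by rw [norm_V hV']; exact (K.dist x (by linarith)
        (by linarith)).2)) (by rw [e4, hs]; linarith)).2
      rw [e3] at k
      rw [hs] at p3
      linarith

/-- exits of the families of long triangles, order `V`, `Q`, `P` -/
theorem CapD.exitL3 (L : Loop c) (K : CapD c In t α β σ d w) {x u y : ℝ} (h1 : α ≤ u)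
    (h2 : u < y) (h3 : y < x) (h4 : x ≤ β) (hV : c u = c x + I * (c y - c x))
    (hI : In (c y + I * (c y - c x))) (hE : c y + I * (c y - c x) ∉ range c) {n : ℤ}
    (hn : IsWc c (c y + I * (c y - c x)) n) (n0 : n ≠ 0)
    (hm : Phi c (c y + I * (c y - c x)) x (u + 1) = -(Real.pi / 4)) (hex : u = α ∨ x = β) :
    False := by
  obtain ⟨e1, e2, e3, e4⟩ := cds (w := w) (z₀ := c α) hV
  obtain ⟨p1, p2, p3⟩ := K.st (by linarith : α ≤ x) h4
  obtain ⟨q1, q2, q3⟩ := K.strip y (by linarith) (by linarith)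
  have hσ := K.hσ
  have w0 := K.w0
  have hu : u = α := by
    rcases eq_or_lt_of_le h1 with h | h
    · exact h.symm
    · exfalso
      have hx : x = β := by
        rcases hex with h' | h'
        · linarith
        · exact h'
      obtain ⟨u1, u2, u3⟩ := K.strip u h (by linarith)
      rw [hx, K.zβ.1, K.zβ.2] at e1 e2
      rcases hσ with hs | hs
      · rw [hs] at u3; linarith
      · rw [hs] at q3; linarith
  rw [hu, K.zα.1] at e1
  rw [hu, K.zα.2] at e2
  rcases hσ with hs | hs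
  · have hV' : c α = c x + I * (c y - c x) := by rw [← hu]; exact hV
    have k := (K.side _ hI (Or.inl (by rw [norm_V hV']; exact (K.dist x (by linarith)
        (by linarith)).1)) (by rw [e4, hs]; linarith)).1
    rw [e3] at k
    rw [hs] at p3
    linarith
  · have := half0 L hE w0 K.hσ (by linarith : α ≤ β) (z₀ := c α) (fun τ a b => by
      have := (K.st a b).2.2
      rw [hs] at this
      rw [e4, hs]; linarith) h1 (by linarith : u ≤ x) h4
    refine wind_L3 L hE hn n0 hm ?_
    rw [add_sub_cancel_right]; exact this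

theorem cap_S (L : Loop c) (J : Inj c) (nosq : NoSq (range c)) (D : Dirn c θ)
    (hI : ∀ x y u, Rp (c x) (c y) (c u) → In (c y + I * (c y - c x)))
    (K : CapD c In t α β σ d w) : ShortC c Rp (Lb c θ) t := by
  have k1 := K.a0
  have k2 := K.b0
  have k3 := K.b1
  refine ⟨α, β, min (1 / 2) (1 - (β - α)), k1, k2, lt_min (by norm_num) (by linarith),
    fun δ T hd F hs => ?_⟩
  have d1 : δ < 1 / 2 := hd.trans_le (min_le_left _ _)
  have d2 : δ < 1 - (β - α) := hd.trans_le (min_le_right _ _)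
  have d0 := F.δ0
  obtain ⟨x, u, h1, h2, h3, h4, h5, h6, h7, h8⟩ := F.short d1 hs
  obtain ⟨a₀, ha₀⟩ : ∃ a₀, a₀ = (α + β - 1) / 2 := ⟨_, rfl⟩
  have q0M : (x, δ, u) ∈ Mm c δ a₀ :=
    mkMm (by rw [ha₀]; linarith) (by rw [ha₀]; linarith) le_rfl (by linarith) h2.le h3.le h5
  by_cases hex : ∃ q ∈ Mm c δ a₀, (((q.1 : AddCircle (1 : ℝ)), q.2.1) : Ann) ∈ T ∧ α ≤ q.1 ∧
      q.1 + q.2.1 ≤ β ∧ (q.1 ≤ α ∨ β ≤ q.1 + q.2.1)
  · obtain ⟨q, hq, hT, i1, i2, i3⟩ := hex
    obtain ⟨f1, f2, f3, f4⟩ := F.props J hq hT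
    obtain ⟨g1, g2⟩ := K.exitS i1 f1 f2 i2 hq.2.2.2.2 (hI _ _ _ f4) (by
      rcases i3 with i3 | i3
      · left; exact le_antisymm i3 i1
      · right; exact le_antisymm i2 i3)
    obtain ⟨b1, b2, b3⟩ := K.labS L J nosq D d0 hq i1 g2 g1
    exact Lb_of L J nosq D F hq hT b1 b2 b3
  · exfalso
    have key := escape L J F (a := a₀) (α := α) (β := β) (g := fun q => q.1)
      (h := fun q => q.1 + q.2.1) (by fun_prop) (by fun_prop) (fun q hq i1 i2 => by
        have s := Mm_strict J d0 hq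
        rw [ha₀]
        constructor <;> linarith) q0M h8 h1.le h4.le (fun q hq hT i1 i2 i3 =>
        hex ⟨q, hq, hT, i1, i2, i3⟩)
    obtain ⟨p, hp, hp2⟩ := F.lo
    obtain ⟨q, hq, i1, i2, e⟩ := key p hp
    linarith

theorem cap_L (L : Loop c) (J : Inj c) (nosq : NoSq (range c))
    (hR : ∀ x y u, Rp (c x) (c y) (c u) → ∃ n : ℤ, n ≠ 0 ∧ IsWc c (c y + I * (c y - c x)) n)
    (hI : ∀ x y u, Rp (c x) (c y) (c u) → In (c y + I * (c y - c x)))
    (K : CapD c In t α β σ d w) : LongC c Rp (Lb c θ) t := by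
  have k1 := K.a0
  have k2 := K.b0
  have k3 := K.b1
  refine ⟨α, β, min (1 / 2) (1 - (β - α)), k1, k2, lt_min (by norm_num) (by linarith),
    fun δ T hd F hs hQ => ?_⟩
  have d1 : δ < 1 / 2 := hd.trans_le (min_le_left _ _)
  have d2 : δ < 1 - (β - α) := hd.trans_le (min_le_right _ _)
  have d0 := F.δ0
  obtain ⟨x, u, h1, h2, h3, h4, h5, h6, h7⟩ := F.long d1 hs
  obtain ⟨a₀, ha₀⟩ : ∃ a₀, a₀ = (α + β - 1) / 2 := ⟨_, rfl⟩
  rcases h5 with ⟨g1, g2⟩ | ⟨g1, g2⟩
  · have q0M : (x, 1 - δ, u) ∈ Mm c δ a₀ :=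
      mkMm (by rw [ha₀]; linarith) (by rw [ha₀]; linarith) (by linarith) le_rfl h1.le h2.le h3
    have key := escape L J F (a := a₀) (α := α) (β := β) (g := fun q => q.1 + q.2.1 - 1)
      (h := fun q => q.2.2) (by fun_prop) (by fun_prop) (fun q hq i1 i2 => by
        have s := Mm_strict J d0 hq
        rw [ha₀]
        constructor <;> linarith) q0M h7 (by show α ≤ x + (1 - δ) - 1; linarith) g2.le
      (fun q hq hT i1 i2 i3 => by
        obtain ⟨f1, f2, f3, f4⟩ := F.props J hq hT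
        obtain ⟨-, -, b3⟩ := hQ _ q hq hT
        have hE := E4_notMem J nosq d0 hq
        obtain ⟨n, n0, hn⟩ := hR _ _ _ f4
        have ey : c (q.1 + q.2.1) = c (q.1 + q.2.1 - 1) := by
          rw [← L.per (q.1 + q.2.1 - 1), sub_add_cancel]
        have hV := hq.2.2.2.2
        have hI' := hI _ _ _ f4
        unfold m2 at b3
        unfold E4 at b3 hE
        rw [ey] at hV hI' hn hE b3
        refine K.exitL2 L i1 (by linarith) f1 i2 hV hI' hE hn n0 ?_ (by
          rcases i3 with i3 | i3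
          · left; exact le_antisymm i3 i1
          · right; exact le_antisymm i2 i3)
        rw [sub_add_cancel]; exact b3)
    obtain ⟨p, hp, hp2⟩ := F.sh
    obtain ⟨q, hq, i1, i2, e⟩ := key p hp
    have s := Mm_strict J d0 hq
    linarith
  · have q0M : (x, 1 - δ, u) ∈ Mm c δ a₀ :=
      mkMm (by rw [ha₀]; linarith) (by rw [ha₀]; linarith) (by linarith) le_rfl h1.le h2.le h3
    have key := escape L J F (a := a₀) (α := α) (β := β) (g := fun q => q.2.2 - 1)
      (h := fun q => q.1) (by fun_prop) (by fun_prop) (fun q hq i1 i2 => by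
        have s := Mm_strict J d0 hq
        rw [ha₀]
        constructor <;> linarith) q0M h7 (by show α ≤ u - 1; linarith) g2.le
      (fun q hq hT i1 i2 i3 => by
        obtain ⟨f1, f2, f3, f4⟩ := F.props J hq hT
        obtain ⟨-, b2, -⟩ := hQ _ q hq hT
        have hE := E4_notMem J nosq d0 hq
        obtain ⟨n, n0, hn⟩ := hR _ _ _ f4
        have ey : c (q.1 + q.2.1) = c (q.1 + q.2.1 - 1) := by
          rw [← L.per (q.1 + q.2.1 - 1), sub_add_cancel]
        have eu : c q.2.2 = c (q.2.2 - 1) := by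
          rw [← L.per (q.2.2 - 1), sub_add_cancel]
        have hV := hq.2.2.2.2
        have hI' := hI _ _ _ f4
        unfold m1 at b2
        unfold E4 at b2 hE
        rw [ey, eu] at hV
        rw [ey] at hI' hn hE b2
        refine K.exitL3 L i1 (by linarith) (by linarith) i2 hV hI' hE hn n0 ?_ (by
          rcases i3 with i3 | i3
          · left; exact le_antisymm i3 i1
          · right; exact le_antisymm i2 i3)
        rw [sub_add_cancel]; exact b2)
    obtain ⟨p, hp, hp2⟩ := F.sh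
    obtain ⟨q, hq, i1, i2, e⟩ := key p hp
    have s := Mm_strict J d0 hq
    linarith

end Pool.Agent.Run7.h564
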