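import Pool.Agent.N335.Hg.Crn7

/-! The compactness argument in abstract form. -/

set_option autoImplicit false
open Complex Set Topology Metric Filter
open scoped ComplexConjugate

namespace Pool.Agent.Run7.h564

open Pool.Agent.H763R2 Pool.Agent.H763R2.An
open Pool.Agent.H763R2.Dm (NoSq)
open Pool.Agent.Y765.Sq (Ann exists_int exists_rep TriM tri_fam)
open Pool.Agent.N335.Hg

variable {c : ℝ → ℂ}

/-- a family of triangles from the short to the long end -/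
structure Fm (c : ℝ → ℂ) (Rp : ℂ → ℂ → ℂ → Prop) (δ : ℝ) (T : Set Ann) : Prop where
  δ0 : 0 < δ
  pre : IsPreconnected T
  ty : TyP c Rp δ T
  sh : ∃ p ∈ T, p.2 = δ
  lo : ∃ p ∈ T, p.2 = 1 - δ

/-- families with a short member near `z` have the property `Q` -/
def ShortC (c : ℝ → ℂ) (Rp : ℂ → ℂ → ℂ → Prop) (Q : ℝ → Set Ann → Prop) (z : ℝ) : Prop :=
  ∃ zL zR d, zL < z ∧ z < zR ∧ 0 < d ∧ ∀ δ T, δ < d → Fm c Rp δ T →
    (∃ p ∈ T, p.2 = δ ∧ ∃ x : ℝ, (x : AddCircle (1 : ℝ)) = p.1 ∧ zL < x ∧ x + δ < zR) → Q δ T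

/-- families with a long member near `z` do not have the property `Q` -/
def LongC (c : ℝ → ℂ) (Rp : ℂ → ℂ → ℂ → Prop) (Q : ℝ → Set Ann → Prop) (z : ℝ) : Prop :=
  ∃ zL zR d, zL < z ∧ z < zR ∧ 0 < d ∧ ∀ δ T, δ < d → Fm c Rp δ T →
    (∃ p ∈ T, p.2 = 1 - δ ∧ ∃ x u : ℝ, (x : AddCircle (1 : ℝ)) = p.1 ∧ x < u ∧ u < x + (1 - δ) ∧
      c u = c x + I * (c (x + (1 - δ)) - c x) ∧ Rp (c x) (c (x + (1 - δ))) (c u) ∧
      ((zL < x - δ ∧ u < zR) ∨ (zL < u - 1 ∧ x < zR))) → ¬ Q δ T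

/-- the compactness argument -/
theorem core3 (L : Loop c) (J : Inj c) {Rp : ℂ → ℂ → ℂ → Prop} {Q : ℝ → Set Ann → Prop}
    (hS : ∀ z, ShortC c Rp Q z) (hL : ∀ z, LongC c Rp Q z)
    (hT : ∀ ε > 0, ∃ δ, δ < ε ∧ ∃ T : Set Ann, Fm c Rp δ T) : False := by
  have cc := L.cont
  have hT' : ∀ n : ℕ, ∃ δ, δ < 1 / ((n : ℝ) + 1) ∧ ∃ T : Set Ann, Fm c Rp δ T :=
    fun n => hT _ Nat.one_div_pos_of_nat
  choose δ δ1 T hF using hT'
  have δ0 : ∀ n, 0 < δ n := fun n => (hF n).δ0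
  have hTp : ∀ n, ∃ p ∈ T n, p.2 = δ n := fun n => (hF n).sh
  have hTq : ∀ n, ∃ p ∈ T n, p.2 = 1 - δ n := fun n => (hF n).lo
  choose p hp hp' using hTp
  choose q hq hq' using hTq
  have hx : ∀ n, ∃ x ∈ Icc (0:ℝ) 1, (x : AddCircle (1 : ℝ)) = (p n).1 := fun n =>
    exists_rep (p n).1
  choose x hx hxp using hx
  have hX : ∀ n, ∃ x ∈ Icc (0:ℝ) 1, (x : AddCircle (1 : ℝ)) = (q n).1 := fun n =>
    exists_rep (q n).1
  choose X hX hXq using hX
  have hU : ∀ n, ∃ u, X n < u ∧ u < X n + (1 - δ n) ∧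
      c u = c (X n) + I * (c (X n + (1 - δ n)) - c (X n)) ∧
      Rp (c (X n)) (c (X n + (1 - δ n))) (c u) := by
    intro n
    obtain ⟨-, -, hall⟩ := (hF n).ty (q n) (hq n)
    have := hall (X n) (hXq n)
    rwa [hq'] at this
  choose U U1 U2 U3 U4 using hU
  obtain ⟨⟨z, Z, v⟩, hz, φ, hφ, hlim⟩ := (isCompact_Icc.prod (isCompact_Icc.prod
    (isCompact_Icc (a := (0:ℝ)) (b := 2)))).tendsto_subseq
    (x := fun n => (x n, X n, U n)) (fun n => ⟨hx n, hX n, ⟨by linarith [(hX n).1, U1 n],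
      by linarith [(hX n).2, U2 n, δ0 n]⟩⟩)
  have lx : Tendsto (fun n => x (φ n)) atTop (𝓝 z) :=
    (continuous_fst.tendsto _).comp hlim
  have lX : Tendsto (fun n => X (φ n)) atTop (𝓝 Z) :=
    ((continuous_fst.comp continuous_snd).tendsto _).comp hlim
  have lU : Tendsto (fun n => U (φ n)) atTop (𝓝 v) :=
    ((continuous_snd.comp continuous_snd).tendsto _).comp hlim
  have lδ : Tendsto (fun n => δ (φ n)) atTop (𝓝 0) := by
    have h0 : Tendsto (fun n : ℕ => 1 / ((n : ℝ) + 1)) atTop (𝓝 0) :=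
      tendsto_one_div_add_atTop_nhds_zero_nat
    have h1 : Tendsto δ atTop (𝓝 0) :=
      squeeze_zero (fun n => (δ0 n).le) (fun n => (δ1 n).le) h0
    exact h1.comp hφ.tendsto_atTop
  have lx2 : Tendsto (fun n => x (φ n) + δ (φ n)) atTop (𝓝 z) := by
    have := lx.add lδ
    rwa [add_zero] at this
  have lQ : Tendsto (fun n => X (φ n) - δ (φ n)) atTop (𝓝 Z) := by
    have := lX.sub lδ
    rwa [sub_zero] at this
  have eQ : ∀ n, c (X n - δ n) = c (X n + (1 - δ n)) := fun n => by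
    rw [← L.per (X n - δ n)]; congr 1; ring
  have lcQ : Tendsto (fun n => c (X (φ n) + (1 - δ (φ n)))) atTop (𝓝 (c Z)) := by
    have := (cc.tendsto Z).comp lQ
    refine this.congr fun n => ?_
    exact eQ (φ n)
  have lcX : Tendsto (fun n => c (X (φ n))) atTop (𝓝 (c Z)) := (cc.tendsto Z).comp lX
  have lcU : Tendsto (fun n => c (U (φ n))) atTop (𝓝 (c v)) := (cc.tendsto v).comp lU
  have hcv : c v = c Z := by
    have h1 : Tendsto (fun n => c (U (φ n))) atTop (𝓝 (c Z + I * (c Z - c Z))) := by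
      have := lcX.add ((lcQ.sub lcX).const_mul I)
      refine this.congr fun n => ?_
      exact (U3 (φ n)).symm
    have := tendsto_nhds_unique lcU h1
    rw [this, sub_self, mul_zero, add_zero]
  have v1 : Z ≤ v := le_of_tendsto_of_tendsto' lX lU fun n => (U1 (φ n)).le
  have v2 : v ≤ Z + 1 := by
    have h2 : Tendsto (fun n => X (φ n) + 1) atTop (𝓝 (Z + 1)) := lX.add_const 1
    exact le_of_tendsto_of_tendsto' lU h2 fun n => by linarith [U2 (φ n), δ0 (φ n)]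
  have hv : v = Z ∨ v = Z + 1 := by
    rcases eq_or_lt_of_le v1 with h | h
    · exact Or.inl h.symm
    · rcases eq_or_lt_of_le v2 with h' | h'
      · exact Or.inr h'
      · exact absurd hcv.symm (J Z v h h')
  obtain ⟨zL, zR, d, z1, z2, hd, hz⟩ := hS z
  obtain ⟨yL, yR, d', y1, y2, hd', hy⟩ := hL Z
  have e1 : ∀ᶠ n in atTop, zL < x (φ n) := lx.eventually (lt_mem_nhds z1)
  have e2 : ∀ᶠ n in atTop, x (φ n) + δ (φ n) < zR := lx2.eventually (gt_mem_nhds z2)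
  have e3 : ∀ᶠ n in atTop, δ (φ n) < d := lδ.eventually (gt_mem_nhds hd)
  have e4 : ∀ᶠ n in atTop, δ (φ n) < d' := lδ.eventually (gt_mem_nhds hd')
  have e5 : ∀ᶠ n in atTop, (yL < X (φ n) - δ (φ n) ∧ U (φ n) < yR) ∨
      (yL < U (φ n) - 1 ∧ X (φ n) < yR) := by
    rcases hv with hv | hv
    · rw [hv] at lU
      filter_upwards [lQ.eventually (lt_mem_nhds y1), lU.eventually (gt_mem_nhds y2)] with n a b
      exact Or.inl ⟨a, b⟩
    · have lU' : Tendsto (fun n => U (φ n) - 1) atTop (𝓝 Z) := by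
        have := lU.sub_const 1
        rwa [hv, add_sub_cancel_right] at this
      filter_upwards [lU'.eventually (lt_mem_nhds y1), lX.eventually (gt_mem_nhds y2)] with n a b
      exact Or.inr ⟨a, b⟩
  obtain ⟨n, g1, g2, g3, g4, g5⟩ := (e1.and (e2.and (e3.and (e4.and e5)))).exists
  refine hy (δ (φ n)) (T (φ n)) g4 (hF _) ⟨q (φ n), hq _, hq' _, X (φ n), U (φ n), hXq _, U1 _,
    U2 _, U3 _, U4 _, g5⟩ ?_
  exact hz (δ (φ n)) (T (φ n)) g3 (hF _) ⟨p (φ n), hp _, hp' _, x (φ n), hxp _, g1, g2⟩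

end Pool.Agent.Run7.h564
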