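import Mathlib

/-! Arithmetic of angles that are known up to multiples of `2 π`. -/

set_option autoImplicit false

namespace Pool.Agent.Run7.h564

theorem i_lo {p x a : ℝ} {j n : ℤ} (hp : 0 < p) (h : x = a + j * (2 * p))
    (h1 : (n : ℝ) * (2 * p) < x - a) : n < j := by
  have : (n : ℝ) * (2 * p) < j * (2 * p) := by linarith
  have := lt_of_mul_lt_mul_right this (by linarith)
  exact_mod_cast this

theorem i_hi {p x a : ℝ} {j n : ℤ} (hp : 0 < p) (h : x = a + j * (2 * p))
    (h1 : x - a < (n : ℝ) * (2 * p)) : j < n := by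
  have : (j : ℝ) * (2 * p) < n * (2 * p) := by linarith
  have := lt_of_mul_lt_mul_right this (by linarith)
  exact_mod_cast this

theorem val0 {p x a : ℝ} {j : ℤ} (hp : 0 < p) (h : x = a + j * (2 * p)) (h1 : -(2 * p) < x - a)
    (h2 : x - a < 2 * p) : x = a := by
  have a1 := i_lo (n := -1) hp h (by push_cast; linarith)
  have a2 := i_hi (n := 1) hp h (by push_cast; linarith)
  have : j = 0 := by omega
  rw [h, this]; push_cast; ring

theorem valp {p x a : ℝ} {j : ℤ} (hp : 0 < p) (h : x = a + j * (2 * p)) (h1 : -(2 * p) < x - a)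
    (h2 : x - a < 4 * p) : x = a ∨ x = a + 2 * p := by
  have a1 := i_lo (n := -1) hp h (by push_cast; linarith)
  have a2 := i_hi (n := 2) hp h (by push_cast; linarith)
  have : j = 0 ∨ j = 1 := by omega
  rcases this with h0 | h0
  · left; rw [h, h0]; push_cast; ring
  · right; rw [h, h0]; push_cast; ring

theorem valm {p x a : ℝ} {j : ℤ} (hp : 0 < p) (h : x = a + j * (2 * p)) (h1 : -(4 * p) < x - a)
    (h2 : x - a < 2 * p) : x = a ∨ x = a - 2 * p := by
  have a1 := i_lo (n := -2) hp h (by push_cast; linarith)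
  have a2 := i_hi (n := 1) hp h (by push_cast; linarith)
  have : j = 0 ∨ j = -1 := by omega
  rcases this with h0 | h0
  · left; rw [h, h0]; push_cast; ring
  · right; rw [h, h0]; push_cast; ring

theorem valmm {p x a : ℝ} {j : ℤ} (hp : 0 < p) (h : x = a + j * (2 * p)) (h1 : -(6 * p) < x - a)
    (h2 : x - a < 0) : x = a - 2 * p ∨ x = a - 4 * p := by
  have a1 := i_lo (n := -3) hp h (by push_cast; linarith)
  have a2 := i_hi (n := 0) hp h (by push_cast; linarith)
  have : j = -1 ∨ j = -2 := by omega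
  rcases this with h0 | h0
  · left; rw [h, h0]; push_cast; ring
  · right; rw [h, h0]; push_cast; ring

/-- the labels of short triangles -/
def P5 (l1 l2 m1 m2 : ℝ) : Prop :=
  (l1 = Real.pi / 2 ∧ l2 = -(Real.pi / 4) ∧ m1 = -(Real.pi / 4) ∧ m2 = Real.pi / 2) ∨
  (l1 = Real.pi / 2 ∧ l2 = 7 * Real.pi / 4 ∧ m1 = -(Real.pi / 4) ∧ m2 = Real.pi / 2) ∨
  (l1 = -(3 * Real.pi / 2) ∧ l2 = -(Real.pi / 4) ∧ m1 = -(Real.pi / 4) ∧ m2 = Real.pi / 2) ∨
  (l1 = -(3 * Real.pi / 2) ∧ l2 = -(Real.pi / 4) ∧ m1 = -(Real.pi / 4) ∧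
    m2 = -(3 * Real.pi / 2)) ∨
  (l1 = -(3 * Real.pi / 2) ∧ l2 = -(Real.pi / 4) ∧ m1 = 7 * Real.pi / 4 ∧ m2 = -(3 * Real.pi / 2))

/-- short triangles at a fold with the turn to the left -/
theorem enumS {T1 T2 T3 ψx ψu ψy d : ℝ} {j1 j2 i1 i2 i3 : ℤ}
    (hd : d = -(Real.pi / 2) ∨ d = -(3 * Real.pi / 2))
    (h1 : T1 = T2 + Real.pi / 2 + j1 * (2 * Real.pi))
    (h2 : T3 = T2 - Real.pi / 4 + j2 * (2 * Real.pi))
    (k1 : ψx = T2 + 5 * Real.pi / 4 + i1 * (2 * Real.pi))
    (k2 : ψu = T2 + Real.pi + i2 * (2 * Real.pi))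
    (k3 : ψy = T2 + 3 * Real.pi / 2 + i3 * (2 * Real.pi))
    (a1 : Real.pi / 2 < T1) (b1 : T1 < 5 * Real.pi / 2)
    (a2 : Real.pi / 2 < T2) (b2 : T2 < 5 * Real.pi / 2)
    (a3 : Real.pi / 2 < T3) (b3 : T3 < 5 * Real.pi / 2)
    (c1 : d < ψx) (d1 : ψx < d + 2 * Real.pi)
    (c2 : d < ψu) (d2 : ψu < d + 2 * Real.pi)
    (c3 : d < ψy) (d3 : ψy < d + 2 * Real.pi)
    (hm : T1 < 3 * Real.pi / 2 ∨ 3 * Real.pi / 2 < T3) :
    P5 (T1 - T2) (T3 - T2) (ψu - ψx) (ψy - ψu) := by
  have hp := Real.pi_pos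
  have e1 : ψu - ψx = -(Real.pi / 4) + ((i2 - i1 : ℤ) : ℝ) * (2 * Real.pi) := by
    rw [k1, k2]; push_cast; ring
  have e2 : ψy - ψu = Real.pi / 2 + ((i3 - i2 : ℤ) : ℝ) * (2 * Real.pi) := by
    rw [k2, k3]; push_cast; ring
  have f1 := valm hp h1 (by linarith) (by linarith)
  have f2 := valp hp h2 (by linarith) (by linarith)
  have f3 := valp hp e1 (by linarith) (by linarith)
  have f4 := valm hp e2 (by linarith) (by linarith)
  unfold P5
  rcases hd with rfl | rfl
  · have f5 : ψu = T2 + Real.pi - 2 * Real.pi := by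
      rcases valmm hp k2 (by linarith) (by linarith) with h | h
      · exact h
      · exfalso; linarith
    rcases hm with hm | hm <;> rcases f1 with f1 | f1 <;> rcases f2 with f2 | f2 <;>
      rcases f3 with f3 | f3 <;> rcases f4 with f4 | f4 <;>
      first
      | (exfalso; linarith)
      | exact Or.inl ⟨by linarith, by linarith, by linarith, by linarith⟩
      | exact Or.inr (Or.inl ⟨by linarith, by linarith, by linarith, by linarith⟩)
      | exact Or.inr (Or.inr (Or.inl ⟨by linarith, by linarith, by linarith, by linarith⟩))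
      | exact Or.inr (Or.inr (Or.inr (Or.inl
          ⟨by linarith, by linarith, by linarith, by linarith⟩)))
      | exact Or.inr (Or.inr (Or.inr (Or.inr
          ⟨by linarith, by linarith, by linarith, by linarith⟩)))
  · rcases valmm hp k2 (by linarith) (by linarith) with f5 | f5 <;>
      rcases hm with hm | hm <;> rcases f1 with f1 | f1 <;> rcases f2 with f2 | f2 <;>
      rcases f3 with f3 | f3 <;> rcases f4 with f4 | f4 <;>
      first
      | (exfalso; linarith)
      | exact Or.inl ⟨by linarith, by linarith, by linarith, by linarith⟩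
      | exact Or.inr (Or.inl ⟨by linarith, by linarith, by linarith, by linarith⟩)
      | exact Or.inr (Or.inr (Or.inl ⟨by linarith, by linarith, by linarith, by linarith⟩))
      | exact Or.inr (Or.inr (Or.inr (Or.inl
          ⟨by linarith, by linarith, by linarith, by linarith⟩)))
      | exact Or.inr (Or.inr (Or.inr (Or.inr
          ⟨by linarith, by linarith, by linarith, by linarith⟩)))

end Pool.Agent.Run7.h564
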