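import Pool.Agent.Run7.h564.Enum

/-! Arithmetic of angles, long triangles and the turn to the right. -/

set_option autoImplicit false

namespace Pool.Agent.Run7.h564

theorem P5.l1v {l1 l2 m1 m2 : ℝ} (h : P5 l1 l2 m1 m2) :
    l1 = Real.pi / 2 ∨ l1 = -(3 * Real.pi / 2) := by
  unfold P5 at h
  rcases h with h | h | h | h | h
  · exact Or.inl h.1
  · exact Or.inl h.1
  · exact Or.inr h.1
  · exact Or.inr h.1
  · exact Or.inr h.1

/-- the directions to the right of a fold with the turn to the right: short triangles -/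
theorem enumSR {T1 T2 T3 : ℝ} {j1 j2 : ℤ}
    (h1 : T1 = T2 + Real.pi / 2 + j1 * (2 * Real.pi))
    (h2 : T3 = T2 - Real.pi / 4 + j2 * (2 * Real.pi))
    (a1 : -(Real.pi / 2) < T1) (b1 : T1 < 3 * Real.pi / 2)
    (a2 : -(Real.pi / 2) < T2) (b2 : T2 < 3 * Real.pi / 2)
    (a3 : -(Real.pi / 2) < T3) (b3 : T3 < 3 * Real.pi / 2)
    (hm : Real.pi / 2 < T1 ∨ T3 < Real.pi / 2) :
    T1 - T2 = Real.pi / 2 ∧ T3 - T2 = -(Real.pi / 4) := by
  have hp := Real.pi_pos
  have f1 := valm hp h1 (by linarith) (by linarith)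
  have f2 := valp hp h2 (by linarith) (by linarith)
  rcases hm with hm | hm <;> rcases f1 with f1 | f1 <;> rcases f2 with f2 | f2 <;>
    first
    | (exfalso; linarith)
    | exact ⟨by linarith, by linarith⟩

/-- long triangles in the order `Q`, `P`, `V` -/
theorem enumL2R {T1 T2 T3 : ℝ} {j1 j2 : ℤ}
    (h1 : T2 = T1 - Real.pi / 4 + j1 * (2 * Real.pi))
    (h2 : T3 = T1 - Real.pi / 2 + j2 * (2 * Real.pi))
    (a1 : -(Real.pi / 2) < T1) (b1 : T1 < 3 * Real.pi / 2)
    (a2 : -(Real.pi / 2) < T2) (b2 : T2 < 3 * Real.pi / 2)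
    (a3 : -(Real.pi / 2) < T3) (b3 : T3 < 3 * Real.pi / 2)
    (hm : Real.pi / 2 < T1 ∨ T3 < Real.pi / 2) :
    T3 - T1 = -(Real.pi / 2) ∧ T2 - T1 = -(Real.pi / 4) := by
  have hp := Real.pi_pos
  have f1 := valp hp h1 (by linarith) (by linarith)
  have f2 := valp hp h2 (by linarith) (by linarith)
  rcases hm with hm | hm <;> rcases f1 with f1 | f1 <;> rcases f2 with f2 | f2 <;>
    first
    | (exfalso; linarith)
    | exact ⟨by linarith, by linarith⟩

/-- long triangles in the order `V`, `Q`, `P` -/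
theorem enumL3R {T1 T2 T3 : ℝ} {j1 j2 : ℤ}
    (h1 : T1 = T3 + 3 * Real.pi / 4 + j1 * (2 * Real.pi))
    (h2 : T2 = T3 + Real.pi / 2 + j2 * (2 * Real.pi))
    (a1 : -(Real.pi / 2) < T1) (b1 : T1 < 3 * Real.pi / 2)
    (a2 : -(Real.pi / 2) < T2) (b2 : T2 < 3 * Real.pi / 2)
    (a3 : -(Real.pi / 2) < T3) (b3 : T3 < 3 * Real.pi / 2)
    (hm : Real.pi / 2 < T1 ∨ T3 < Real.pi / 2) :
    T2 - T3 = Real.pi / 2 ∧ T1 - T3 = 3 * Real.pi / 4 := by
  have hp := Real.pi_pos
  have f1 := valm hp h1 (by linarith) (by linarith)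
  have f2 := valm hp h2 (by linarith) (by linarith)
  rcases hm with hm | hm <;> rcases f1 with f1 | f1 <;> rcases f2 with f2 | f2 <;>
    first
    | (exfalso; linarith)
    | exact ⟨by linarith, by linarith⟩

/-- long triangles at a fold with the turn to the left, order `Q`, `P`, `V` -/
theorem enumL2 {T1 T2 T3 ψx ψu ψy d : ℝ} {j1 j2 i1 i2 i3 e : ℤ} (he : Even e)
    (hd : d = -(Real.pi / 2) ∨ d = -(3 * Real.pi / 2))
    (h1 : T2 = T1 - Real.pi / 4 + j1 * (2 * Real.pi))
    (h2 : T3 = T1 - Real.pi / 2 + j2 * (2 * Real.pi))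
    (k1 : ψx = T1 + Real.pi / 4 + i1 * (2 * Real.pi))
    (k2 : ψu = T1 + i2 * (2 * Real.pi))
    (k3 : ψy = T1 + Real.pi / 2 + i3 * (2 * Real.pi))
    (a1 : Real.pi / 2 < T1) (b1 : T1 < 5 * Real.pi / 2)
    (a2 : Real.pi / 2 < T2) (b2 : T2 < 5 * Real.pi / 2)
    (a3 : Real.pi / 2 < T3) (b3 : T3 < 5 * Real.pi / 2)
    (c1 : d < ψx) (d1 : ψx < d + 2 * Real.pi)
    (c2 : d < ψu) (d2 : ψu < d + 2 * Real.pi)
    (c3 : d < ψy) (d3 : ψy < d + 2 * Real.pi) :
    ¬ P5 (T3 - T1 - (2 * e - 1) * Real.pi) (T2 - T1) (ψu - ψx)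
      (2 * Real.pi * (e - 1) - (ψu - ψy)) := by
  intro h
  have hp := Real.pi_pos
  have f2 := valp hp h2 (by linarith) (by linarith)
  have f1 := valp hp h1 (by linarith) (by linarith)
  -- the values of `e`
  have g1 := h.l1v
  have e02 : e = 0 ∨ (e = 2 ∧ T3 = T1 - Real.pi / 2 + 2 * Real.pi) := by
    obtain ⟨k, hk⟩ := he
    rcases g1 with g1 | g1 <;> rcases f2 with f2 | f2
    · left
      rw [f2] at g1
      have : (0:ℝ) = 0 + e * (2 * Real.pi) := by linarith
      have a := i_lo (n := -1) hp this (by push_cast; linarith)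
      have b := i_hi (n := 1) hp this (by push_cast; linarith)
      omega
    · exfalso
      rw [f2] at g1
      have : (2 * Real.pi : ℝ) = 0 + e * (2 * Real.pi) := by linarith
      have a := i_lo (n := 0) hp this (by push_cast; linarith)
      have b := i_hi (n := 2) hp this (by push_cast; linarith)
      omega
    · exfalso
      rw [f2] at g1
      have : (2 * Real.pi : ℝ) = 0 + e * (2 * Real.pi) := by linarith
      have a := i_lo (n := 0) hp this (by push_cast; linarith)
      have b := i_hi (n := 2) hp this (by push_cast; linarith)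
      omega
    · right
      refine ⟨?_, f2⟩
      rw [f2] at g1
      have : (4 * Real.pi : ℝ) = 0 + e * (2 * Real.pi) := by linarith
      have a := i_lo (n := 1) hp this (by push_cast; linarith)
      have b := i_hi (n := 3) hp this (by push_cast; linarith)
      omega
  rcases e02 with e0 | ⟨e0, f3⟩
  · -- `e = 0`
    rw [e0] at h
    push_cast at h
    unfold P5 at h
    rcases f2 with f2 | f2 <;> rcases h with h | h | h | h | h <;> obtain ⟨q1, q2, q3, q4⟩ := h <;>
      linarith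
  · rw [e0] at h
    push_cast at h
    have k2' : ψu = T1 + i2 * (2 * Real.pi) := k2
    unfold P5 at h
    have f4 : ψu = T1 ∨ ψu = T1 - 2 * Real.pi ∨ ψu = T1 - 4 * Real.pi := by
      have a := i_lo (n := -3) hp k2' (by push_cast; rcases hd with rfl | rfl <;> linarith)
      have b := i_hi (n := 1) hp k2' (by push_cast; rcases hd with rfl | rfl <;> linarith)
      have : i2 = 0 ∨ i2 = -1 ∨ i2 = -2 := by omega
      rcases this with h0 | h0 | h0
      · left; rw [k2, h0]; push_cast; ring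
      · right; left; rw [k2, h0]; push_cast; ring
      · right; right; rw [k2, h0]; push_cast; ring
    rcases hd with rfl | rfl <;> rcases h with h | h | h | h | h <;>
      obtain ⟨q1, q2, q3, q4⟩ := h <;> rcases f4 with f4 | f4 | f4 <;> linarith

/-- long triangles at a fold with the turn to the left, order `V`, `Q`, `P` -/
theorem enumL3 {T1 T2 T3 ψx ψu ψy d : ℝ} {j1 j2 i1 i2 i3 e : ℤ} (he : Even e)
    (hd : d = -(Real.pi / 2) ∨ d = -(3 * Real.pi / 2))
    (h1 : T1 = T3 + 3 * Real.pi / 4 + j1 * (2 * Real.pi))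
    (h2 : T2 = T3 + Real.pi / 2 + j2 * (2 * Real.pi))
    (k1 : ψx = T3 + Real.pi / 4 + i1 * (2 * Real.pi))
    (k2 : ψu = T3 + i2 * (2 * Real.pi))
    (k3 : ψy = T3 + Real.pi / 2 + i3 * (2 * Real.pi))
    (a1 : Real.pi / 2 < T1) (b1 : T1 < 5 * Real.pi / 2)
    (a2 : Real.pi / 2 < T2) (b2 : T2 < 5 * Real.pi / 2)
    (a3 : Real.pi / 2 < T3) (b3 : T3 < 5 * Real.pi / 2)
    (c1 : d < ψx) (d1 : ψx < d + 2 * Real.pi)
    (c2 : d < ψu) (d2 : ψu < d + 2 * Real.pi)
    (c3 : d < ψy) (d3 : ψy < d + 2 * Real.pi) :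
    ¬ P5 (T2 - T3) (T1 - T3 + (2 * e - 1) * Real.pi) (2 * Real.pi * (e - 1) - (ψx - ψu))
      (ψy - ψu) := by
  intro h
  have hp := Real.pi_pos
  have f1 := valm hp h1 (by linarith) (by linarith)
  have f2 := valm hp h2 (by linarith) (by linarith)
  have g1 : T1 - T3 + (2 * e - 1) * Real.pi = -(Real.pi / 4) ∨
      T1 - T3 + (2 * e - 1) * Real.pi = 7 * Real.pi / 4 := by
    unfold P5 at h
    rcases h with h | h | h | h | h
    · exact Or.inl h.2.1
    · exact Or.inr h.2.1
    · exact Or.inl h.2.1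
    · exact Or.inl h.2.1
    · exact Or.inl h.2.1
  have e02 : (e = 0 ∧ T1 = T3 + 3 * Real.pi / 4) ∨
      (e = 2 ∧ T1 = T3 + 3 * Real.pi / 4 - 2 * Real.pi) := by
    obtain ⟨k, hk⟩ := he
    rcases g1 with g1 | g1 <;> rcases f1 with f1 | f1
    · left
      refine ⟨?_, f1⟩
      rw [f1] at g1
      have : (0:ℝ) = 0 + e * (2 * Real.pi) := by linarith
      have a := i_lo (n := -1) hp this (by push_cast; linarith)
      have b := i_hi (n := 1) hp this (by push_cast; linarith)
      omega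
    · exfalso
      rw [f1] at g1
      have : (2 * Real.pi : ℝ) = 0 + e * (2 * Real.pi) := by linarith
      have a := i_lo (n := 0) hp this (by push_cast; linarith)
      have b := i_hi (n := 2) hp this (by push_cast; linarith)
      omega
    · exfalso
      rw [f1] at g1
      have : (2 * Real.pi : ℝ) = 0 + e * (2 * Real.pi) := by linarith
      have a := i_lo (n := 0) hp this (by push_cast; linarith)
      have b := i_hi (n := 2) hp this (by push_cast; linarith)
      omega
    · right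
      refine ⟨?_, f1⟩
      rw [f1] at g1
      have : (4 * Real.pi : ℝ) = 0 + e * (2 * Real.pi) := by linarith
      have a := i_lo (n := 1) hp this (by push_cast; linarith)
      have b := i_hi (n := 3) hp this (by push_cast; linarith)
      omega
  rcases e02 with ⟨e0, f3⟩ | ⟨e0, f3⟩
  · rw [e0] at h
    push_cast at h
    unfold P5 at h
    have f4 : ψu = T3 ∨ ψu = T3 - 2 * Real.pi ∨ ψu = T3 - 4 * Real.pi := by
      have a := i_lo (n := -3) hp k2 (by push_cast; rcases hd with rfl | rfl <;> linarith)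
      have b := i_hi (n := 1) hp k2 (by push_cast; rcases hd with rfl | rfl <;> linarith)
      have : i2 = 0 ∨ i2 = -1 ∨ i2 = -2 := by omega
      rcases this with h0 | h0 | h0
      · left; rw [k2, h0]; push_cast; ring
      · right; left; rw [k2, h0]; push_cast; ring
      · right; right; rw [k2, h0]; push_cast; ring
    rcases hd with rfl | rfl <;> rcases h with h | h | h | h | h <;>
      obtain ⟨q1, q2, q3, q4⟩ := h <;> rcases f4 with f4 | f4 | f4 <;> linarith
  · rw [e0] at h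
    push_cast at h
    unfold P5 at h
    rcases hd with rfl | rfl <;> rcases h with h | h | h | h | h <;>
      obtain ⟨q1, q2, q3, q4⟩ := h <;> rcases f2 with f2 | f2 <;> linarith

/-- long triangles with the usual directions -/
theorem P5_std2 {T1 T2 T3 m1 m2 : ℝ} {e : ℤ} (he : e ≠ 1) (h1 : T3 - T1 = -(Real.pi / 2))
    (h2 : T2 - T1 = -(Real.pi / 4))
    (h : P5 (T3 - T1 - (2 * e - 1) * Real.pi) (T2 - T1) m1 m2) :
    T3 - T1 - (2 * e - 1) * Real.pi = Real.pi / 2 ∧ m1 = -(Real.pi / 4) ∧ m2 = Real.pi / 2 := by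
  have hp := Real.pi_pos
  unfold P5 at h
  have n : T3 - T1 - (2 * e - 1) * Real.pi ≠ -(3 * Real.pi / 2) := by
    intro h0
    rw [h1] at h0
    have : (2 * Real.pi : ℝ) = 0 + e * (2 * Real.pi) := by linarith
    have a := i_lo (n := 0) hp this (by push_cast; linarith)
    have b := i_hi (n := 2) hp this (by push_cast; linarith)
    omega
  rcases h with h | h | h | h | h
  · exact ⟨h.1, h.2.2⟩
  · exact ⟨h.1, h.2.2⟩
  · exact absurd h.1 n
  · exact absurd h.1 n
  · exact absurd h.1 n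

theorem P5_std3 {T2 T3 l2 m1 m2 : ℝ} (h1 : T2 - T3 = Real.pi / 2)
    (h : P5 (T2 - T3) l2 m1 m2) :
    T2 - T3 = Real.pi / 2 ∧ m1 = -(Real.pi / 4) ∧ m2 = Real.pi / 2 := by
  have hp := Real.pi_pos
  unfold P5 at h
  rcases h with h | h | h | h | h
  · exact ⟨h.1, h.2.2⟩
  · exact ⟨h.1, h.2.2⟩
  · exfalso; linarith [h.1]
  · exfalso; linarith [h.1]
  · exfalso; linarith [h.1]

/-- with the other parity the first two labels suffice -/
theorem odd_std2 {T1 T3 : ℝ} {e : ℤ} (he : Odd e) (h1 : T3 - T1 = -(Real.pi / 2)) :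
    T3 - T1 - (2 * e - 1) * Real.pi ≠ Real.pi / 2 := by
  have hp := Real.pi_pos
  intro h0
  rw [h1] at h0
  obtain ⟨k, hk⟩ := he
  have : (0 : ℝ) = 0 + e * (2 * Real.pi) := by linarith
  have a := i_lo (n := -1) hp this (by push_cast; linarith)
  have b := i_hi (n := 1) hp this (by push_cast; linarith)
  omega

theorem odd_std3 {T1 T3 : ℝ} {e : ℤ} (he : Odd e) (h1 : T1 - T3 = 3 * Real.pi / 4) :
    T1 - T3 + (2 * e - 1) * Real.pi ≠ -(Real.pi / 4) := by
  have hp := Real.pi_pos
  intro h0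
  rw [h1] at h0
  obtain ⟨k, hk⟩ := he
  have : (0 : ℝ) = 0 + e * (2 * Real.pi) := by linarith
  have a := i_lo (n := -1) hp this (by push_cast; linarith)
  have b := i_hi (n := 1) hp this (by push_cast; linarith)
  omega

end Pool.Agent.Run7.h564
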