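import Pool.Agent.Run7.h564.Out

/-! Assembly of the theorem from the local conditions. -/

set_option autoImplicit false
open Complex Set Topology Metric Filter
open scoped ComplexConjugate

namespace Pool.Agent.Run7.h564

open Pool.Agent.H763R2 Pool.Agent.H763R2.An
open Pool.Agent.H763R2.Dm (NoSq)
open Pool.Agent.Y765.Sq (Ann exists_int exists_rep TriM tri_fam)
open Pool.Agent.N335.Hg

variable {c : ℝ → ℂ}

theorem wc_of {z : ℂ} (hz : 0 < mgc c z) : ∃ n : ℤ, n ≠ 0 ∧ IsWc c z n := by
  unfold mgc at hz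
  split_ifs at hz with h
  · obtain ⟨n, hn, ho⟩ := h
    exact ⟨n, by rintro rfl; exact absurd ho (by decide), hn⟩
  · have := infDist_nonneg (x := z) (s := range c)
    linarith

/-- the local conditions for one orientation -/
def Lc (c : ℝ → ℂ) (Rp : ℂ → ℂ → ℂ → Prop) (t : ℝ) : Prop :=
  ∀ θ : ℝ → ℝ → ℝ, Dirn c θ → ShortC c Rp (Lb c θ) t ∧ LongC c Rp (Lb c θ) t

/-- either there are no small squares of type A or of type B -/
theorem two_types (L : Loop c) (J : Inj c) (nosq : NoSq (range c))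
    (h1 : ∀ t, Lc c (RI c) t) (h2 : ∀ t, Lc (fun s => c (-s)) (RI c) t) : False := by
  by_cases hA : ∀ ε > 0, ∃ δ, δ < ε ∧ ∃ T : Set Ann, Fm c (RI c) δ T
  · obtain ⟨θ, D⟩ := exists_dirn L J
    exact core3 L J (fun z => (h1 z θ D).1) (fun z => (h1 z θ D).2) hA
  · push Not at hA
    obtain ⟨ε, hε, hA⟩ := hA
    obtain ⟨g, hg⟩ : ∃ g : ℝ → ℂ, g = fun s => c (-s) := ⟨_, rfl⟩
    rw [← hg] at h2
    have Lg' : Loop g := by
      have := L.cont
      refine ⟨by rw [hg]; fun_prop, fun s => ?_⟩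
      rw [hg]
      simp only
      rw [← L.per (-(s + 1))]
      congr 1; ring
    have Jg : Inj g := by
      intro x y h1 h2
      rw [hg]
      exact (J (-y) (-x) (by linarith) (by linarith)).symm
    obtain ⟨θ, D⟩ := exists_dirn Lg' Jg
    refine core3 Lg' Jg (fun z => (h2 z θ D).1) (fun z => (h2 z θ D).2) fun ε' hε' => ?_
    obtain ⟨δ, hδ⟩ : ∃ δ, δ = min (min (ε / 2) (ε' / 2)) (1 / 4) := ⟨_, rfl⟩
    have δ0 : 0 < δ := by rw [hδ]; positivity
    have δ1 : δ < ε := by
      have : δ ≤ ε / 2 := by rw [hδ]; exact (min_le_left _ _).trans (min_le_left _ _)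
      linarith
    have δ2 : δ < ε' := by
      have : δ ≤ ε' / 2 := by rw [hδ]; exact (min_le_left _ _).trans (min_le_right _ _)
      linarith
    have δ3 : δ < 1 / 2 := by
      have : δ ≤ 1 / 4 := by rw [hδ]; exact min_le_right _ _
      linarith
    obtain ⟨T, hT, ⟨p1, hp1, e1⟩, ⟨p2, hp2, e2⟩, hb, hab⟩ :=
      tri_fam L J nosq (κ := I) (Or.inl rfl) (σ := 1) (Or.inl rfl) δ0 δ3
    rcases hab with hab | hab
    · exfalso
      exact hA δ δ1 T ⟨δ0, hT.isPreconnected, fun p hp => ⟨(hb p hp).1, (hb p hp).2, fun x hx => by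
        obtain ⟨u, a1, a2, a3, a4⟩ := hab p hp x hx
        exact ⟨u, a1, a2, a3, a3, by rwa [one_mul] at a4⟩⟩, ⟨p1, hp1, e1⟩, p2, hp2, e2⟩
    · have ch : Continuous fun p : Ann => ((-p.1, 1 - p.2) : Ann) :=
        continuous_fst.neg.prodMk (continuous_const.sub continuous_snd)
      refine ⟨δ, δ2, (fun p : Ann => ((-p.1, 1 - p.2) : Ann)) '' T,
        ⟨δ0, (hT.image _ ch.continuousOn).isPreconnected, ?_, ⟨_, ⟨p2, hp2, rfl⟩, ?_⟩,
        ⟨_, ⟨p1, hp1, rfl⟩, ?_⟩⟩⟩
      · rintro _ ⟨p, hp, rfl⟩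
        refine ⟨by show δ ≤ 1 - p.2; linarith [(hb p hp).2],
          by show 1 - p.2 ≤ 1 - δ; linarith [(hb p hp).1], fun x hx => ?_⟩
        have hx' : ((-x : ℝ) : AddCircle (1 : ℝ)) = p.1 := by
          rw [AddCircle.coe_neg, hx]
          show - -p.1 = p.1
          rw [neg_neg]
        obtain ⟨u, a1, a2, a3, a4⟩ := hab p hp (-x) hx'
        rw [one_mul] at a4
        have g1 : c (-(1 - u)) = c u := by
          rw [← L.per (-(1 - u))]; congr 1; ring
        have g3 : c (-(x + (1 - p.2))) = c (-x + p.2) := by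
          rw [← L.per (-(x + (1 - p.2)))]; congr 1; ring
        refine ⟨1 - u, by linarith, by show 1 - u < x + (1 - p.2); linarith, ?_, ?_⟩
        · rw [hg]
          show c (-(1 - u)) = c (-x) + I * (c (-(x + (1 - p.2))) - c (-x))
          rw [g1, g3]
          exact a3
        · rw [hg]
          show RI c (c (-x)) (c (-(x + (1 - p.2)))) (c (-(1 - u)))
          rw [g1, g3]
          exact ⟨a3, a4⟩
      · show 1 - p2.2 = δ
        rw [e2]; ring
      · show 1 - p1.2 = 1 - δ
        rw [e1]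

/-- the winding numbers of the reversed curve -/
theorem wc_rev (L : Loop c) {z : ℂ} {n : ℤ} (h : IsWc c z n) : IsWc (fun s => c (-s)) z (-n) := by
  obtain ⟨k, hk, ek, e⟩ := h
  refine ⟨fun t => k (-t), by fun_prop, fun t => by rw [ek], ?_⟩
  have h3 := H777R2.exp_const (X := ℝ) (k := fun t => k (t + 1) - k t) (by fun_prop) (c := 1)
    (fun t => by
      rw [exp_sub, ek, ek, L.per, ← ek, div_self (exp_ne_zero _)]) (-1) 0
  simp only [zero_add] at h3
  rw [show (-1 : ℝ) + 1 = 0 by ring, e] at h3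
  simp only [neg_zero]
  rw [show k (-1) - k 0 = -(k 0 - k (-1)) by ring, h3]
  push_cast; ring

/-- the local conditions at the points treated in `N335/Hg` and at outward cusps -/
theorem lc_of (L : Loop c) (J : Inj c) (nosq : NoSq (range c)) {Rp : ℂ → ℂ → ℂ → Prop}
    {In : ℂ → Prop}
    (hR : ∀ x y u, Rp (c x) (c y) (c u) → ∃ n : ℤ, n ≠ 0 ∧ IsWc c (c y + I * (c y - c x)) n)
    (hI : ∀ x y u, Rp (c x) (c y) (c u) → In (c y + I * (c y - c x))) {t : ℝ}
    (H : Mon c t ∨ Hourglass c t ∨ Tan c t ∨ NoP c Rp t ∨ OutC c In t) : Lc c Rp t := by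
  intro θ D
  rcases H with h | h | h | h | h
  · exact ⟨mon_S L J nosq D h, mon_L L J nosq D hR h⟩
  · exact ⟨hour_S L J h, hour_L L J h⟩
  · rcases hour_or_crn L J h with h | h
    · exact ⟨hour_S L J h, hour_L L J h⟩
    · exact ⟨crn_S L J nosq D h, crn_L L J nosq hR h⟩
  · exact ⟨nop_S h, nop_L L h⟩
  · exact out_SL L J nosq h hR hI

theorem square_out (L : Loop c) (J : Inj c)
    (H : ∀ t, Mon c t ∨ Hourglass c t ∨ Tan c t ∨ NoP c (RI c) t ∨
      OutC c (fun z => 0 < mgc c z) t) :
    ∃ z w : ℂ, w ≠ 0 ∧ z ∈ range c ∧ z + w ∈ range c ∧ z + w + I * w ∈ range c ∧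
      z + I * w ∈ range c := by
  by_contra nosq
  refine two_types L J nosq (fun t => lc_of L J nosq (fun x y u h => wc_of h.2)
    (fun x y u h => h.2) (H t)) fun t => ?_
  obtain ⟨g, hg⟩ : ∃ g : ℝ → ℂ, g = fun s => c (-s) := ⟨_, rfl⟩
  rw [← hg]
  have Lg' : Loop g := by
    have := L.cont
    refine ⟨by rw [hg]; fun_prop, fun s => ?_⟩
    rw [hg]
    simp only
    rw [← L.per (-(s + 1))]
    congr 1; ring
  have Jg : Inj g := by
    intro x y h1 h2
    rw [hg]
    exact (J (-y) (-x) (by linarith) (by linarith)).symm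
  have hrg : range g = range c := by
    rw [hg]
    apply Subset.antisymm
    · rintro _ ⟨s, rfl⟩; exact ⟨-s, rfl⟩
    · rintro _ ⟨s, rfl⟩; exact ⟨-s, by simp⟩
  refine lc_of Lg' Jg (by rw [hrg]; exact nosq) (In := fun z => 0 < mgc c z)
    (fun x y u h => ?_) (fun x y u h => h.2) ?_
  · obtain ⟨n, hn, h⟩ := wc_of h.2
    rw [hg] at h ⊢
    exact ⟨-n, neg_ne_zero.2 hn, wc_rev L h⟩
  · rcases H (-t) with ⟨ρ, hρ, w, hw⟩ | h | h | ⟨ε, hε, h⟩ | h
    · refine Or.inl ⟨ρ, hρ, -w, fun x y h1 h2 h3 => ?_⟩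
      have := hw (-y) (-x) (by rw [← abs_neg, show -(-y - -t) = y - t by ring]; exact h2)
        (by rw [← abs_neg, show -(-x - -t) = x - t by ring]; exact h1) (by linarith)
      rw [hg]
      simp only
      rw [show -w * (c (-y) - c (-x)) = w * (c (-x) - c (-y)) by ring]
      exact this
    · have := rev_hour h
      rw [neg_neg] at this
      rw [hg]; exact Or.inr (Or.inl this)
    · have := h.rev
      rw [neg_neg, ← hg] at this
      exact Or.inr (Or.inr (Or.inl this))
    · refine Or.inr (Or.inr (Or.inr (Or.inl ⟨ε, hε, fun x y u h1 h2 h3 => ?_⟩)))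
      rw [hg]
      exact h (-x) (-y) (-u) (by rw [← abs_neg, show -(-x - -t) = x - t by ring]; exact h1)
        (by rw [← abs_neg, show -(-y - -t) = y - t by ring]; exact h2)
        (by rw [← abs_neg, show -(-u - -t) = u - t by ring]; exact h3)
    · have := h.rev
      rw [neg_neg, ← hg] at this
      exact Or.inr (Or.inr (Or.inr (Or.inr this)))

theorem square_out' (L : Loop c) (J : Inj c) {κ : ℂ} (hκ : κ = I ∨ κ = -I)
    (H : ∀ t, Mon c t ∨ Hourglass c t ∨ Tan c t ∨ NoP c (fun P Q V => V = P + κ * (Q - P) ∧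
      0 < mgc c (Q + κ * (Q - P))) t ∨ OutC c (fun z => 0 < mgc c z) t) :
    ∃ z w : ℂ, w ≠ 0 ∧ z ∈ range c ∧ z + w ∈ range c ∧ z + w + I * w ∈ range c ∧
      z + I * w ∈ range c := by
  rcases hκ with rfl | rfl
  · exact square_out L J H
  obtain ⟨g, hg⟩ : ∃ g : ℝ → ℂ, g = fun s => conj (c (-s)) := ⟨_, rfl⟩
  have Lg : Loop g := by
    have := L.cont
    refine ⟨by rw [hg]; exact continuous_conj.comp (this.comp continuous_neg), fun s => ?_⟩
    rw [hg]
    simp only
    rw [← L.per (-(s + 1))]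
    congr 2; ring
  have Jg : Inj g := by
    intro x y h1 h2 h
    rw [hg] at h
    have h' := (starRingEnd ℂ).injective h
    exact (J (-y) (-x) (by linarith) (by linarith)).symm h'
  have hmem : ∀ z, z ∈ range g → conj z ∈ range c := by
    rintro _ ⟨s, rfl⟩
    rw [hg]
    exact ⟨-s, by simp⟩
  have key : ∀ t, Mon g t ∨ Hourglass g t ∨ Tan g t ∨ NoP g (RI g) t ∨
      OutC g (fun z => 0 < mgc g z) t := by
    intro t
    rcases H (-t) with ⟨ρ, hρ, w, hw⟩ | h | h | ⟨ε, hε, h⟩ | h
    · refine Or.inl ⟨ρ, hρ, -conj w, fun x y h1 h2 h3 => ?_⟩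
      have := hw (-y) (-x) (by rw [← abs_neg, show -(-y - -t) = y - t by ring]; exact h2)
        (by rw [← abs_neg, show -(-x - -t) = x - t by ring]; exact h1) (by linarith)
      rw [hg]
      simp only
      rw [show -conj w * (conj (c (-y)) - conj (c (-x))) = conj (w * (c (-x) - c (-y))) by
        simp only [map_mul, map_sub]; ring, conj_re]
      exact this
    · have := conj_hour h
      rw [neg_neg] at this
      rw [hg]
      exact Or.inr (Or.inl this)
    · have := h.rev.conj
      rw [neg_neg, ← hg] at this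
      exact Or.inr (Or.inr (Or.inl this))
    · refine Or.inr (Or.inr (Or.inr (Or.inl ⟨ε, hε, fun x y u h1 h2 h3 hR => ?_⟩)))
      refine h (-x) (-y) (-u) (by rw [← abs_neg, show -(-x - -t) = x - t by ring]; exact h1)
        (by rw [← abs_neg, show -(-y - -t) = y - t by ring]; exact h2)
        (by rw [← abs_neg, show -(-u - -t) = u - t by ring]; exact h3) ?_
      obtain ⟨e1, e2⟩ := hR
      rw [hg] at e1 e2
      simp only at e1 e2
      constructor
      · have := congrArg conj e1
        simp only [map_add, map_mul, map_sub, conj_conj, conj_I] at this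
        exact this
      · rw [mgc_conj L] at e2
        simp only [map_add, map_mul, map_sub, conj_conj, conj_I] at e2
        exact e2
    · have := h.rev.conj
      rw [neg_neg] at this
      have e : (fun z => 0 < mgc c (conj z)) = fun z => 0 < mgc g z := by
        ext z
        rw [hg, mgc_conj L]
      rw [← e, hg]
      exact Or.inr (Or.inr (Or.inr (Or.inr this)))
  obtain ⟨z, w, hw, m1, m2, m3, m4⟩ := square_out Lg Jg key
  refine ⟨conj (z + I * w), conj w, by rw [ne_eq, map_eq_zero]; exact hw, hmem _ m4, ?_, ?_, ?_⟩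
  · have := hmem _ m3
    have e : conj (z + I * w) + conj w = conj (z + w + I * w) := by
      simp only [map_add, map_mul, conj_I]; ring
    rw [e]; exact this
  · have := hmem _ m2
    have e : conj (z + I * w) + conj w + I * conj w = conj (z + w) := by
      simp only [map_add, map_mul, conj_I]; ring
    rw [e]; exact this
  · have := hmem _ m1
    have e : conj (z + I * w) + I * conj w = conj z := by
      simp only [map_add, map_mul, conj_I]; ring
    rw [e]; exact this

end Pool.Agent.Run7.h564
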