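import Pool.Agent.Run7.h564.CapS
import Pool.Agent.Run7.h564.Fin

/-! Assembly of the theorem on caps. -/

set_option autoImplicit false
open Complex Set Topology Metric Filter
open scoped ComplexConjugate

namespace Pool.Agent.Run7.h564

open Pool.Agent.H763R2 Pool.Agent.H763R2.An
open Pool.Agent.H763R2.Dm (NoSq)
open Pool.Agent.Y765.Sq (Ann exists_int exists_rep TriM tri_fam)
open Pool.Agent.N335.Hg

variable {c : ℝ → ℂ}

/-- the local conditions at the points treated in `N335/Hg` and at caps -/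
theorem lc_ofC (L : Loop c) (J : Inj c) (nosq : NoSq (range c)) {Rp : ℂ → ℂ → ℂ → Prop}
    {In : ℂ → Prop}
    (hR : ∀ x y u, Rp (c x) (c y) (c u) → ∃ n : ℤ, n ≠ 0 ∧ IsWc c (c y + I * (c y - c x)) n)
    (hI : ∀ x y u, Rp (c x) (c y) (c u) → In (c y + I * (c y - c x))) {t : ℝ}
    (H : Mon c t ∨ Hourglass c t ∨ Tan c t ∨ NoP c Rp t ∨ Cap c In t) : Lc c Rp t := by
  intro θ D
  rcases H with h | h | h | h | h
  · exact ⟨mon_S L J nosq D h, mon_L L J nosq D hR h⟩
  · exact ⟨hour_S L J h, hour_L L J h⟩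
  · rcases hour_or_crn L J h with h | h
    · exact ⟨hour_S L J h, hour_L L J h⟩
    · exact ⟨crn_S L J nosq D h, crn_L L J nosq hR h⟩
  · exact ⟨nop_S h, nop_L L h⟩
  · obtain ⟨α, β, σ, d, w, K⟩ := h
    exact ⟨cap_S L J nosq D hI K, cap_L L J nosq hR hI K⟩

theorem square_cap (L : Loop c) (J : Inj c)
    (H : ∀ t, Mon c t ∨ Hourglass c t ∨ Tan c t ∨ NoP c (RI c) t ∨
      Cap c (fun z => 0 < mgc c z) t) :
    ∃ z w : ℂ, w ≠ 0 ∧ z ∈ range c ∧ z + w ∈ range c ∧ z + w + I * w ∈ range c ∧
      z + I * w ∈ range c := by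
  by_contra nosq
  refine two_types L J nosq (fun t => lc_ofC L J nosq (fun x y u h => wc_of h.2)
    (fun x y u h => h.2) (H t)) fun t => ?_
  obtain ⟨g, hg⟩ : ∃ g : ℝ → ℂ, g = fun s => c (-s) := ⟨_, rfl⟩
  rw [← hg]
  have Lg' : Loop g := by
    have := L.cont
    refine ⟨by rw [hg]; fun_prop, fun s => ?_⟩
    rw [hg]
    simp only
    rw [← L.per (-(s + 1))]
    congr 1; ring
  have Jg : Inj g := by
    intro x y h1 h2
    rw [hg]
    exact (J (-y) (-x) (by linarith) (by linarith)).symm
  have hrg : range g = range c := by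
    rw [hg]
    apply Subset.antisymm
    · rintro _ ⟨s, rfl⟩; exact ⟨-s, rfl⟩
    · rintro _ ⟨s, rfl⟩; exact ⟨-s, by simp⟩
  refine lc_ofC Lg' Jg (by rw [hrg]; exact nosq) (In := fun z => 0 < mgc c z)
    (fun x y u h => ?_) (fun x y u h => h.2) ?_
  · obtain ⟨n, hn, h⟩ := wc_of h.2
    rw [hg] at h ⊢
    exact ⟨-n, neg_ne_zero.2 hn, wc_rev L h⟩
  · rcases H (-t) with ⟨ρ, hρ, w, hw⟩ | h | h | ⟨ε, hε, h⟩ | h
    · refine Or.inl ⟨ρ, hρ, -w, fun x y h1 h2 h3 => ?_⟩
      have := hw (-y) (-x) (by rw [← abs_neg, show -(-y - -t) = y - t by ring]; exact h2)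
        (by rw [← abs_neg, show -(-x - -t) = x - t by ring]; exact h1) (by linarith)
      rw [hg]
      simp only
      rw [show -w * (c (-y) - c (-x)) = w * (c (-x) - c (-y)) by ring]
      exact this
    · have := rev_hour h
      rw [neg_neg] at this
      rw [hg]; exact Or.inr (Or.inl this)
    · have := h.rev
      rw [neg_neg, ← hg] at this
      exact Or.inr (Or.inr (Or.inl this))
    · refine Or.inr (Or.inr (Or.inr (Or.inl ⟨ε, hε, fun x y u h1 h2 h3 => ?_⟩)))
      rw [hg]
      exact h (-x) (-y) (-u) (by rw [← abs_neg, show -(-x - -t) = x - t by ring]; exact h1)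
        (by rw [← abs_neg, show -(-y - -t) = y - t by ring]; exact h2)
        (by rw [← abs_neg, show -(-u - -t) = u - t by ring]; exact h3)
    · have := h.rev
      rw [neg_neg, ← hg] at this
      exact Or.inr (Or.inr (Or.inr (Or.inr this)))

theorem square_cap' (L : Loop c) (J : Inj c) {κ : ℂ} (hκ : κ = I ∨ κ = -I)
    (H : ∀ t, Mon c t ∨ Hourglass c t ∨ Tan c t ∨ NoP c (fun P Q V => V = P + κ * (Q - P) ∧
      0 < mgc c (Q + κ * (Q - P))) t ∨ Cap c (fun z => 0 < mgc c z) t) :
    ∃ z w : ℂ, w ≠ 0 ∧ z ∈ range c ∧ z + w ∈ range c ∧ z + w + I * w ∈ range c ∧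
      z + I * w ∈ range c := by
  rcases hκ with rfl | rfl
  · exact square_cap L J H
  obtain ⟨g, hg⟩ : ∃ g : ℝ → ℂ, g = fun s => conj (c (-s)) := ⟨_, rfl⟩
  have Lg : Loop g := by
    have := L.cont
    refine ⟨by rw [hg]; exact continuous_conj.comp (this.comp continuous_neg), fun s => ?_⟩
    rw [hg]
    simp only
    rw [← L.per (-(s + 1))]
    congr 2; ring
  have Jg : Inj g := by
    intro x y h1 h2 h
    rw [hg] at h
    have h' := (starRingEnd ℂ).injective h
    exact (J (-y) (-x) (by linarith) (by linarith)).symm h'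
  have hmem : ∀ z, z ∈ range g → conj z ∈ range c := by
    rintro _ ⟨s, rfl⟩
    rw [hg]
    exact ⟨-s, by simp⟩
  have key : ∀ t, Mon g t ∨ Hourglass g t ∨ Tan g t ∨ NoP g (RI g) t ∨
      Cap g (fun z => 0 < mgc g z) t := by
    intro t
    rcases H (-t) with ⟨ρ, hρ, w, hw⟩ | h | h | ⟨ε, hε, h⟩ | h
    · refine Or.inl ⟨ρ, hρ, -conj w, fun x y h1 h2 h3 => ?_⟩
      have := hw (-y) (-x) (by rw [← abs_neg, show -(-y - -t) = y - t by ring]; exact h2)
        (by rw [← abs_neg, show -(-x - -t) = x - t by ring]; exact h1) (by linarith)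
      rw [hg]
      simp only
      rw [show -conj w * (conj (c (-y)) - conj (c (-x))) = conj (w * (c (-x) - c (-y))) by
        simp only [map_mul, map_sub]; ring, conj_re]
      exact this
    · have := conj_hour h
      rw [neg_neg] at this
      rw [hg]
      exact Or.inr (Or.inl this)
    · have := h.rev.conj
      rw [neg_neg, ← hg] at this
      exact Or.inr (Or.inr (Or.inl this))
    · refine Or.inr (Or.inr (Or.inr (Or.inl ⟨ε, hε, fun x y u h1 h2 h3 hR => ?_⟩)))
      refine h (-x) (-y) (-u) (by rw [← abs_neg, show -(-x - -t) = x - t by ring]; exact h1)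
        (by rw [← abs_neg, show -(-y - -t) = y - t by ring]; exact h2)
        (by rw [← abs_neg, show -(-u - -t) = u - t by ring]; exact h3) ?_
      obtain ⟨e1, e2⟩ := hR
      rw [hg] at e1 e2
      simp only at e1 e2
      constructor
      · have := congrArg conj e1
        simp only [map_add, map_mul, map_sub, conj_conj, conj_I] at this
        exact this
      · rw [mgc_conj L] at e2
        simp only [map_add, map_mul, map_sub, conj_conj, conj_I] at e2
        exact e2
    · have := h.rev.conj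
      rw [neg_neg] at this
      have e : (fun z => 0 < mgc c (conj z)) = fun z => 0 < mgc g z := by
        ext z
        rw [hg, mgc_conj L]
      rw [← e, hg]
      exact Or.inr (Or.inr (Or.inr (Or.inr this)))
  obtain ⟨z, w, hw, m1, m2, m3, m4⟩ := square_cap Lg Jg key
  refine ⟨conj (z + I * w), conj w, by rw [ne_eq, map_eq_zero]; exact hw, hmem _ m4, ?_, ?_, ?_⟩
  · have := hmem _ m3
    have e : conj (z + I * w) + conj w = conj (z + w + I * w) := by
      simp only [map_add, map_mul, conj_I]; ring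
    rw [e]; exact this
  · have := hmem _ m2
    have e : conj (z + I * w) + conj w + I * conj w = conj (z + w) := by
      simp only [map_add, map_mul, conj_I]; ring
    rw [e]; exact this
  · have := hmem _ m1
    have e : conj (z + I * w) + I * conj w = conj z := by
      simp only [map_add, map_mul, conj_I]; ring
    rw [e]; exact this

end Pool.Agent.Run7.h564
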