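import Pool.Agent.Run7.h564.Lab4
import Pool.Agent.Run7.h564.Enum2

/-! Folds: both branches are graphs over an interval to the right of the point. -/

set_option autoImplicit false
open Complex Set Topology Metric Filter
open scoped ComplexConjugate

namespace Pool.Agent.Run7.h564

open Pool.Agent.H763R2 Pool.Agent.H763R2.An
open Pool.Agent.H763R2.Dm (NoSq)
open Pool.Agent.Y765.Sq (Ann exists_int exists_rep TriM tri_fam)
open Pool.Agent.N335.Hg

variable {c : ℝ → ℂ} {θ : ℝ → ℝ → ℝ} {Rp : ℂ → ℂ → ℂ → Prop}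

theorem mv_slf (c : ℝ → ℂ) (w : ℂ) (t : ℝ) : mv c w t t = 0 := by
  unfold mv; rw [sub_self, mul_zero]

/-- a fold -/
structure Fold (c : ℝ → ℂ) (w : ℂ) (t r : ℝ) : Prop where
  w0 : w ≠ 0
  r0 : 0 < r
  r1 : r < 1 / 4
  anti : ∀ s s', t - r ≤ s → s < s' → s' ≤ t → (mv c w t s').re < (mv c w t s).re
  mono : ∀ s s', t ≤ s → s < s' → s' ≤ t + r → (mv c w t s).re < (mv c w t s').re

/-- the turn to the right -/
def TurnR (c : ℝ → ℂ) (w : ℂ) (t r : ℝ) : Prop :=
  ∀ s s', t - r ≤ s → s ≤ t → t ≤ s' → s' ≤ t + r → s < s' →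
    (mv c w t s).re = (mv c w t s').re → (mv c w t s).im < (mv c w t s').im

/-- the turn to the left -/
def TurnL (c : ℝ → ℂ) (w : ℂ) (t r : ℝ) : Prop :=
  ∀ s s', t - r ≤ s → s ≤ t → t ≤ s' → s' ≤ t + r → s < s' →
    (mv c w t s).re = (mv c w t s').re → (mv c w t s').im < (mv c w t s).im

section

variable {w : ℂ} {t r : ℝ}

theorem Fold.rein (P : Fold c w t r) {s s' : ℝ} (h1 : t - r ≤ s) (h : s ≤ s')
    (h2 : s' ≤ t) : (mv c w t s').re ≤ (mv c w t s).re := by
  rcases eq_or_lt_of_le h with h | h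
  · rw [h]
  · exact (P.anti s s' h1 h h2).le

theorem Fold.reout (P : Fold c w t r) {s s' : ℝ} (h1 : t ≤ s) (h : s ≤ s')
    (h2 : s' ≤ t + r) : (mv c w t s).re ≤ (mv c w t s').re := by
  rcases eq_or_lt_of_le h with h | h
  · rw [h]
  · exact (P.mono s s' h1 h h2).le

theorem Fold.pos (P : Fold c w t r) {s : ℝ} (h1 : t - r ≤ s) (h2 : s ≤ t + r) :
    0 ≤ (mv c w t s).re := by
  have h := mv_slf c w t
  rcases le_total s t with g | g
  · have := P.rein h1 g le_rfl
    rwa [h, zero_re] at this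
  · have := P.reout le_rfl g h2
    rwa [h, zero_re] at this

theorem Fold.pos' (P : Fold c w t r) {s : ℝ} (h1 : t - r ≤ s) (h2 : s ≤ t + r) (h : s ≠ t) :
    0 < (mv c w t s).re := by
  have h0 := mv_slf c w t
  rcases lt_or_gt_of_ne h with g | g
  · have := P.anti s t h1 g le_rfl
    rwa [h0, zero_re] at this
  · have := P.mono t s le_rfl g h2
    rwa [h0, zero_re] at this

theorem Fold.shrink (P : Fold c w t r) {r' : ℝ} (h0 : 0 < r') (h : r' ≤ r) : Fold c w t r' :=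
  ⟨P.w0, h0, by linarith [P.r1], fun s s' a b d => P.anti s s' (by linarith) b d,
    fun s s' a b d => P.mono s s' a b (by linarith)⟩

theorem Fold.mv_eq (J : Inj c) (P : Fold c w t r) {s s' : ℝ} (h1 : s < s') (h2 : s' < s + 1)
    (h : mv c w t s = mv c w t s') : False := by
  unfold mv at h
  have := mul_left_cancel₀ P.w0 h
  exact J s s' h1 h2 (sub_left_inj.1 this)

/-- the turn is to one side -/
theorem Fold.turn (L : Loop c) (J : Inj c) (P : Fold c w t r) :
    TurnR c w t r ∨ TurnL c w t r := by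
  by_contra hcon
  push Not at hcon
  obtain ⟨h1, h2⟩ := hcon
  unfold TurnR at h1
  unfold TurnL at h2
  push Not at h1 h2
  obtain ⟨s1, y1, a1, a2, a3, a4, a5, a6, a7⟩ := h1
  obtain ⟨s2, y2, b1, b2, b3, b4, b5, b6, b7⟩ := h2
  have r0 := P.r0
  have r1 := P.r1
  have cz : Continuous (mv c w t) := (mv_loop L w t).cont
  have cr : Continuous fun s => (mv c w t s).re := continuous_re.comp cz
  have ci : Continuous fun s => (mv c w t s).im := continuous_im.comp cz
  have lt1 : s1 < t := by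
    refine lt_of_le_of_ne a2 fun h => ?_
    have := P.pos' (s := y1) (by linarith) a4 (by rintro rfl; linarith)
    rw [← a6, h, mv_slf, zero_re] at this
    exact lt_irrefl _ this
  have lt2 : s2 < t := by
    refine lt_of_le_of_ne b2 fun h => ?_
    have := P.pos' (s := y2) (by linarith) b4 (by rintro rfl; linarith)
    rw [← b6, h, mv_slf, zero_re] at this
    exact lt_irrefl _ this
  obtain ⟨lo, hlo⟩ : ∃ lo, lo = min s1 s2 := ⟨_, rfl⟩
  obtain ⟨hi, hhi⟩ : ∃ hi, hi = max s1 s2 := ⟨_, rfl⟩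
  have lo1 : t - r ≤ lo := by rw [hlo]; exact le_min a1 b1
  have hi1 : hi < t := by rw [hhi]; exact max_lt lt1 lt2
  have m1 : s1 ∈ Icc lo hi := ⟨by rw [hlo]; exact min_le_left _ _, by
    rw [hhi]; exact le_max_left _ _⟩
  have m2 : s2 ∈ Icc lo hi := ⟨by rw [hlo]; exact min_le_right _ _, by
    rw [hhi]; exact le_max_right _ _⟩
  obtain ⟨A, hA⟩ : ∃ A : Set ℝ, A = Prod.fst '' {p : ℝ × ℝ | p.1 ∈ Icc lo hi ∧
    p.2 ∈ Icc t (t + r) ∧ (mv c w t p.1).re = (mv c w t p.2).re ∧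
    (mv c w t p.2).im ≤ (mv c w t p.1).im} := ⟨_, rfl⟩
  obtain ⟨B, hB⟩ : ∃ B : Set ℝ, B = Prod.fst '' {p : ℝ × ℝ | p.1 ∈ Icc lo hi ∧
    p.2 ∈ Icc t (t + r) ∧ (mv c w t p.1).re = (mv c w t p.2).re ∧
    (mv c w t p.1).im ≤ (mv c w t p.2).im} := ⟨_, rfl⟩
  have cl : ∀ q : ℝ × ℝ → Prop, IsClosed {p | q p} →
      IsClosed (Prod.fst '' {p : ℝ × ℝ | p.1 ∈ Icc lo hi ∧
      p.2 ∈ Icc t (t + r) ∧ (mv c w t p.1).re = (mv c w t p.2).re ∧ q p}) := by
    intro q hq
    have hK : IsCompact (Icc lo hi ×ˢ Icc t (t + r)) := isCompact_Icc.prod isCompact_Icc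
    have k1 : IsClosed {p : ℝ × ℝ | (mv c w t p.1).re = (mv c w t p.2).re} :=
      isClosed_eq (cr.comp continuous_fst) (cr.comp continuous_snd)
    have hK2 := hK.inter_right (k1.inter hq)
    have e : {p : ℝ × ℝ | p.1 ∈ Icc lo hi ∧ p.2 ∈ Icc t (t + r) ∧
        (mv c w t p.1).re = (mv c w t p.2).re ∧ q p} = (Icc lo hi ×ˢ Icc t (t + r)) ∩
        ({p : ℝ × ℝ | (mv c w t p.1).re = (mv c w t p.2).re} ∩ {p | q p}) := by
      ext p
      simp only [mem_ofPred_eq, mem_inter_iff, mem_prod]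
      tauto
    rw [e]
    exact (hK2.image continuous_fst).isClosed
  have cA : IsClosed A := by
    rw [hA]
    exact cl _ (isClosed_le (ci.comp continuous_snd) (ci.comp continuous_fst))
  have cB : IsClosed B := by
    rw [hB]
    exact cl _ (isClosed_le (ci.comp continuous_fst) (ci.comp continuous_snd))
  have cov : Icc lo hi ⊆ A ∪ B := by
    intro s hs
    -- the parameter on the other branch
    obtain ⟨y, hy, e⟩ : ∃ y ∈ Icc t (t + r), (mv c w t y).re = (mv c w t s).re := by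
      have hr1 : (mv c w t s).re ≤ max (mv c w t y1).re (mv c w t y2).re := by
        have := P.rein lo1 hs.1 (by linarith [hs.2])
        refine this.trans ?_
        rw [hlo]
        rcases le_total s1 s2 with g | g
        · rw [min_eq_left g, a6]; exact le_max_left _ _
        · rw [min_eq_right g, b6]; exact le_max_right _ _
      obtain ⟨Y, hY, hY1, hY2⟩ : ∃ Y, (mv c w t s).re ≤ (mv c w t Y).re ∧ t ≤ Y ∧ Y ≤ t + r := by
        rcases le_total (mv c w t y1).re (mv c w t y2).re with g | g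
        · rw [max_eq_right g] at hr1; exact ⟨y2, hr1, b3, b4⟩
        · rw [max_eq_left g] at hr1; exact ⟨y1, hr1, a3, a4⟩
      obtain ⟨y, hy, e⟩ := intermediate_value_Icc hY1 cr.continuousOn
        (show (mv c w t s).re ∈ Icc (mv c w t t).re (mv c w t Y).re from ⟨by
          rw [mv_slf, zero_re]; exact P.pos (by linarith [hs.1]) (by linarith [hs.2]), hY⟩)
      exact ⟨y, ⟨hy.1, hy.2.trans hY2⟩, e⟩
    rcases le_total (mv c w t y).im (mv c w t s).im with g | g
    · left; rw [hA]; exact ⟨(s, y), ⟨hs, hy, e.symm, g⟩, rfl⟩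
    · right; rw [hB]; exact ⟨(s, y), ⟨hs, hy, e.symm, g⟩, rfl⟩
  obtain ⟨s, hs, hsA, hsB⟩ := isPreconnected_closed_iff.1 (isPreconnected_Icc (a := lo) (b := hi))
    A B cA cB cov ⟨s1, m1, by rw [hA]; exact ⟨(s1, y1), ⟨m1, ⟨a3, a4⟩, a6, a7⟩, rfl⟩⟩
    ⟨s2, m2, by rw [hB]; exact ⟨(s2, y2), ⟨m2, ⟨b3, b4⟩, b6, b7⟩, rfl⟩⟩
  rw [hA] at hsA
  rw [hB] at hsB
  obtain ⟨⟨p, y⟩, ⟨-, hy, e1, e2⟩, hp⟩ := hsA
  obtain ⟨⟨p', y'⟩, ⟨-, hy', e1', e2'⟩, hp'⟩ := hsB
  simp only at hp hp' hy hy' e1 e2 e1' e2'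
  subst hp
  subst hp'
  have ey : y = y' := by
    rcases lt_trichotomy y y' with g | g | g
    · have := P.mono y y' hy.1 g hy'.2; linarith
    · exact g
    · have := P.mono y' y hy'.1 g hy.2; linarith
  subst ey
  exact P.mv_eq J (s := p') (s' := y) (by linarith [hs.2, hy.1]) (by linarith [hs.1, hy.2])
    (Complex.ext e1 (le_antisymm e2' e2))

end

end Pool.Agent.Run7.h564
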