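import Pool.Agent.Run7.h564.Loc2

/-! The local statements at inward folds. -/

set_option autoImplicit false
open Complex Set Topology Metric Filter
open scoped ComplexConjugate

namespace Pool.Agent.Run7.h564

open Pool.Agent.H763R2 Pool.Agent.H763R2.An
open Pool.Agent.H763R2.Dm (NoSq)
open Pool.Agent.Y765.Sq (Ann exists_int exists_rep TriM tri_fam)
open Pool.Agent.N335.Hg

variable {c : ℝ → ℂ} {θ : ℝ → ℝ → ℝ} {Rp : ℂ → ℂ → ℂ → Prop} {In : ℂ → Prop}

/-- the two branches are graphs of `f` and `g` -/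
structure FG (c : ℝ → ℂ) (t ρ : ℝ) (w : ℂ) (f g : ℝ → ℝ) : Prop where
  w0 : w ≠ 0
  ρ0 : 0 < ρ
  anti : ∀ s s', t - ρ ≤ s → s < s' → s' ≤ t → (w * (c s' - c t)).re < (w * (c s - c t)).re
  mono : ∀ s s', t ≤ s → s < s' → s' ≤ t + ρ → (w * (c s - c t)).re < (w * (c s' - c t)).re
  hin : ∀ s, t - ρ ≤ s → s ≤ t → (w * (c s - c t)).im = f (w * (c s - c t)).re
  hout : ∀ s, t ≤ s → s ≤ t + ρ → (w * (c s - c t)).im = g (w * (c s - c t)).re

/-- inward fold -/
def InF (c : ℝ → ℂ) (In : ℂ → Prop) (t : ℝ) : Prop :=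
  ∃ (ρ : ℝ) (w : ℂ) (f g : ℝ → ℝ), FG c t ρ w f g ∧
    ∀ z, ‖z - c t‖ < ρ → In z → 0 < (w * (z - c t)).re →
      0 < (f (w * (z - c t)).re - (w * (z - c t)).im) * (g (w * (z - c t)).re - (w * (z - c t)).im)

theorem FG.rev {t ρ : ℝ} {w : ℂ} {f g : ℝ → ℝ} (h : FG c t ρ w f g) :
    FG (fun s => c (-s)) (-t) ρ w g f := by
  refine ⟨h.w0, h.ρ0, ?_, ?_, ?_, ?_⟩
  · intro s s' a b d
    simp only [neg_neg]
    exact h.mono _ _ (by linarith) (by linarith) (by linarith)
  · intro s s' a b d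
    simp only [neg_neg]
    exact h.anti _ _ (by linarith) (by linarith) (by linarith)
  · intro s a b
    simp only [neg_neg]
    exact h.hout _ (by linarith) (by linarith)
  · intro s a b
    simp only [neg_neg]
    exact h.hin _ (by linarith) (by linarith)

theorem FG.conj {t ρ : ℝ} {w : ℂ} {f g : ℝ → ℝ} (h : FG c t ρ w f g) :
    FG (fun s => conj (c s)) t ρ (conj w) (fun x => -f x) (fun x => -g x) := by
  have e : ∀ s, conj w * (conj (c s) - conj (c t)) = conj (w * (c s - c t)) := fun s => by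
    rw [map_mul, map_sub]
  refine ⟨by rw [ne_eq, map_eq_zero]; exact h.w0, h.ρ0, ?_, ?_, ?_, ?_⟩
  · intro s s' a b d
    simp only [e, conj_re]
    exact h.anti _ _ a b d
  · intro s s' a b d
    simp only [e, conj_re]
    exact h.mono _ _ a b d
  · intro s a b
    simp only [e, conj_re, conj_im]
    rw [h.hin _ a b]
  · intro s a b
    simp only [e, conj_re, conj_im]
    rw [h.hout _ a b]

theorem InF.rev {t : ℝ} (h : InF c In t) : InF (fun s => c (-s)) In (-t) := by
  obtain ⟨ρ, w, f, g, h1, h2⟩ := h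
  refine ⟨ρ, w, g, f, h1.rev, ?_⟩
  intro z hz hi hp
  simp only [neg_neg] at hz hp ⊢
  rw [mul_comm]
  exact h2 z hz hi hp

theorem InF.conj {t : ℝ} (h : InF c In t) :
    InF (fun s => conj (c s)) (fun z => In (conj z)) t := by
  obtain ⟨ρ, w, f, g, h1, h2⟩ := h
  refine ⟨ρ, conj w, _, _, h1.conj, ?_⟩
  intro z hz hi hp
  have e2 : conj w * (z - conj (c t)) = conj (w * (conj z - c t)) := by
    rw [map_mul, map_sub, conj_conj]
  have hz' : ‖conj z - c t‖ < ρ := by
    have : conj z - c t = conj (z - conj (c t)) := by rw [map_sub, conj_conj]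
    rw [this, RCLike.norm_conj]; exact hz
  simp only [e2, conj_re, conj_im] at hp ⊢
  have := h2 _ hz' hi hp
  linarith

theorem FG.fold {t ρ : ℝ} {w : ℂ} {f g : ℝ → ℝ} (h : FG c t ρ w f g) {r : ℝ} (h0 : 0 < r)
    (h1 : r < 1 / 4) (h2 : r ≤ ρ) : Fold c w t r :=
  ⟨h.w0, h0, h1, fun s s' a b d => h.anti s s' (by linarith) b d,
    fun s s' a b d => h.mono s s' a b (by linarith)⟩

/-- the ray condition for points that are not between the branches -/
theorem ray_of {t ρ r : ℝ} {w : ℂ} {f g : ℝ → ℝ} (h : FG c t ρ w f g) (P : Fold c w t r)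
    (h2 : r ≤ ρ) {E : ℂ} (hE : E ∉ range c)
    (hE2 : 0 < (w * (E - c t)).re →
      0 < (f (w * (E - c t)).re - (w * (E - c t)).im) *
        (g (w * (E - c t)).re - (w * (E - c t)).im)) :
    ∃ (κ : ℂ) (α : ℝ), exp (α * I) * κ = 1 ∧ (α = Real.pi / 2 ∨ α = -(Real.pi / 2)) ∧
      ∀ s, t - r ≤ s → s ≤ t + r → κ * (w * (c s - E)) ∈ slitPlane := by
  obtain ⟨V, hV⟩ : ∃ V, V = w * (E - c t) := ⟨_, rfl⟩
  rw [← hV] at hE2
  have e : ∀ s, w * (c s - E) = mv c w t s - V := fun s => by rw [hV]; unfold mv; ring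
  have r0 := P.r0
  have br : ∀ s, t - r ≤ s → s ≤ t + r → (mv c w t s).im = f (mv c w t s).re ∨
      (mv c w t s).im = g (mv c w t s).re := by
    intro s h3 h4
    rcases le_total s t with g1 | g1
    · left; exact h.hin s (by linarith) g1
    · right; exact h.hout s g1 (by linarith)
  rcases lt_trichotomy V.re 0 with h0 | h0 | h0
  · refine ⟨-I, Real.pi / 2, kdn, Or.inl rfl, fun s h3 h4 => ?_⟩
    rw [e]
    apply slit_dn
    left
    have := P.pos h3 h4
    rw [sub_re]
    intro h5; linarith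
  · have hV0 : V ≠ 0 := by
      rw [hV]
      refine mul_ne_zero P.w0 (sub_ne_zero.2 fun h5 => hE ?_)
      rw [h5]; exact mem_range_self _
    have hVi : V.im ≠ 0 := fun h5 => hV0 (Complex.ext h0 h5)
    rcases lt_or_gt_of_ne hVi with h6 | h6
    · refine ⟨-I, Real.pi / 2, kdn, Or.inl rfl, fun s h3 h4 => ?_⟩
      rw [e]
      apply slit_dn
      by_cases hst : s = t
      · right
        rw [hst, mv_slf, sub_im, zero_im]
        linarith
      · left
        have := P.pos' h3 h4 hst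
        rw [sub_re]
        intro h5; linarith
    · refine ⟨I, -(Real.pi / 2), kup, Or.inr rfl, fun s h3 h4 => ?_⟩
      rw [e]
      apply slit_up
      by_cases hst : s = t
      · right
        rw [hst, mv_slf, sub_im, zero_im]
        linarith
      · left
        have := P.pos' h3 h4 hst
        rw [sub_re]
        intro h5; linarith
  · have h5 := hE2 h0
    rcases pos_and_pos_or_neg_and_neg_of_mul_pos h5 with ⟨a, b⟩ | ⟨a, b⟩
    · refine ⟨-I, Real.pi / 2, kdn, Or.inl rfl, fun s h3 h4 => ?_⟩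
      rw [e]
      apply slit_dn
      by_cases h6 : (mv c w t s).re = V.re
      · right
        rw [sub_im]
        rcases br s h3 h4 with h7 | h7 <;> rw [h7, h6] <;> linarith
      · left
        rw [sub_re]
        intro h7; exact h6 (by linarith)
    · refine ⟨I, -(Real.pi / 2), kup, Or.inr rfl, fun s h3 h4 => ?_⟩
      rw [e]
      apply slit_up
      by_cases h6 : (mv c w t s).re = V.re
      · right
        rw [sub_im]
        rcases br s h3 h4 with h7 | h7 <;> rw [h7, h6] <;> linarith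
      · left
        rw [sub_re]
        intro h7; exact h6 (by linarith)

/-- a small window -/
theorem FG.small (L : Loop c) (J : Inj c) {t ρ : ℝ} {w : ℂ} {f g : ℝ → ℝ} (h : FG c t ρ w f g) :
    ∃ r r', Fold c w t r ∧ r ≤ ρ ∧ 0 < r' ∧ r' ≤ r ∧ ∀ x y, t - r' ≤ x → x ≤ t + r' →
      t - r' ≤ y → y ≤ t + r' → ∀ E, E = c y + I * (c y - c x) → ‖E - c t‖ < ρ ∧
      (∀ s, t + r ≤ s → s ≤ t + 1 - r → ‖E - c t‖ < ‖c s - c t‖) ∧
      0 < (w * (c (t - r) - E)).re ∧ 0 < (w * (c (t + r) - E)).re := by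
  obtain ⟨r, hr⟩ : ∃ r, r = min ρ (1 / 5) := ⟨_, rfl⟩
  have ρ0 := h.ρ0
  have r0 : 0 < r := by rw [hr]; exact lt_min ρ0 (by norm_num)
  have r1 : r ≤ 1 / 5 := by rw [hr]; exact min_le_right _ _
  have r2 : r ≤ ρ := by rw [hr]; exact min_le_left _ _
  have P := h.fold r0 (by linarith) r2
  have nw : 0 < ‖w‖ := norm_pos_iff.2 h.w0
  obtain ⟨d, hd, hfar⟩ := far_pos L J (t := t) r0
  have p1 := P.pos' (s := t - r) le_rfl (by linarith) (by linarith)
  have p2 := P.pos' (s := t + r) (by linarith) le_rfl (by linarith)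
  obtain ⟨η, hη⟩ : ∃ η, η = min (min ρ d) (min ((mv c w t (t - r)).re / ‖w‖)
    ((mv c w t (t + r)).re / ‖w‖)) := ⟨_, rfl⟩
  have η0 : 0 < η := by
    rw [hη]
    exact lt_min (lt_min ρ0 hd) (lt_min (div_pos p1 nw) (div_pos p2 nw))
  have a1 : η ≤ ρ := by rw [hη]; exact (min_le_left _ _).trans (min_le_left _ _)
  have a2 : η ≤ d := by rw [hη]; exact (min_le_left _ _).trans (min_le_right _ _)
  have a3 : η ≤ (mv c w t (t - r)).re / ‖w‖ := by
    rw [hη]; exact (min_le_right _ _).trans (min_le_left _ _)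
  have a4 : η ≤ (mv c w t (t + r)).re / ‖w‖ := by
    rw [hη]; exact (min_le_right _ _).trans (min_le_right _ _)
  rw [le_div_iff₀ nw] at a3 a4
  have hev : ∀ᶠ s in 𝓝 t, ‖c s - c t‖ < η / 3 := by
    have h1 : Tendsto (fun s => ‖c s - c t‖) (𝓝 t) (𝓝 ‖c t - c t‖) :=
      (L.cont.sub continuous_const).norm.tendsto t
    rw [sub_self, norm_zero] at h1
    exact h1.eventually (gt_mem_nhds (by positivity))
  obtain ⟨q, q0, hq⟩ := Metric.eventually_nhds_iff.1 hev
  obtain ⟨r', hr'⟩ : ∃ r', r' = min (q / 2) r := ⟨_, rfl⟩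
  have s0 : 0 < r' := by rw [hr']; exact lt_min (by linarith) r0
  have s1 : r' ≤ q / 2 := by rw [hr']; exact min_le_left _ _
  have s2 : r' ≤ r := by rw [hr']; exact min_le_right _ _
  refine ⟨r, r', P, r2, s0, s2, fun x y x1 x2 y1 y2 E hE => ?_⟩
  have nx : ‖c x - c t‖ < η / 3 := hq (by rw [Real.dist_eq, abs_lt]; constructor <;> linarith)
  have ny : ‖c y - c t‖ < η / 3 := hq (by rw [Real.dist_eq, abs_lt]; constructor <;> linarith)
  have nE : ‖E - c t‖ < η := by
    have e5 : E - c t = (c y - c t) + I * ((c y - c t) - (c x - c t)) := by rw [hE]; ring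
    have n1 := norm_add_le (c y - c t) (I * ((c y - c t) - (c x - c t)))
    have n2 := norm_sub_le (c y - c t) (c x - c t)
    rw [norm_mul, norm_I, one_mul] at n1
    rw [e5]
    linarith
  have re : (w * (E - c t)).re < ‖w‖ * η := by
    have := re_le_norm (w * (E - c t))
    rw [norm_mul] at this
    exact this.trans_lt (mul_lt_mul_of_pos_left nE nw)
  have e6 : ∀ s, w * (c s - E) = mv c w t s - w * (E - c t) := fun s => by unfold mv; ring
  refine ⟨by linarith, fun s s3 s4 => ?_, ?_, ?_⟩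
  · have := hfar s s3 (by linarith)
    linarith
  · rw [e6, sub_re]; linarith
  · rw [e6, sub_re]; linarith

/-- the fourth vertices near an inward fold -/
theorem InF.gd (L : Loop c) (J : Inj c) {t : ℝ} (h : InF c In t) :
    ∃ w r r', Fold c w t r ∧ 0 < r' ∧ r' ≤ r ∧ ∀ x y, t - r' ≤ x → x ≤ t + r' →
      t - r' ≤ y → y ≤ t + r' → c y + I * (c y - c x) ∉ range c → In (c y + I * (c y - c x)) →
        Gd c w t r (c y + I * (c y - c x)) := by
  obtain ⟨ρ, w, f, g, h1, h2⟩ := h
  obtain ⟨r, r', P, r2, s0, s2, hs⟩ := h1.small L J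
  refine ⟨w, r, r', P, s0, s2, fun x y x1 x2 y1 y2 hE hI => ?_⟩
  obtain ⟨k1, k2, k3, k4⟩ := hs x y x1 x2 y1 y2 _ rfl
  exact ⟨ray_of h1 P r2 hE fun h0 => h2 _ k1 hI h0, k2, k3, k4⟩

theorem inn_SL (L : Loop c) (J : Inj c) (nosq : NoSq (range c)) (D : Dirn c θ) {e : ℤ}
    (hκ : Kap θ e)
    (hR : ∀ x y u, Rp (c x) (c y) (c u) → ∃ n : ℤ, Odd n ∧ IsWc c (c y + I * (c y - c x)) n)
    (hI : ∀ x y u, Rp (c x) (c y) (c u) → In (c y + I * (c y - c x))) {t : ℝ}
    (h : InF c In t) :
    ShortC c Rp (LbP (Pe e) c θ) t ∧ LongC c Rp (LbP (Pe e) c θ) t := by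
  obtain ⟨w, r, r', P, s0, s2, hG⟩ := h.gd L J
  have r1 := P.r1
  have w0 := P.w0
  rcases P.turn L J with hT | hT
  · obtain ⟨C, hC, g1, g2⟩ := P.dirR L J D hT
    constructor
    · refine ⟨t - r', t + r', 1 / 2, by linarith, by linarith, by norm_num,
        fun δ T hd F hs => ?_⟩
      obtain ⟨x, u, h1, h2, h3, h4, h5, h6, h7, h8⟩ := F.short hd hs
      have hE := E4_notMem J nosq F.δ0 h7
      have G := hG x (x + δ) h1.le (by linarith) (by linarith) h4.le hE (hI _ _ _ h6)
      obtain ⟨n, on, hn⟩ := hR _ _ _ h6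
      have e1 := G.nR L D hκ P hC g1 g2 hE hn
      have b := lab_SR D hC g1 g2 (by linarith : t - r ≤ x) h2 h3 (by linarith) (by linarith) h5
      refine LbP_of L J nosq D F h7 h8 ⟨fun _ => b, fun he => ?_⟩
      rw [e1] at on
      exact absurd he (Int.not_even_iff_odd.2 on)
    · refine ⟨t - r', t + r', 1 / 2, by linarith, by linarith, by norm_num,
        fun δ T hd F hs hQ => ?_⟩
      obtain ⟨x, u, h1, h2, h3, h4, h5, h6, h7⟩ := F.long hd hs
      have d0 := F.δ0
      have hq := hQ x _ h6 h7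
      have hE := E4_notMem J nosq F.δ0 h6
      have ex : x + (1 - δ) = (x - δ) + 1 := by ring
      obtain ⟨n, on, hn⟩ := hR _ _ _ h4
      unfold l1 l2 m1 m2 at hq
      unfold E4 at hq hE
      simp only at hq hE
      have hI' := hI _ _ _ h4
      rcases h5 with ⟨k1, k2⟩ | ⟨k1, k2⟩
      · rw [ex] at h2 h3 hq hn hE hI'
        have e0 : c (x - δ + 1) = c (x - δ) := L.per _
        have G := hG x (x - δ) (by linarith) (by linarith) (by linarith) (by linarith)
          (by rw [← e0]; exact hE) (by rw [← e0]; exact hI')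
        rw [← e0] at G
        have e1 := G.nR L D hκ P hC g1 g2 hE hn
        obtain ⟨he, -, -, -⟩ := lab_L2R L D hκ hC g1 g2 (by linarith) (by linarith) h1 (by linarith)
          h2 h3 hq
        rw [e1] at on
        exact absurd he (Int.not_even_iff_odd.2 on)
      · rw [ex] at h2 h3 hq hn hE hI'
        rw [show u = (u - 1) + 1 by ring] at h2 h3 hq
        have e0 : c (x - δ + 1) = c (x - δ) := L.per _
        have G := hG x (x - δ) (by linarith) (by linarith) (by linarith) (by linarith)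
          (by rw [← e0]; exact hE) (by rw [← e0]; exact hI')
        rw [← e0] at G
        have e1 := G.nR L D hκ P hC g1 g2 hE hn
        obtain ⟨he, -, -, -⟩ := lab_L3R L D hκ hC g1 g2 (by linarith) (by linarith) (by linarith)
          (by linarith) (by linarith) h3 hq
        rw [e1] at on
        exact absurd he (Int.not_even_iff_odd.2 on)
  · obtain ⟨C, hC, g1, g2⟩ := P.dirL L J D hT
    constructor
    · refine ⟨t - r', t + r', 1 / 2, by linarith, by linarith, by norm_num,
        fun δ T hd F hs => ?_⟩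
      obtain ⟨x, u, h1, h2, h3, h4, h5, h6, h7, h8⟩ := F.short hd hs
      have hE := E4_notMem J nosq F.δ0 h7
      have G := hG x (x + δ) h1.le (by linarith) (by linarith) h4.le hE (hI _ _ _ h6)
      obtain ⟨n, on, hn⟩ := hR _ _ _ h6
      have e1 := G.nL L D hκ P hC g1 g2 hE hn
      obtain ⟨κ, α, i1, i2, i3⟩ := G.ray
      have b := lab_S L D w0 hC g1 g2 (by linarith : t - r ≤ x) h2 h3 (by linarith) (by linarith)
        h5 hE i1 i2 i3
      refine LbP_of L J nosq D F h7 h8 ⟨fun he => ?_, fun _ => b⟩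
      exfalso
      rw [e1] at on
      obtain ⟨a, ha⟩ := on
      obtain ⟨b', hb⟩ := he
      omega
    · refine ⟨t - r', t + r', 1 / 2, by linarith, by linarith, by norm_num,
        fun δ T hd F hs hQ => ?_⟩
      obtain ⟨x, u, h1, h2, h3, h4, h5, h6, h7⟩ := F.long hd hs
      have d0 := F.δ0
      have hq := hQ x _ h6 h7
      have hE := E4_notMem J nosq F.δ0 h6
      have ex : x + (1 - δ) = (x - δ) + 1 := by ring
      obtain ⟨n, on, hn⟩ := hR _ _ _ h4
      unfold l1 l2 m1 m2 at hq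
      unfold E4 at hq hE
      simp only at hq hE
      have hI' := hI _ _ _ h4
      rcases h5 with ⟨k1, k2⟩ | ⟨k1, k2⟩
      · rw [ex] at h2 h3 hq hn hE hI'
        have e0 : c (x - δ + 1) = c (x - δ) := L.per _
        have G := hG x (x - δ) (by linarith) (by linarith) (by linarith) (by linarith)
          (by rw [← e0]; exact hE) (by rw [← e0]; exact hI')
        rw [← e0] at G
        have e1 := G.nL L D hκ P hC g1 g2 hE hn
        have he : Even e := by
          rw [e1] at on
          obtain ⟨a, ha⟩ := on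
          exact ⟨a + 1, by omega⟩
        obtain ⟨κ, α, i1, i2, i3⟩ := G.ray
        rw [e1] at hn
        exact lab_L2 L D he hκ w0 hC (by linarith) (by linarith) h1 (by linarith) h2 h3 hE i1 i2
          i3 hn (hq.2 he)
      · rw [ex] at h2 h3 hq hn hE hI'
        rw [show u = (u - 1) + 1 by ring] at h2 h3 hq
        have e0 : c (x - δ + 1) = c (x - δ) := L.per _
        have G := hG x (x - δ) (by linarith) (by linarith) (by linarith) (by linarith)
          (by rw [← e0]; exact hE) (by rw [← e0]; exact hI')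
        rw [← e0] at G
        have e1 := G.nL L D hκ P hC g1 g2 hE hn
        have he : Even e := by
          rw [e1] at on
          obtain ⟨a, ha⟩ := on
          exact ⟨a + 1, by omega⟩
        obtain ⟨κ, α, i1, i2, i3⟩ := G.ray
        rw [e1] at hn
        exact lab_L3 L D he hκ w0 hC (by linarith) (by linarith) (by linarith) (by linarith)
          (by linarith) h3 hE i1 i2 i3 hn (hq.2 he)

end Pool.Agent.Run7.h564
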