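import Pool.Agent.Run7.h564.Turn
import Pool.Agent.Run7.h564.Fin

/-! Folds whose branches do not have the region between them. -/

set_option autoImplicit false
open Complex Set Topology Metric Filter
open scoped ComplexConjugate

namespace Pool.Agent.Run7.h564

open Pool.Agent.H763R2 Pool.Agent.H763R2.An
open Pool.Agent.H763R2.Dm (NoSq)
open Pool.Agent.Y765.Sq (Ann exists_int exists_rep TriM tri_fam)
open Pool.Agent.N335.Hg

variable {c : ℝ → ℂ} {θ : ℝ → ℝ → ℝ} {Rp : ℂ → ℂ → ℂ → Prop} {In : ℂ → Prop}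

/-- the property of the labels, depending on the parity -/
def Pe (e : ℤ) (l1 l2 m1 m2 : ℝ) : Prop :=
  (Odd e → l1 = Real.pi / 2 ∧ l2 = -(Real.pi / 4)) ∧ (Even e → P5 l1 l2 m1 m2)

/-- the relation between the directions of a chord and the reversed chord -/
def Kap (θ : ℝ → ℝ → ℝ) (e : ℤ) : Prop :=
  ∀ x y, x < y → y < x + 1 → θ y (x + 1) = θ x y + (2 * e - 1) * Real.pi

/-- the fourth vertex is in a good position -/
structure Gd (c : ℝ → ℂ) (w : ℂ) (t r : ℝ) (E : ℂ) : Prop where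
  ray : ∃ (κ : ℂ) (α : ℝ), exp (α * I) * κ = 1 ∧ (α = Real.pi / 2 ∨ α = -(Real.pi / 2)) ∧
    ∀ s, t - r ≤ s → s ≤ t + r → κ * (w * (c s - E)) ∈ slitPlane
  near : ∀ s, t + r ≤ s → s ≤ t + 1 - r → ‖E - c t‖ < ‖c s - c t‖
  v1 : 0 < (w * (c (t - r) - E)).re
  v2 : 0 < (w * (c (t + r) - E)).re

theorem wc_odd {z : ℂ} (hz : 0 < mgc c z) : ∃ n : ℤ, Odd n ∧ IsWc c z n := by
  unfold mgc at hz
  split_ifs at hz with h
  · obtain ⟨n, hn, ho⟩ := h
    exact ⟨n, ho, hn⟩
  · have := infDist_nonneg (x := z) (s := range c)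
    linarith

section

variable {w : ℂ} {t r : ℝ}

theorem Gd.nR (L : Loop c) (D : Dirn c θ) {e n : ℤ} (hκ : Kap θ e) (P : Fold c w t r) {C : ℝ}
    (hC : Dr c θ w (t - r) (t + r) C (-(Real.pi / 2)))
    (g1 : ∀ x y, t - r ≤ x → x < y → y ≤ t → Real.pi / 2 < θ x y + C)
    (g2 : ∀ x y, t ≤ x → x < y → y ≤ t + r → θ x y + C < Real.pi / 2)
    {E : ℂ} (hE : E ∉ range c) (G : Gd c w t r E) (hn : IsWc c E n) : n = e := by
  have r0 := P.r0
  have hp := Real.pi_pos
  obtain ⟨κ, α, h1, h2, h3⟩ := G.ray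
  have := wind_fold L D P (m := 0) hκ hC
    (by push_cast; linarith [hC.lo t (t + r) (by linarith) (by linarith) le_rfl])
    (by push_cast; linarith [g2 t (t + r) le_rfl (by linarith) le_rfl])
    (g1 (t - r) t le_rfl (by linarith) le_rfl)
    (by linarith [hC.hi (t - r) t le_rfl (by linarith) (by linarith)]) h1 h2 hE h3 G.near G.v1
    G.v2 hn
  simpa using this

theorem Gd.nL (L : Loop c) (D : Dirn c θ) {e n : ℤ} (hκ : Kap θ e) (P : Fold c w t r) {C : ℝ}
    (hC : Dr c θ w (t - r) (t + r) C (Real.pi / 2))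
    (g1 : ∀ x y, t - r ≤ x → x < y → y ≤ t → θ x y + C < 3 * Real.pi / 2)
    (g2 : ∀ x y, t ≤ x → x < y → y ≤ t + r → 3 * Real.pi / 2 < θ x y + C)
    {E : ℂ} (hE : E ∉ range c) (G : Gd c w t r E) (hn : IsWc c E n) : n = e - 1 := by
  have r0 := P.r0
  have hp := Real.pi_pos
  obtain ⟨κ, α, h1, h2, h3⟩ := G.ray
  exact wind_fold L D P (m := 1) hκ hC
    (by push_cast; linarith [g2 t (t + r) le_rfl (by linarith) le_rfl])
    (by push_cast; linarith [hC.hi t (t + r) (by linarith) (by linarith) le_rfl])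
    (hC.lo (t - r) t le_rfl (by linarith) (by linarith))
    (g1 (t - r) t le_rfl (by linarith) le_rfl) h1 h2 hE h3 G.near G.v1 G.v2 hn

end

theorem neg_pol {v : ℂ} {ρ T : ℝ} (h : v = ρ * exp (T * I)) :
    -v = ρ * exp ((T + Real.pi : ℝ) * I) := by
  rw [h]
  push_cast
  rw [add_mul, exp_add, exp_pi_mul_I]
  ring

/-- the labels of a short triangle at a fold with the turn to the left -/
theorem lab_S (L : Loop c) (D : Dirn c θ) {w κ : ℂ} (w0 : w ≠ 0) {α lo hi t C x u y : ℝ}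
    (hC : Dr c θ w lo hi C (Real.pi / 2))
    (g1 : ∀ x y, lo ≤ x → x < y → y ≤ t → θ x y + C < 3 * Real.pi / 2)
    (g2 : ∀ x y, t ≤ x → x < y → y ≤ hi → 3 * Real.pi / 2 < θ x y + C)
    (h1 : lo ≤ x) (h2 : x < u) (h3 : u < y) (h4 : y ≤ hi) (h5 : y < x + 1)
    (hV : c u = c x + I * (c y - c x)) (hE : c y + I * (c y - c x) ∉ range c)
    (hka : exp (α * I) * κ = 1) (hα : α = Real.pi / 2 ∨ α = -(Real.pi / 2))
    (hs : ∀ s, lo ≤ s → s ≤ hi → κ * (w * (c s - (c y + I * (c y - c x)))) ∈ slitPlane) :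
    P5 (θ x u - θ x y) (θ u y - θ x y) (Phi c (c y + I * (c y - c x)) x u)
      (Phi c (c y + I * (c y - c x)) u y) := by
  have hp := Real.pi_pos
  obtain ⟨j1, e1⟩ := D.lab1 h2 h3 h5 hV
  obtain ⟨j2, e2⟩ := D.lab2 h2 h3 h5 hV
  obtain ⟨ρ, hρ, e3⟩ := hC.pol x y h1 (h2.trans h3) h4
  have e4 : w * (c x - c y) = ρ * exp ((θ x y + C + Real.pi : ℝ) * I) := by
    rw [← neg_pol e3]; ring
  obtain ⟨⟨i1, f1⟩, ⟨i2, f2⟩, ⟨i3, f3⟩⟩ := psi_rel hka hρ e4 hV
  have q1 := ag_lt (α := α) (hs x h1 (by linarith))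
  have q2 := ag_lt (α := α) (hs u (by linarith) (by linarith))
  have q3 := ag_lt (α := α) (hs y (by linarith) h4)
  rw [Phi_ag L hE w0 hka hs h1 (by linarith) (by linarith) (by linarith : u ≤ hi),
    Phi_ag L hE w0 hka hs (by linarith) (by linarith) (by linarith) h4]
  have key := enumS (d := α - Real.pi) (T1 := θ x u + C) (T2 := θ x y + C) (T3 := θ u y + C)
    (by rcases hα with rfl | rfl
        · left; ring
        · right; ring) (j1 := j1) (j2 := j2) (i1 := i1) (i2 := i2) (i3 := i3)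
    (by linarith) (by linarith) (by rw [f1]; ring) (by rw [f2]) (by rw [f3]; ring)
    (hC.lo x u h1 h2 (by linarith)) (by linarith [hC.hi x u h1 h2 (by linarith)])
    (hC.lo x y h1 (by linarith) h4) (by linarith [hC.hi x y h1 (by linarith) h4])
    (hC.lo u y (by linarith) h3 h4) (by linarith [hC.hi u y (by linarith) h3 h4])
    q1.1 (by linarith [q1.2]) q2.1 (by linarith [q2.2]) q3.1 (by linarith [q3.2])
    (by
      rcases le_total u t with g | g
      · left; exact g1 x u h1 h2 g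
      · right; exact g2 u y g h3 h4)
  rw [show θ x u - θ x y = θ x u + C - (θ x y + C) by ring,
    show θ u y - θ x y = θ u y + C - (θ x y + C) by ring]
  exact key

/-- the first labels of a short triangle at a fold with the turn to the right -/
theorem lab_SR (D : Dirn c θ) {w : ℂ} {lo hi t C x u y : ℝ}
    (hC : Dr c θ w lo hi C (-(Real.pi / 2)))
    (g1 : ∀ x y, lo ≤ x → x < y → y ≤ t → Real.pi / 2 < θ x y + C)
    (g2 : ∀ x y, t ≤ x → x < y → y ≤ hi → θ x y + C < Real.pi / 2)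
    (h1 : lo ≤ x) (h2 : x < u) (h3 : u < y) (h4 : y ≤ hi) (h5 : y < x + 1)
    (hV : c u = c x + I * (c y - c x)) :
    θ x u - θ x y = Real.pi / 2 ∧ θ u y - θ x y = -(Real.pi / 4) := by
  have hp := Real.pi_pos
  obtain ⟨j1, e1⟩ := D.lab1 h2 h3 h5 hV
  obtain ⟨j2, e2⟩ := D.lab2 h2 h3 h5 hV
  have key := enumSR (T1 := θ x u + C) (T2 := θ x y + C) (T3 := θ u y + C) (j1 := j1) (j2 := j2)
    (by linarith) (by linarith)
    (hC.lo x u h1 h2 (by linarith)) (by linarith [hC.hi x u h1 h2 (by linarith)])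
    (hC.lo x y h1 (by linarith) h4) (by linarith [hC.hi x y h1 (by linarith) h4])
    (hC.lo u y (by linarith) h3 h4) (by linarith [hC.hi u y (by linarith) h3 h4])
    (by
      rcases le_total u t with g | g
      · left; exact g1 x u h1 h2 g
      · right; exact g2 u y g h3 h4)
  constructor <;> linarith [key.1, key.2]

/-- the relations between the directions for a long triangle in the order `Q`, `P`, `V` -/
theorem rel_L2 (L : Loop c) (D : Dirn c θ) {e : ℤ} (hκ : Kap θ e) {x u y' : ℝ}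
    (h1 : y' < x) (h2 : x < u) (h3 : u < y' + 1)
    (hV : c u = c x + I * (c (y' + 1) - c x)) :
    θ x (y' + 1) = θ y' x + (2 * e - 1) * Real.pi ∧
    θ u (y' + 1) = θ y' u + (2 * e - 1) * Real.pi ∧
    (∃ j : ℤ, θ y' u = θ y' x - Real.pi / 4 + j * (2 * Real.pi)) ∧
    ∃ j : ℤ, θ x u = θ y' x - Real.pi / 2 + j * (2 * Real.pi) := by
  obtain ⟨j1, e1⟩ := D.lab1 h2 h3 (by linarith) hV
  obtain ⟨j2, e2⟩ := D.lab2 h2 h3 (by linarith) hV
  have k1 := hκ y' x h1 (by linarith)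
  have k2 := hκ y' u (by linarith) h3
  refine ⟨k1, k2, ⟨j2, by linarith⟩, ⟨j1 + e, ?_⟩⟩
  push_cast
  rw [e1, k1]
  ring

/-- the relations between the directions for a long triangle in the order `V`, `Q`, `P` -/
theorem rel_L3 (L : Loop c) (D : Dirn c θ) {e : ℤ} (hκ : Kap θ e) {x u' y' : ℝ}
    (h1 : u' < y') (h2 : y' < x) (h3 : x < u' + 1)
    (hV : c (u' + 1) = c x + I * (c (y' + 1) - c x)) :
    θ x (u' + 1) = θ u' x + (2 * e - 1) * Real.pi ∧
    θ x (y' + 1) = θ y' x + (2 * e - 1) * Real.pi ∧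
    θ (u' + 1) (y' + 1) = θ u' y' + 2 * ((2 * e - 1) * Real.pi) ∧
    (∃ j : ℤ, θ u' x = θ y' x + Real.pi / 2 + j * (2 * Real.pi)) ∧
    ∃ j : ℤ, θ u' y' = θ y' x + 3 * Real.pi / 4 + j * (2 * Real.pi) := by
  obtain ⟨j1, e1⟩ := D.lab1 h3 (by linarith) (by linarith) hV
  obtain ⟨j2, e2⟩ := D.lab2 h3 (by linarith) (by linarith) hV
  have k1 := hκ u' x (by linarith) h3
  have k2 := hκ y' x h2 (by linarith)
  have k3 := kappa2 hκ h1 (by linarith)
  refine ⟨k1, k2, k3, ⟨j1, by linarith⟩, ⟨j2 - e, ?_⟩⟩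
  push_cast
  linarith

/-- the labels of a long triangle at a fold with the turn to the left -/
theorem lab_L2 (L : Loop c) (D : Dirn c θ) {e : ℤ} (he : Even e) (hκ : Kap θ e)
    {w κ : ℂ} (w0 : w ≠ 0) {α lo hi C x u y' : ℝ}
    (hC : Dr c θ w lo hi C (Real.pi / 2))
    (h1 : lo ≤ y') (h2 : y' < x) (h3 : x < u) (h4 : u ≤ hi) (h5 : u < y' + 1)
    (hV : c u = c x + I * (c (y' + 1) - c x)) (hE : c (y' + 1) + I * (c (y' + 1) - c x) ∉ range c)
    (hka : exp (α * I) * κ = 1) (hα : α = Real.pi / 2 ∨ α = -(Real.pi / 2))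
    (hs : ∀ s, lo ≤ s → s ≤ hi →
      κ * (w * (c s - (c (y' + 1) + I * (c (y' + 1) - c x)))) ∈ slitPlane)
    (hn : IsWc c (c (y' + 1) + I * (c (y' + 1) - c x)) (e - 1)) :
    ¬ P5 (θ x u - θ x (y' + 1)) (θ u (y' + 1) - θ x (y' + 1))
      (Phi c (c (y' + 1) + I * (c (y' + 1) - c x)) x u)
      (Phi c (c (y' + 1) + I * (c (y' + 1) - c x)) u (y' + 1)) := by
  have hp := Real.pi_pos
  obtain ⟨k1, k2, ⟨j1, e1⟩, ⟨j2, e2⟩⟩ := rel_L2 L D hκ h2 h3 h5 hV
  obtain ⟨ρ, hρ, e3⟩ := hC.pol y' x h1 h2 (by linarith)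
  have ey : c (y' + 1) = c y' := L.per y'
  rw [← ey] at e3
  obtain ⟨⟨i1, f1⟩, ⟨i2, f2⟩, ⟨i3, f3⟩⟩ := psi_rel hka hρ e3 hV
  have q1 := ag_lt (α := α) (hs x (by linarith) (by linarith))
  have q2 := ag_lt (α := α) (hs u (by linarith) (by linarith))
  have q3 := ag_lt (α := α) (hs y' h1 (by linarith))
  rw [ey] at q1 q2 q3 f1 f2 f3 hs hE hn ⊢
  have w1 := Phi_wind L hn y'
  have w2 := Phi_add L hE y' u (y' + 1)
  have w3 := Phi_ag L hE w0 hka hs h1 (by linarith) (by linarith) (by linarith : u ≤ hi)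
  rw [Phi_ag L hE w0 hka hs (by linarith : lo ≤ x) (by linarith) (by linarith)
    (by linarith : u ≤ hi)]
  have key := enumL2 he (d := α - Real.pi) (T1 := θ y' x + C) (T2 := θ y' u + C)
    (T3 := θ x u + C)
    (by rcases hα with rfl | rfl
        · left; ring
        · right; ring) (j1 := j1) (j2 := j2) (i1 := i1) (i2 := i2) (i3 := i3)
    (by linarith) (by linarith) f1 f2 f3
    (hC.lo y' x h1 h2 (by linarith)) (by linarith [hC.hi y' x h1 h2 (by linarith)])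
    (hC.lo y' u h1 (by linarith) h4) (by linarith [hC.hi y' u h1 (by linarith) h4])
    (hC.lo x u (by linarith) h3 h4) (by linarith [hC.hi x u (by linarith) h3 h4])
    q1.1 (by linarith [q1.2]) q2.1 (by linarith [q2.2]) q3.1 (by linarith [q3.2])
  rw [show θ x u - θ x (y' + 1) = θ x u + C - (θ y' x + C) - (2 * e - 1) * Real.pi by
      rw [k1]; ring,
    show θ u (y' + 1) - θ x (y' + 1) = θ y' u + C - (θ y' x + C) by rw [k1, k2]; ring,
    show Phi c (c y' + I * (c y' - c x)) u (y' + 1) = 2 * Real.pi * (e - 1) -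
      (ag κ α (w * (c u - (c y' + I * (c y' - c x)))) -
        ag κ α (w * (c y' - (c y' + I * (c y' - c x))))) by
      rw [← w3]
      push_cast at w1
      linarith]
  exact key

/-- the labels of a long triangle at a fold with the turn to the left -/
theorem lab_L3 (L : Loop c) (D : Dirn c θ) {e : ℤ} (he : Even e) (hκ : Kap θ e)
    {w κ : ℂ} (w0 : w ≠ 0) {α lo hi C x u' y' : ℝ}
    (hC : Dr c θ w lo hi C (Real.pi / 2))
    (h1 : lo ≤ u') (h2 : u' < y') (h3 : y' < x) (h4 : x ≤ hi) (h5 : x < u' + 1)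
    (hV : c (u' + 1) = c x + I * (c (y' + 1) - c x))
    (hE : c (y' + 1) + I * (c (y' + 1) - c x) ∉ range c)
    (hka : exp (α * I) * κ = 1) (hα : α = Real.pi / 2 ∨ α = -(Real.pi / 2))
    (hs : ∀ s, lo ≤ s → s ≤ hi →
      κ * (w * (c s - (c (y' + 1) + I * (c (y' + 1) - c x)))) ∈ slitPlane)
    (hn : IsWc c (c (y' + 1) + I * (c (y' + 1) - c x)) (e - 1)) :
    ¬ P5 (θ x (u' + 1) - θ x (y' + 1)) (θ (u' + 1) (y' + 1) - θ x (y' + 1))
      (Phi c (c (y' + 1) + I * (c (y' + 1) - c x)) x (u' + 1))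
      (Phi c (c (y' + 1) + I * (c (y' + 1) - c x)) (u' + 1) (y' + 1)) := by
  have hp := Real.pi_pos
  obtain ⟨k1, k2, k3, ⟨j1, e1⟩, ⟨j2, e2⟩⟩ := rel_L3 L D hκ h2 h3 h5 hV
  obtain ⟨ρ, hρ, e3⟩ := hC.pol y' x (by linarith) h3 h4
  have ey : c (y' + 1) = c y' := L.per y'
  have eu : c (u' + 1) = c u' := L.per u'
  rw [← ey] at e3
  rw [eu] at hV
  obtain ⟨⟨i1, f1⟩, ⟨i2, f2⟩, ⟨i3, f3⟩⟩ := psi_rel hka hρ e3 hV
  have q1 := ag_lt (α := α) (hs x (by linarith) (by linarith))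
  have q2 := ag_lt (α := α) (hs u' h1 (by linarith))
  have q3 := ag_lt (α := α) (hs y' (by linarith) (by linarith))
  rw [ey] at q1 q2 q3 f1 f2 f3 hs hE hn ⊢
  have w1 := Phi_wind L hn u'
  have w2 := Phi_add L hE u' x (u' + 1)
  have w3 := Phi_ag L hE w0 hka hs h1 (by linarith) (by linarith) (by linarith : x ≤ hi)
  rw [Phi_per L hE, Phi_ag L hE w0 hka hs h1 (by linarith) (by linarith)
    (by linarith : y' ≤ hi)]
  have key := enumL3 he (d := α - Real.pi) (T1 := θ u' y' + C) (T2 := θ u' x + C)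
    (T3 := θ y' x + C)
    (by rcases hα with rfl | rfl
        · left; ring
        · right; ring) (j1 := j2) (j2 := j1) (i1 := i1) (i2 := i2) (i3 := i3)
    (by linarith) (by linarith) f1 f2 f3
    (hC.lo u' y' h1 h2 (by linarith)) (by linarith [hC.hi u' y' h1 h2 (by linarith)])
    (hC.lo u' x h1 (by linarith) h4) (by linarith [hC.hi u' x h1 (by linarith) h4])
    (hC.lo y' x (by linarith) h3 h4) (by linarith [hC.hi y' x (by linarith) h3 h4])
    q1.1 (by linarith [q1.2]) q2.1 (by linarith [q2.2]) q3.1 (by linarith [q3.2])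
  rw [show θ x (u' + 1) - θ x (y' + 1) = θ u' x + C - (θ y' x + C) by
      rw [k1, k2]; ring,
    show θ (u' + 1) (y' + 1) - θ x (y' + 1) = θ u' y' + C - (θ y' x + C) + (2 * e - 1) * Real.pi by
      rw [k2, k3]; ring,
    show Phi c (c y' + I * (c y' - c x)) x (u' + 1) = 2 * Real.pi * (e - 1) -
      (ag κ α (w * (c x - (c y' + I * (c y' - c x)))) -
        ag κ α (w * (c u' - (c y' + I * (c y' - c x))))) by
      rw [← w3]
      push_cast at w1
      linarith]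
  exact key

end Pool.Agent.Run7.h564
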