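import Pool.Agent.Run7.h564.Std

/-! All four labels of a family are constant. -/

set_option autoImplicit false
open Complex Set Topology Metric Filter
open scoped ComplexConjugate

namespace Pool.Agent.Run7.h564

open Pool.Agent.H763R2 Pool.Agent.H763R2.An
open Pool.Agent.H763R2.Dm (NoSq)
open Pool.Agent.Y765.Sq (Ann exists_int exists_rep TriM tri_fam)
open Pool.Agent.N335.Hg

variable {c : ℝ → ℂ} {θ : ℝ → ℝ → ℝ} {Rp : ℂ → ℂ → ℂ → Prop}

/-- the direction of the reversed chord -/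
theorem kappa (L : Loop c) (D : Dirn c θ) : ∃ e : ℤ, ∀ x y, x < y → y < x + 1 →
    θ y (x + 1) = θ x y + (2 * e - 1) * Real.pi := by
  have hne : UU.Nonempty := ⟨(0, 1/2), by norm_num [UU]⟩
  have : PreconnectedSpace UU := Subtype.preconnectedSpace UU_convex.isPreconnected
  have c1 : Continuous fun p : UU => θ p.1.1 p.1.2 := by
    have := continuousOn_iff_continuous_domRestrict.1 D.cont
    exact this
  have c2 : Continuous fun p : UU => θ p.1.2 (p.1.1 + 1) := by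
    have hm : ∀ p : UU, ((p.1.2, p.1.1 + 1) : ℝ × ℝ) ∈ UU := fun p =>
      ⟨by show p.1.2 < p.1.1 + 1; exact p.2.2,
        by show p.1.1 + 1 < p.1.2 + 1; linarith [p.2.1]⟩
    have := c1.comp (f := fun p : UU => (⟨(p.1.2, p.1.1 + 1), hm p⟩ : UU)) (by fun_prop)
    exact this
  have val : ∀ x y, x < y → y < x + 1 → ∃ n : ℤ, θ y (x + 1) = θ x y + (2 * n - 1) * Real.pi := by
    intro x y h1 h2
    obtain ⟨ρ, hρ, e⟩ := D.ex x y h1 h2
    obtain ⟨ρ', hρ', e'⟩ := D.ex y (x + 1) h2 (by linarith)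
    rw [L.per] at e'
    have e3 : (ρ' : ℂ) * exp (θ y (x + 1) * I) = ρ * exp ((θ x y - Real.pi : ℝ) * I) := by
      rw [← e']
      have : exp (((θ x y - Real.pi : ℝ) : ℂ) * I) = -exp (θ x y * I) := by
        push_cast
        rw [sub_mul, exp_sub, exp_pi_mul_I, div_neg, div_one]
      rw [this, mul_neg, ← e]
      ring
    obtain ⟨n, hn⟩ := ang_eq hρ' hρ e3
    exact ⟨n, by rw [hn]; ring⟩
  obtain ⟨e, he⟩ := val 0 (1 / 2) (by norm_num) (by norm_num)
  have key := H777R2.exp_const (X := UU)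
    (k := fun p => (((θ p.1.2 (p.1.1 + 1) - θ p.1.1 p.1.2 : ℝ) : ℂ)) * I)
    ((continuous_ofReal.comp (c2.sub c1)).mul continuous_const) (c := -1) (fun p => by
      obtain ⟨n, hn⟩ := val p.1.1 p.1.2 p.2.1 p.2.2
      rw [hn, add_sub_cancel_left]
      have : (((2 * n - 1) * Real.pi : ℝ) : ℂ) * I = n * (2 * Real.pi * I) - Real.pi * I := by
        push_cast; ring
      rw [this, exp_sub, exp_int_mul_two_pi_mul_I, exp_pi_mul_I]
      norm_num)
  refine ⟨e, fun x y h1 h2 => ?_⟩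
  have h := key ⟨(x, y), ⟨h1, h2⟩⟩ ⟨(0, 1 / 2), by norm_num [UU]⟩
  simp only at h
  have h3 := mul_right_cancel₀ I_ne_zero h
  have h4 : θ y (x + 1) - θ x y = θ (1 / 2) (0 + 1) - θ 0 (1 / 2) := by
    exact_mod_cast h3
  linarith

/-- two periods -/
theorem kappa2 {e : ℤ} (h : ∀ x y, x < y → y < x + 1 → θ y (x + 1) = θ x y + (2 * e - 1) * Real.pi)
    {x y : ℝ} (h1 : x < y) (h2 : y < x + 1) :
    θ (x + 1) (y + 1) = θ x y + 2 * ((2 * e - 1) * Real.pi) := by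
  have a := h x y h1 h2
  have b := h y (x + 1) h2 (by linarith)
  rw [b, a]; ring

theorem l2_val (D : Dirn c θ) (J : Inj c) {δ a : ℝ} (hδ : 0 < δ)
    {q : ℝ × ℝ × ℝ} (hq : q ∈ Mm c δ a) : ∃ j : ℤ, l2 θ q = -(Real.pi / 4) + j * (2 * Real.pi) := by
  have s := Mm_strict J hδ hq
  obtain ⟨j, hj⟩ := D.lab2 s.1 s.2.1 s.2.2 hq.2.2.2.2
  exact ⟨j, by unfold l2; linarith⟩

/-- the labels of all members of a family agree -/
theorem labels4 (L : Loop c) (J : Inj c) (nosq : NoSq (range c)) (D : Dirn c θ) {δ a : ℝ}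
    (hδ : 0 < δ) {T : Set Ann} (hT : IsPreconnected T) (hTt : TyA c δ T) {q₀ : ℝ × ℝ × ℝ}
    (hq₀ : q₀ ∈ Mm c δ a) (hq₀T : (((q₀.1 : AddCircle (1 : ℝ)), q₀.2.1) : Ann) ∈ T) :
    ∀ q ∈ Mm c δ a, (((q.1 : AddCircle (1 : ℝ)), q.2.1) : Ann) ∈ T →
      l1 θ q = l1 θ q₀ ∧ l2 θ q = l2 θ q₀ ∧ m1 c q = m1 c q₀ ∧ m2 c q = m2 c q₀ := by
  have hM := Mm_closed L.cont δ a
  have sub : ∀ {f : ℝ × ℝ × ℝ → ℝ} {v : ℝ}, (∀ q ∈ Mm c δ a, ∃ j : ℤ, f q = v +
      j * (2 * Real.pi)) → ∀ q ∈ Mm c δ a, ∃ j : ℤ, f q = f q₀ + j * (2 * Real.pi) := by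
    intro f v h q hq
    obtain ⟨j, hj⟩ := h q hq
    obtain ⟨i, hi⟩ := h q₀ hq₀
    exact ⟨j - i, by rw [hj, hi]; push_cast; ring⟩
  obtain ⟨a1, a1'⟩ := disc_closed hM (l1_cont D J (a := a) hδ)
    (sub fun q hq => l1_val D J hδ hq)
  obtain ⟨a2, a2'⟩ := disc_closed hM (l2_cont D J (a := a) hδ)
    (sub fun q hq => l2_val D J hδ hq)
  obtain ⟨a3, a3'⟩ := disc_closed hM (m1_cont L J nosq (a := a) hδ)
    (sub fun q hq => m1_val L J nosq hδ hq)
  obtain ⟨a4, a4'⟩ := disc_closed hM (m2_cont L J nosq (a := a) hδ)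
    (sub fun q hq => m2_val L J nosq hδ hq)
  obtain ⟨C, hC⟩ := D.per L
  have k1 : Mm c δ a ∩ {q | l1 θ q = l1 θ q₀ ∧ l2 θ q = l2 θ q₀ ∧ m1 c q = m1 c q₀ ∧
      m2 c q = m2 c q₀} = (Mm c δ a ∩ {q | l1 θ q = l1 θ q₀}) ∩
      ((Mm c δ a ∩ {q | l2 θ q = l2 θ q₀}) ∩
      ((Mm c δ a ∩ {q | m1 c q = m1 c q₀}) ∩ (Mm c δ a ∩ {q | m2 c q = m2 c q₀}))) := by
    ext q
    simp only [mem_inter_iff, mem_ofPred_eq]
    tauto
  have k2 : Mm c δ a ∩ {q | l1 θ q = l1 θ q₀ ∧ l2 θ q = l2 θ q₀ ∧ m1 c q = m1 c q₀ ∧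
      m2 c q = m2 c q₀}ᶜ = (Mm c δ a ∩ {q | l1 θ q ≠ l1 θ q₀}) ∪
      ((Mm c δ a ∩ {q | l2 θ q ≠ l2 θ q₀}) ∪
      ((Mm c δ a ∩ {q | m1 c q ≠ m1 c q₀}) ∪ (Mm c δ a ∩ {q | m2 c q ≠ m2 c q₀}))) := by
    ext q
    simp only [mem_inter_iff, mem_union, mem_ofPred_eq, mem_compl_iff, ne_eq]
    tauto
  have key := clopen2 L J hδ hT hTt (a := a) (S := {q | l1 θ q = l1 θ q₀ ∧ l2 θ q = l2 θ q₀ ∧
      m1 c q = m1 c q₀ ∧ m2 c q = m2 c q₀})
    (by rw [k1]; exact a1.inter (a2.inter (a3.inter a4)))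
    (by rw [k2]; exact a1'.union (a2'.union (a3'.union a4'))) (fun x s u g1 g2 g3 => by
      have f1 : l1 θ (x + 1, s, u + 1) = l1 θ (x, s, u) := by
        unfold l1
        simp only
        rw [show x + 1 + s = x + s + 1 by ring, hC x u g1 (by linarith),
          hC x (x + s) (by linarith) g3]
        ring
      have f1' : l2 θ (x + 1, s, u + 1) = l2 θ (x, s, u) := by
        unfold l2
        simp only
        rw [show x + 1 + s = x + s + 1 by ring, hC u (x + s) g2 (by linarith),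
          hC x (x + s) (by linarith) g3]
        ring
      have f0 : E4 c (x + 1, s, u + 1) = E4 c (x, s, u) := by
        unfold E4
        simp only
        rw [show x + 1 + s = x + s + 1 by ring, L.per, L.per]
      by_cases hE : E4 c (x, s, u) ∈ range c
      · have z1 : ∀ s' t', Phi c (E4 c (x, s, u)) s' t' = 0 := by
          intro s' t'
          unfold Phi
          rw [dif_neg]
          rintro ⟨k, hk, ek⟩
          obtain ⟨τ, hτ⟩ := hE
          have := ek τ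
          rw [hτ, sub_self] at this
          exact exp_ne_zero _ this
        simp only [mem_ofPred_eq]
        rw [f1, f1']
        have g1 : m1 c (x + 1, s, u + 1) = m1 c (x, s, u) := by
          unfold m1; rw [f0]; simp only [z1]
        have g2 : m2 c (x + 1, s, u + 1) = m2 c (x, s, u) := by
          unfold m2; rw [f0]; simp only [z1]
        rw [g1, g2]
      · have f2 : m1 c (x + 1, s, u + 1) = m1 c (x, s, u) := by
          unfold m1
          rw [f0]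
          exact Phi_per L hE _ _
        have f3 : m2 c (x + 1, s, u + 1) = m2 c (x, s, u) := by
          unfold m2
          rw [f0]
          simp only
          rw [show x + 1 + s = x + s + 1 by ring]
          exact Phi_per L hE _ _
        simp only [mem_ofPred_eq]
        rw [f1, f1', f2, f3]) ⟨hq₀, rfl, rfl, rfl, rfl⟩ hq₀T
  exact key

/-- the labels of all members of a family agree, for all representatives -/
theorem labels4_all (L : Loop c) (J : Inj c) (nosq : NoSq (range c)) (D : Dirn c θ) {δ a : ℝ}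
    (hδ : 0 < δ) {T : Set Ann} (hT : IsPreconnected T) (hTt : TyA c δ T) {q₀ : ℝ × ℝ × ℝ}
    (hq₀ : q₀ ∈ Mm c δ a) (hq₀T : (((q₀.1 : AddCircle (1 : ℝ)), q₀.2.1) : Ann) ∈ T) :
    ∀ a', ∀ q ∈ Mm c δ a', (((q.1 : AddCircle (1 : ℝ)), q.2.1) : Ann) ∈ T →
      l1 θ q = l1 θ q₀ ∧ l2 θ q = l2 θ q₀ ∧ m1 c q = m1 c q₀ ∧ m2 c q = m2 c q₀ := by
  have key := labels4 L J nosq D hδ hT hTt hq₀ hq₀T
  obtain ⟨C, hC⟩ := D.per L
  rintro a' ⟨x, s, u⟩ hq hqT
  have st := Mm_strict J hδ hq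
  have hE := E4_notMem J nosq hδ hq
  obtain ⟨k1, k2, k3, k4, k5⟩ := hq
  simp only at st k2 k3 k4 k5 hqT
  obtain ⟨k, hk⟩ : ∃ k : ℤ, k = -⌊x - a⌋ := ⟨_, rfl⟩
  have hk' : (k : ℝ) = -(⌊x - a⌋ : ℝ) := by rw [hk]; push_cast; ring
  have f1 := Int.floor_le (x - a)
  have f2 := Int.lt_floor_add_one (x - a)
  have hq' : (x + k, s, u + k) ∈ Mm c δ a := by
    refine ⟨⟨by show a ≤ x + k; linarith, by show x + k ≤ a + 1; linarith⟩, k2,
      by show x + k ≤ u + k; linarith, by show u + k ≤ x + k + s; linarith, ?_⟩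
    show c (u + k) = c (x + k) + I * (c (x + k + s) - c (x + k))
    rw [L.per_int, L.per_int, show x + (k : ℝ) + s = x + s + k by ring, L.per_int]
    exact k5
  have hT' : (((x + k : ℝ) : AddCircle (1 : ℝ)), s) ∈ T := by
    have : ((x + k : ℝ) : AddCircle (1 : ℝ)) = (x : AddCircle (1 : ℝ)) := by
      rw [AddCircle.coe_add]
      have h0 : ((k : ℝ) : AddCircle (1 : ℝ)) = 0 := by
        rw [AddCircle.coe_eq_zero_iff]
        exact ⟨k, by simp⟩
      rw [h0, add_zero]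
    rw [this]; exact hqT
  obtain ⟨g1, g1', g2, g3⟩ := key _ hq' hT'
  have f0 : E4 c (x + k, s, u + k) = E4 c (x, s, u) := by
    unfold E4
    simp only
    rw [show x + (k : ℝ) + s = x + s + k by ring, L.per_int, L.per_int]
  rw [← g1, ← g1', ← g2, ← g3]
  refine ⟨?_, ?_, ?_, ?_⟩
  · unfold l1
    simp only
    rw [show x + (k : ℝ) + s = x + s + k by ring, per_int hC k x u st.1 (by linarith),
      per_int hC k x (x + s) (by linarith) st.2.2]
    ring
  · unfold l2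
    simp only
    rw [show x + (k : ℝ) + s = x + s + k by ring, per_int hC k u (x + s) st.2.1 (by linarith),
      per_int hC k x (x + s) (by linarith) st.2.2]
    ring
  · unfold m1
    rw [f0]
    simp only
    rw [Phi_per_int L hE]
  · unfold m2
    rw [f0]
    simp only
    rw [show x + (k : ℝ) + s = x + s + k by ring, Phi_per_int L hE]

/-- all members of the family have labels with the property `P` -/
def LbP (P : ℝ → ℝ → ℝ → ℝ → Prop) (c : ℝ → ℂ) (θ : ℝ → ℝ → ℝ) (δ : ℝ) (T : Set Ann) : Prop :=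
  ∀ a', ∀ q ∈ Mm c δ a', (((q.1 : AddCircle (1 : ℝ)), q.2.1) : Ann) ∈ T →
    P (l1 θ q) (l2 θ q) (m1 c q) (m2 c q)

theorem LbP_of (L : Loop c) (J : Inj c) (nosq : NoSq (range c)) (D : Dirn c θ)
    {P : ℝ → ℝ → ℝ → ℝ → Prop} {δ a : ℝ}
    {T : Set Ann} (F : Fm c Rp δ T) {q₀ : ℝ × ℝ × ℝ} (hq₀ : q₀ ∈ Mm c δ a)
    (hT : (((q₀.1 : AddCircle (1 : ℝ)), q₀.2.1) : Ann) ∈ T)
    (h : P (l1 θ q₀) (l2 θ q₀) (m1 c q₀) (m2 c q₀)) : LbP P c θ δ T := by
  intro a' q hq hqT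
  obtain ⟨e1, e2, e3, e4⟩ := labels4_all L J nosq D F.δ0 F.pre F.ty.tyA hq₀ hT a' q hq hqT
  rw [e1, e2, e3, e4]
  exact h

end Pool.Agent.Run7.h564
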