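import Pool.Agent.Run7.h564.Inn

/-! The local statements for the labels at monotone points and at folds. -/

set_option autoImplicit false
open Complex Set Topology Metric Filter
open scoped ComplexConjugate

namespace Pool.Agent.Run7.h564

open Pool.Agent.H763R2 Pool.Agent.H763R2.An
open Pool.Agent.H763R2.Dm (NoSq)
open Pool.Agent.Y765.Sq (Ann exists_int exists_rep TriM tri_fam)
open Pool.Agent.N335.Hg

variable {c : ℝ → ℂ} {θ : ℝ → ℝ → ℝ} {Rp : ℂ → ℂ → ℂ → Prop} {In : ℂ → Prop}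

theorem lab_L2R (L : Loop c) (D : Dirn c θ) {e : ℤ} (hκ : Kap θ e) {w : ℂ} {lo hi t C x u y' : ℝ}
    (hC : Dr c θ w lo hi C (-(Real.pi / 2)))
    (g1 : ∀ x y, lo ≤ x → x < y → y ≤ t → Real.pi / 2 < θ x y + C)
    (g2 : ∀ x y, t ≤ x → x < y → y ≤ hi → θ x y + C < Real.pi / 2)
    (h1 : lo ≤ y') (h2 : y' < x) (h3 : x < u) (h4 : u ≤ hi) (h5 : u < y' + 1)
    (hV : c u = c x + I * (c (y' + 1) - c x)) {m1 m2 : ℝ}
    (h : Pe e (θ x u - θ x (y' + 1)) (θ u (y' + 1) - θ x (y' + 1)) m1 m2) :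
    Even e ∧ θ x u - θ x (y' + 1) = Real.pi / 2 ∧ m1 = -(Real.pi / 4) ∧ m2 = Real.pi / 2 := by
  have hp := Real.pi_pos
  obtain ⟨k1, k2, ⟨j1, e1⟩, ⟨j2, e2⟩⟩ := rel_L2 L D hκ h2 h3 h5 hV
  have key := enumL2R (T1 := θ y' x + C) (T2 := θ y' u + C) (T3 := θ x u + C) (j1 := j1)
    (j2 := j2) (by linarith) (by linarith)
    (hC.lo y' x h1 h2 (by linarith)) (by linarith [hC.hi y' x h1 h2 (by linarith)])
    (hC.lo y' u h1 (by linarith) h4) (by linarith [hC.hi y' u h1 (by linarith) h4])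
    (hC.lo x u (by linarith) h3 h4) (by linarith [hC.hi x u (by linarith) h3 h4])
    (by
      rcases le_total x t with g | g
      · left; exact g1 y' x h1 h2 g
      · right; exact g2 x u g h3 h4)
  rw [show θ x u - θ x (y' + 1) = θ x u + C - (θ y' x + C) - (2 * e - 1) * Real.pi by
      rw [k1]; ring,
    show θ u (y' + 1) - θ x (y' + 1) = θ y' u + C - (θ y' x + C) by rw [k1, k2]; ring] at h
  rw [show θ x u - θ x (y' + 1) = θ x u + C - (θ y' x + C) - (2 * e - 1) * Real.pi by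
      rw [k1]; ring]
  rcases Int.even_or_odd e with he | he
  · refine ⟨he, ?_⟩
    have h6 := P5_std2 (e := e) (by rintro rfl; exact absurd he (by decide)) key.1 key.2 (h.2 he)
    exact h6
  · exact absurd (h.1 he).1 (odd_std2 he key.1)

theorem lab_L3R (L : Loop c) (D : Dirn c θ) {e : ℤ} (hκ : Kap θ e) {w : ℂ} {lo hi t C x u' y' : ℝ}
    (hC : Dr c θ w lo hi C (-(Real.pi / 2)))
    (g1 : ∀ x y, lo ≤ x → x < y → y ≤ t → Real.pi / 2 < θ x y + C)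
    (g2 : ∀ x y, t ≤ x → x < y → y ≤ hi → θ x y + C < Real.pi / 2)
    (h1 : lo ≤ u') (h2 : u' < y') (h3 : y' < x) (h4 : x ≤ hi) (h5 : x < u' + 1)
    (hV : c (u' + 1) = c x + I * (c (y' + 1) - c x)) {m1 m2 : ℝ}
    (h : Pe e (θ x (u' + 1) - θ x (y' + 1)) (θ (u' + 1) (y' + 1) - θ x (y' + 1)) m1 m2) :
    Even e ∧ θ x (u' + 1) - θ x (y' + 1) = Real.pi / 2 ∧ m1 = -(Real.pi / 4) ∧
      m2 = Real.pi / 2 := by
  have hp := Real.pi_pos
  obtain ⟨k1, k2, k3, ⟨j1, e1⟩, ⟨j2, e2⟩⟩ := rel_L3 L D hκ h2 h3 h5 hV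
  have key := enumL3R (T1 := θ u' y' + C) (T2 := θ u' x + C) (T3 := θ y' x + C) (j1 := j2)
    (j2 := j1) (by linarith) (by linarith)
    (hC.lo u' y' h1 h2 (by linarith)) (by linarith [hC.hi u' y' h1 h2 (by linarith)])
    (hC.lo u' x h1 (by linarith) h4) (by linarith [hC.hi u' x h1 (by linarith) h4])
    (hC.lo y' x (by linarith) h3 h4) (by linarith [hC.hi y' x (by linarith) h3 h4])
    (by
      rcases le_total y' t with g | g
      · left; exact g1 u' y' h1 h2 g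
      · right; exact g2 y' x g h3 h4)
  rw [show θ x (u' + 1) - θ x (y' + 1) = θ u' x + C - (θ y' x + C) by
      rw [k1, k2]; ring,
    show θ (u' + 1) (y' + 1) - θ x (y' + 1) = θ u' y' + C - (θ y' x + C) + (2 * e - 1) * Real.pi by
      rw [k2, k3]; ring] at h
  rw [show θ x (u' + 1) - θ x (y' + 1) = θ u' x + C - (θ y' x + C) by
      rw [k1, k2]; ring]
  rcases Int.even_or_odd e with he | he
  · refine ⟨he, ?_⟩
    have h6 := P5_std3 key.1 (h.2 he)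
    exact h6
  · exact absurd (h.1 he).2 (odd_std3 he key.2)

/-- the directions near a monotone point -/
theorem dr_mon (L : Loop c) (J : Inj c) (D : Dirn c θ) {z ρ : ℝ} (hρ : 0 < ρ) {w : ℂ}
    (M : MonW c w (z - ρ) (z + ρ)) : ∃ ρ' C, 0 < ρ' ∧ ρ' < ρ ∧
      Dr c θ w (z - ρ') (z + ρ') C (-(Real.pi / 2)) ∧
      ∀ x y, z - ρ' ≤ x → x < y → y ≤ z + ρ' → θ x y + C < Real.pi / 2 := by
  obtain ⟨ρ', h'⟩ : ∃ ρ', ρ' = min (ρ / 2) (1 / 5) := ⟨_, rfl⟩
  have p0 : 0 < ρ' := by rw [h']; positivity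
  have p1 : ρ' ≤ ρ / 2 := by rw [h']; exact min_le_left _ _
  have p2 : ρ' ≤ 1 / 5 := by rw [h']; exact min_le_right _ _
  have w0 := M.ne (by linarith)
  obtain ⟨C, hC⟩ := dr_of L J D w0 (a := -(Real.pi / 2)) (α := Real.pi / 2) (by ring) kdn
    (lo := z - ρ') (hi := z + ρ') (by linarith) (by linarith) (fun x y h1 h2 h3 => by
      apply slit_dn
      left
      exact (M x y (by linarith) h2 (by linarith)).ne')
  refine ⟨ρ', C, p0, by linarith, hC, fun x y h1 h2 h3 => ?_⟩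
  obtain ⟨σ, hσ, e⟩ := hC.pol x y h1 h2 h3
  refine cos_rng (hC.lo x y h1 h2 h3) (by linarith [hC.hi x y h1 h2 h3]) ?_
  have e1 := re_polar e
  have := M x y (by linarith) h2 (by linarith)
  exact (mul_pos_iff_of_pos_left hσ).1 (by linarith)

theorem mon_SE (L : Loop c) (J : Inj c) (nosq : NoSq (range c)) (D : Dirn c θ) {e : ℤ} {z : ℝ}
    (h : Mon c z) : ShortC c Rp (LbP (Pe e) c θ) z := by
  obtain ⟨ρ, hρ, w, M⟩ := h.win
  obtain ⟨ρ', C, p0, p1, hC, hC2⟩ := dr_mon L J D hρ M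
  refine ⟨z - ρ', z + ρ', 1 / 2, by linarith, by linarith, by norm_num, fun δ T hd F hs => ?_⟩
  obtain ⟨x, u, h1, h2, h3, h4, h5, h6, h7, h8⟩ := F.short hd hs
  obtain ⟨b1, b2, b3⟩ := mon_short L J nosq D F.δ0 h7 M
    (by show z - ρ < x; linarith) (by show x + δ < z + ρ; linarith)
  obtain ⟨a1, a2⟩ := lab_SR D (t := z - ρ') hC (fun x y i1 i2 i3 => by exfalso; linarith)
    (fun x y i1 i2 i3 => hC2 x y i1 i2 i3) h1.le h2 h3 h4.le (by linarith) h5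
  exact LbP_of L J nosq D F h7 h8 ⟨fun _ => ⟨a1, a2⟩, fun _ => Or.inl ⟨b1, a2, b2, b3⟩⟩

theorem mon_LE (L : Loop c) (J : Inj c) (nosq : NoSq (range c)) (D : Dirn c θ) {e : ℤ}
    (hκ : Kap θ e)
    (hR : ∀ x y u, Rp (c x) (c y) (c u) → ∃ n : ℤ, n ≠ 0 ∧ IsWc c (c y + I * (c y - c x)) n)
    {z : ℝ} (h : Mon c z) : LongC c Rp (LbP (Pe e) c θ) z := by
  obtain ⟨zL, zR, d, z1, z2, hd0, hmon⟩ := mon_L L J nosq D hR h
  obtain ⟨ρ, hρ, w, M⟩ := h.win
  obtain ⟨ρ', C, p0, p1, hC, hC2⟩ := dr_mon L J D hρ M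
  obtain ⟨A, hA⟩ : ∃ A, A = max zL (z - ρ') := ⟨_, rfl⟩
  obtain ⟨B, hB⟩ : ∃ B, B = min zR (z + ρ') := ⟨_, rfl⟩
  have A1 : zL ≤ A := by rw [hA]; exact le_max_left _ _
  have A2 : z - ρ' ≤ A := by rw [hA]; exact le_max_right _ _
  have B1 : B ≤ zR := by rw [hB]; exact min_le_left _ _
  have B2 : B ≤ z + ρ' := by rw [hB]; exact min_le_right _ _
  refine ⟨A, B, min d (1 / 2), by rw [hA]; exact max_lt z1 (by linarith),
    by rw [hB]; exact lt_min z2 (by linarith), lt_min hd0 (by norm_num),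
    fun δ T hd F hs hQ => ?_⟩
  have d1 : δ < d := hd.trans_le (min_le_left _ _)
  have d2 : δ < 1 / 2 := hd.trans_le (min_le_right _ _)
  have d0 := F.δ0
  have hs' : ∃ p ∈ T, p.2 = 1 - δ ∧ ∃ x u : ℝ, (x : AddCircle (1 : ℝ)) = p.1 ∧ x < u ∧
      u < x + (1 - δ) ∧ c u = c x + I * (c (x + (1 - δ)) - c x) ∧
      Rp (c x) (c (x + (1 - δ))) (c u) ∧ ((zL < x - δ ∧ u < zR) ∨ (zL < u - 1 ∧ x < zR)) := by
    obtain ⟨p, i1, i2, x, u, i3, i4, i5, i6, i7, i8⟩ := hs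
    refine ⟨p, i1, i2, x, u, i3, i4, i5, i6, i7, ?_⟩
    rcases i8 with i8 | i8
    · left; exact ⟨by linarith [i8.1], by linarith [i8.2]⟩
    · right; exact ⟨by linarith [i8.1], by linarith [i8.2]⟩
  obtain ⟨x, u, h1, h2, h3, h4, h5, h6, h7⟩ := F.long d2 hs
  refine hmon δ T d1 F hs' ?_
  have hq := hQ x _ h6 h7
  have ex : x + (1 - δ) = (x - δ) + 1 := by ring
  unfold l1 l2 at hq
  simp only at hq
  rcases h5 with ⟨g1, g2⟩ | ⟨g1, g2⟩
  · rw [ex] at h2 h3 hq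
    obtain ⟨-, f1, f2, f3⟩ := lab_L2R L D hκ (t := z - ρ') hC
      (fun x y i1 i2 i3 => by exfalso; linarith)
      (fun x y i1 i2 i3 => hC2 x y i1 i2 i3) (by linarith) (by linarith) h1 (by linarith) h2 h3 hq
    rw [← ex] at f1
    exact Lb_of L J nosq D F h6 h7 f1 f2 f3
  · rw [ex] at h2 h3 hq
    rw [show u = (u - 1) + 1 by ring] at h2 h3 hq
    obtain ⟨-, f1, f2, f3⟩ := lab_L3R L D hκ (t := z - ρ') hC
      (fun x y i1 i2 i3 => by exfalso; linarith)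
      (fun x y i1 i2 i3 => hC2 x y i1 i2 i3) (by linarith) (by linarith) (by linarith)
      (by linarith) (by linarith) h3 hq
    rw [← ex, show (u - 1) + 1 = u by ring] at f1
    rw [show (u - 1) + 1 = u by ring] at f2 f3
    exact Lb_of L J nosq D F h6 h7 f1 f2 f3

end Pool.Agent.Run7.h564
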