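import Pool.Agent.Run7.h564.TipL

/-! Outward cusps with Lipschitz branches. -/

set_option autoImplicit false
open Complex Set Topology Metric Filter
open scoped ComplexConjugate

namespace Pool.Agent.Run7.h564

open Pool.Agent.H763R2 Pool.Agent.H763R2.An
open Pool.Agent.H763R2.Dm (NoSq)
open Pool.Agent.Y765.Sq (Ann exists_int exists_rep TriM tri_fam)
open Pool.Agent.N335.Hg

variable {c : ℝ → ℂ} {Rp : ℂ → ℂ → ℂ → Prop} {θ : ℝ → ℝ → ℝ} {In : ℂ → Prop}

/-- outward cusp -/
def OutC (c : ℝ → ℂ) (In : ℂ → Prop) (t : ℝ) : Prop :=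
  ∃ (lam ρ : ℝ) (w : ℂ) (f g : ℝ → ℝ), 0 ≤ lam ∧ lam ^ 2 + 2 * lam < 1 ∧ 0 < ρ ∧ w ≠ 0 ∧
    (∀ x y, |f x - f y| ≤ lam * |x - y|) ∧ (∀ x y, |g x - g y| ≤ lam * |x - y|) ∧
    (∀ s s', t - ρ ≤ s → s < s' → s' ≤ t → (w * (c s' - c t)).re < (w * (c s - c t)).re) ∧
    (∀ s s', t ≤ s → s < s' → s' ≤ t + ρ → (w * (c s - c t)).re < (w * (c s' - c t)).re) ∧
    (∀ s, t - ρ ≤ s → s ≤ t → (w * (c s - c t)).im = f (w * (c s - c t)).re) ∧
    (∀ s, t ≤ s → s ≤ t + ρ → (w * (c s - c t)).im = g (w * (c s - c t)).re) ∧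
    ∀ z, ‖z - c t‖ < ρ → In z → 0 < (w * (z - c t)).re ∧
      (f (w * (z - c t)).re - (w * (z - c t)).im) * (g (w * (z - c t)).re - (w * (z - c t)).im) < 0

theorem OutC.rev {t : ℝ} (h : OutC c In t) : OutC (fun s => c (-s)) In (-t) := by
  obtain ⟨lam, ρ, w, f, g, h1, h2, h3, h4, h5, h6, h7, h8, h9, h10, h11⟩ := h
  refine ⟨lam, ρ, w, g, f, h1, h2, h3, h4, h6, h5, ?_, ?_, ?_, ?_, ?_⟩
  · intro s s' a b d
    simp only [neg_neg]
    exact h8 _ _ (by linarith) (by linarith) (by linarith)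
  · intro s s' a b d
    simp only [neg_neg]
    exact h7 _ _ (by linarith) (by linarith) (by linarith)
  · intro s a b
    simp only [neg_neg]
    exact h10 _ (by linarith) (by linarith)
  · intro s a b
    simp only [neg_neg]
    exact h9 _ (by linarith) (by linarith)
  · intro z hz hi
    simp only [neg_neg] at hz ⊢
    obtain ⟨a, b⟩ := h11 z hz hi
    exact ⟨a, by rw [mul_comm]; exact b⟩

theorem OutC.conj {t : ℝ} (h : OutC c In t) :
    OutC (fun s => conj (c s)) (fun z => In (conj z)) t := by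
  obtain ⟨lam, ρ, w, f, g, h1, h2, h3, h4, h5, h6, h7, h8, h9, h10, h11⟩ := h
  have e : ∀ s, conj w * (conj (c s) - conj (c t)) = conj (w * (c s - c t)) := fun s => by
    rw [map_mul, map_sub]
  refine ⟨lam, ρ, conj w, fun x => -f x, fun x => -g x, h1, h2, h3, by rwa [ne_eq, map_eq_zero],
    ?_, ?_, ?_, ?_, ?_, ?_, ?_⟩
  · intro x y
    rw [show -f x - -f y = f y - f x by ring, abs_sub_comm x y]
    exact h5 y x
  · intro x y
    rw [show -g x - -g y = g y - g x by ring, abs_sub_comm x y]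
    exact h6 y x
  · intro s s' a b d
    simp only [e, conj_re]
    exact h7 _ _ a b d
  · intro s s' a b d
    simp only [e, conj_re]
    exact h8 _ _ a b d
  · intro s a b
    simp only [e, conj_re, conj_im]
    rw [h9 _ a b]
  · intro s a b
    simp only [e, conj_re, conj_im]
    rw [h10 _ a b]
  · intro z hz hi
    have e2 : conj w * (z - conj (c t)) = conj (w * (conj z - c t)) := by
      rw [map_mul, map_sub, conj_conj]
    have hz' : ‖conj z - c t‖ < ρ := by
      have : conj z - c t = conj (z - conj (c t)) := by rw [map_sub, conj_conj]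
      rw [this, RCLike.norm_conj]; exact hz
    obtain ⟨a, b⟩ := h11 _ hz' hi
    simp only [e2, conj_re, conj_im]
    refine ⟨a, ?_⟩
    linarith

theorem OutC.tip (L : Loop c) (J : Inj c) {t : ℝ} (h : OutC c In t) :
    ∃ w r X lam f g, Tip c w t r X lam f g ∧ ((∀ x, 0 < x → x ≤ X → g x < f x) ∨
      ((∀ x, 0 < x → x ≤ X → f x < g x) ∧ ∀ Rp : ℂ → ℂ → ℂ → Prop,
        (∀ x y u, Rp (c x) (c y) (c u) → In (c y + I * (c y - c x))) → Btw c Rp w t r f g)) := by
  obtain ⟨lam, ρ, w, f, g, h1, h2, h3, h4, h5, h6, h7, h8, h9, h10, h11⟩ := h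
  obtain ⟨ρ₁, hρ₁⟩ : ∃ ρ₁, ρ₁ = min ρ (1 / 5) := ⟨_, rfl⟩
  have ρ0 : 0 < ρ₁ := by rw [hρ₁]; exact lt_min h3 (by norm_num)
  have ρa : ρ₁ ≤ ρ := by rw [hρ₁]; exact min_le_left _ _
  have ρb : ρ₁ ≤ 1 / 5 := by rw [hρ₁]; exact min_le_right _ _
  have z0 := mv_self c w t
  have z0' : w * (c t - c t) = 0 := by rw [sub_self, mul_zero]
  have cz : Continuous (mv c w t) := (mv_loop L w t).cont
  have p1 : 0 < (mv c w t (t - ρ₁)).re := by
    have := h7 (t - ρ₁) t (by linarith) (by linarith) le_rfl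
    rwa [z0', zero_re] at this
  have p2 : 0 < (mv c w t (t + ρ₁)).re := by
    have := h8 t (t + ρ₁) le_rfl (by linarith) (by linarith)
    rwa [z0', zero_re] at this
  obtain ⟨M, hM⟩ : ∃ M, M = min (mv c w t (t - ρ₁)).re (mv c w t (t + ρ₁)).re := ⟨_, rfl⟩
  have M0 : 0 < M := by rw [hM]; exact lt_min p1 p2
  have Ma : M ≤ (mv c w t (t - ρ₁)).re := by rw [hM]; exact min_le_left _ _
  have Mb : M ≤ (mv c w t (t + ρ₁)).re := by rw [hM]; exact min_le_right _ _
  have cre : Continuous fun s => (mv c w t s).re := continuous_re.comp cz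
  have hne : ∀ x, 0 < x → x ≤ M → f x ≠ g x := by
    intro x hx hx' hfg
    obtain ⟨s1, ⟨i1, i2⟩, i3⟩ : ∃ s ∈ Icc (t - ρ₁) t, (mv c w t s).re = x := by
      refine intermediate_value_Icc' (by linarith) cre.continuousOn ⟨?_, by linarith⟩
      rw [z0, zero_re]; exact hx.le
    obtain ⟨s2, ⟨j1, j2⟩, j3⟩ : ∃ s ∈ Icc t (t + ρ₁), (mv c w t s).re = x := by
      refine intermediate_value_Icc (by linarith) cre.continuousOn ⟨?_, by linarith⟩
      rw [z0, zero_re]; exact hx.le
    have e1 := h9 s1 (by linarith) i2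
    have e2 := h10 s2 j1 (by linarith)
    change (mv c w t s1).im = f (mv c w t s1).re at e1
    change (mv c w t s2).im = g (mv c w t s2).re at e2
    rw [i3] at e1
    rw [j3] at e2
    have e3 : mv c w t s1 = mv c w t s2 := Complex.ext (by rw [i3, j3]) (by rw [e1, e2, hfg])
    have e4 : c s1 = c s2 := by
      unfold mv at e3
      have := mul_left_cancel₀ h4 e3
      exact sub_left_inj.1 this
    have i4 : s1 < t := by
      refine lt_of_le_of_ne i2 fun hh => ?_
      rw [hh, z0, zero_re] at i3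
      linarith
    exact J s1 s2 (by linarith) (by linarith) e4
  have hLf : Lip lam f := h5
  have hLg : Lip lam g := h6
  have hsgn : (∀ x, 0 < x → x ≤ M → g x < f x) ∨ (∀ x, 0 < x → x ≤ M → f x < g x) := by
    have hpc : IsPreconnected (Ioc 0 M) := isPreconnected_Ioc
    rcases lt_or_gt_of_ne (hne M M0 le_rfl) with hh | hh
    · right
      intro x hx hx'
      rcases lt_or_gt_of_ne (hne x hx hx') with h' | h'
      · exact h'
      · exfalso
        obtain ⟨y, hy, hy'⟩ := hpc.intermediate_value₂ (a := M) (b := x) ⟨M0, le_rfl⟩ ⟨hx, hx'⟩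
          hLf.cont.continuousOn hLg.cont.continuousOn hh.le h'.le
        exact hne y hy.1 hy.2 hy'
    · left
      intro x hx hx'
      rcases lt_or_gt_of_ne (hne x hx hx') with h' | h'
      · exfalso
        obtain ⟨y, hy, hy'⟩ := hpc.intermediate_value₂ (a := x) (b := M) ⟨hx, hx'⟩ ⟨M0, le_rfl⟩
          hLf.cont.continuousOn hLg.cont.continuousOn h'.le hh.le
        exact hne y hy.1 hy.2 hy'
      · exact h'
  obtain ⟨η, η0, hη⟩ : ∃ η > 0, ∀ s, |s - t| < η → ‖mv c w t s‖ < M / 4 ∧ ‖c s - c t‖ < ρ / 4 := by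
    have e1 : ∀ᶠ s in 𝓝 t, ‖mv c w t s‖ < M / 4 := by
      have h1 : Tendsto (fun s => ‖mv c w t s‖) (𝓝 t) (𝓝 ‖mv c w t t‖) := cz.norm.tendsto t
      rw [z0, norm_zero] at h1
      exact h1.eventually (gt_mem_nhds (by positivity))
    have e2 : ∀ᶠ s in 𝓝 t, ‖c s - c t‖ < ρ / 4 := by
      have h1 : Tendsto (fun s => ‖c s - c t‖) (𝓝 t) (𝓝 ‖c t - c t‖) :=
        (L.cont.sub continuous_const).norm.tendsto t
      rw [sub_self, norm_zero] at h1
      exact h1.eventually (gt_mem_nhds (by positivity))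
    obtain ⟨η, η0, h⟩ := Metric.eventually_nhds_iff.1 (e1.and e2)
    exact ⟨η, η0, fun s hs => h (by rwa [Real.dist_eq])⟩
  obtain ⟨r, hr⟩ : ∃ r, r = min (η / 2) ρ₁ := ⟨_, rfl⟩
  have r0 : 0 < r := by rw [hr]; exact lt_min (by linarith) ρ0
  have ra : r ≤ η / 2 := by rw [hr]; exact min_le_left _ _
  have rb : r ≤ ρ₁ := by rw [hr]; exact min_le_right _ _
  have near : ∀ s, t - r ≤ s → s ≤ t + r → ‖mv c w t s‖ < M / 4 ∧ ‖c s - c t‖ < ρ / 4 :=
    fun s a b => hη s (by rw [abs_lt]; constructor <;> linarith)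
  refine ⟨w, r, M, lam, f, g, ⟨h4, r0, by linarith, h1, h2, hLf, hLg, ?_, ?_, ?_, ?_, ?_⟩, ?_⟩
  · exact fun s s' a b d => h7 s s' (by linarith) b d
  · exact fun s s' a b d => h8 s s' a b (by linarith)
  · exact fun s a b => h9 s (by linarith) b
  · exact fun s a b => h10 s a (by linarith)
  · intro s a b
    have := re_le_norm (mv c w t s)
    linarith [(near s a b).1]
  rcases hsgn with hh | hh
  · exact Or.inl hh
  refine Or.inr ⟨hh, fun Rp hRp => ?_⟩
  intro x y u a1 a2 b1 b2 d1 d2 hR V hV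
  have hIn := hRp x y u hR
  obtain ⟨zz, hzz⟩ : ∃ zz, zz = c y + I * (c y - c x) := ⟨_, rfl⟩
  rw [← hzz] at hIn
  have e : w * (zz - c t) = V := by rw [hV, hzz]; unfold mv; ring
  have nz : ‖zz - c t‖ < ρ := by
    have e5 : zz - c t = (c y - c t) + I * ((c y - c t) - (c x - c t)) := by rw [hzz]; ring
    have n1 := norm_add_le (c y - c t) (I * ((c y - c t) - (c x - c t)))
    have n2 := norm_sub_le (c y - c t) (c x - c t)
    rw [norm_mul, norm_I, one_mul] at n1
    rw [e5]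
    linarith [(near x a1 a2).2, (near y b1 b2).2]
  have nV : V.re ≤ M := by
    have n0 := re_le_norm V
    have n1 := norm_add_le (mv c w t y) (I * (mv c w t y - mv c w t x))
    have n2 := norm_sub_le (mv c w t y) (mv c w t x)
    rw [norm_mul, norm_I, one_mul] at n1
    rw [← hV] at n1
    linarith [(near x a1 a2).1, (near y b1 b2).1]
  obtain ⟨k1, k2⟩ := h11 zz nz hIn
  rw [e] at k1 k2
  have k3 := hh V.re k1 nV
  refine ⟨k1, ?_, ?_⟩
  · by_contra hc
    push Not at hc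
    have := mul_nonneg (sub_nonneg.2 hc) (show 0 ≤ g V.re - V.im by linarith)
    linarith
  · by_contra hc
    push Not at hc
    have := mul_nonneg_of_nonpos_of_nonpos (show f V.re - V.im ≤ 0 by linarith) (sub_nonpos.2 hc)
    linarith

section

variable {w : ℂ} {t r X lam : ℝ} {inn out : ℝ → ℝ}

theorem left_S (P : Tip c w t r X lam inn out) (hL : ∀ x, 0 ≤ x → x ≤ X → out x ≤ inn x)
    {Q : ℝ → Set Ann → Prop} : ShortC c Rp Q t := by
  have r0 := P.r0
  refine ⟨t - r, t + r, 1 / 2, by linarith, by linarith, by norm_num, fun δ T hd F hs => ?_⟩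
  obtain ⟨x, u, h1, h2, h3, h4, h5, h6, h7, h8⟩ := F.short hd hs
  exact (P.no_left hL (by linarith) (by linarith) (by linarith) (by linarith) (by linarith)
    (by linarith) (Or.inl ⟨h2, h3⟩) (mv_rel h5)).elim

theorem left_L (L : Loop c) (P : Tip c w t r X lam inn out)
    (hL : ∀ x, 0 ≤ x → x ≤ X → out x ≤ inn x) {Q : ℝ → Set Ann → Prop} : LongC c Rp Q t := by
  have r0 := P.r0
  refine ⟨t - r, t + r, 1 / 2, by linarith, by linarith, by norm_num, fun δ T hd F hs hQ => ?_⟩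
  have d0 := F.δ0
  obtain ⟨x, u, h1, h2, h3, h4, h5, h6, h7⟩ := F.long hd hs
  have e : c (x + (1 - δ)) = c (x - δ) := by
    rw [← L.per (x - δ)]; congr 1; ring
  have eu : c u = c (u - 1) := by
    rw [← L.per (u - 1)]; congr 1; ring
  rw [e] at h3
  rcases h5 with ⟨g1, g2⟩ | ⟨g1, g2⟩
  · exact P.no_left hL (by linarith) (by linarith) (by linarith) (by linarith) (by linarith)
      (by linarith) (Or.inr (Or.inl ⟨by linarith, h1⟩)) (mv_rel h3)
  · rw [eu] at h3
    exact P.no_left hL (x := x) (u := u - 1) (y := x - δ) (by linarith) (by linarith)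
      (by linarith) (by linarith) (by linarith)
      (by linarith) (Or.inr (Or.inr ⟨by linarith, by linarith⟩)) (mv_rel h3)

end

theorem out_SL (L : Loop c) (J : Inj c) (nosq : NoSq (range c)) {t : ℝ} (h : OutC c In t)
    (hR : ∀ x y u, Rp (c x) (c y) (c u) → ∃ n : ℤ, n ≠ 0 ∧ IsWc c (c y + I * (c y - c x)) n)
    (hI : ∀ x y u, Rp (c x) (c y) (c u) → In (c y + I * (c y - c x))) :
    ShortC c Rp (Lb c θ) t ∧ LongC c Rp (Lb c θ) t := by
  obtain ⟨w, r, X, lam, f, g, P, h⟩ := h.tip L J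
  rcases h with h | ⟨h, hB⟩
  · have hL : ∀ x, 0 ≤ x → x ≤ X → g x ≤ f x := by
      intro x hx hx'
      rcases eq_or_lt_of_le hx with h0 | h0
      · have r0 := P.r0
        have z0 := mv_self c w t
        have i0 := P.hin t (by linarith) le_rfl
        have o0 := P.hout t le_rfl (by linarith)
        rw [z0, zero_im, zero_re] at i0 o0
        rw [← h0, ← i0, ← o0]
      · exact (h x h0 hx').le
    exact ⟨left_S P hL, left_L L P hL⟩
  · exact ⟨tip_S L J P h (hB Rp hI), tip_L L J nosq P hR (hB Rp hI)⟩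

end Pool.Agent.Run7.h564
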