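import Pool.Agent.Run7.h564.Fold

/-! Directions of chords and directions seen from the fourth vertex as principal values. -/

set_option autoImplicit false
open Complex Set Topology Metric Filter
open scoped ComplexConjugate

namespace Pool.Agent.Run7.h564

open Pool.Agent.H763R2 Pool.Agent.H763R2.An
open Pool.Agent.H763R2.Dm (NoSq)
open Pool.Agent.Y765.Sq (Ann exists_int exists_rep TriM tri_fam)
open Pool.Agent.N335.Hg

variable {c : ℝ → ℂ} {θ : ℝ → ℝ → ℝ} {Rp : ℂ → ℂ → ℂ → Prop}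

/-- the direction of a point off a ray -/
noncomputable def ag (κ : ℂ) (α : ℝ) (v : ℂ) : ℝ := arg (κ * v) + α

theorem ag_polar {κ : ℂ} {α : ℝ} (hκ : exp (α * I) * κ = 1) (v : ℂ) :
    v = (‖v‖ : ℝ) * exp (ag κ α v * I) := by
  have hn : ‖κ‖ = 1 := by
    have := congrArg norm hκ
    rwa [norm_mul, norm_exp_ofReal_mul_I, one_mul, norm_one] at this
  have h1 := norm_mul_exp_arg_mul_I (κ * v)
  rw [norm_mul, hn, one_mul] at h1
  unfold ag
  push_cast
  rw [add_mul, exp_add, ← mul_assoc, h1]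
  rw [show κ * v * exp (α * I) = (exp (α * I) * κ) * v by ring, hκ, one_mul]

theorem ag_lt {κ v : ℂ} {α : ℝ} (h : κ * v ∈ slitPlane) :
    α - Real.pi < ag κ α v ∧ ag κ α v < α + Real.pi := by
  unfold ag
  have h1 := mem_slitPlane_iff_arg.1 h
  have h2 := neg_pi_lt_arg (κ * v)
  have h3 := arg_le_pi (κ * v)
  have h4 : arg (κ * v) < Real.pi := lt_of_le_of_ne h3 h1.1
  constructor <;> linarith

theorem kdn : exp (((Real.pi / 2 : ℝ) : ℂ) * I) * (-I) = 1 := by
  push_cast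
  rw [exp_pi_div_two_mul_I]
  simp

theorem kup : exp (((-(Real.pi / 2) : ℝ) : ℂ) * I) * I = 1 := by
  push_cast
  rw [neg_mul, exp_neg, exp_pi_div_two_mul_I]
  simp

theorem kup' : exp (((3 * Real.pi / 2 : ℝ) : ℂ) * I) * I = 1 := by
  have : (((3 * Real.pi / 2 : ℝ) : ℂ)) * I = Real.pi * I + Real.pi / 2 * I := by
    push_cast; ring
  rw [this, exp_add, exp_pi_mul_I, exp_pi_div_two_mul_I]
  simp

theorem slit_dn {v : ℂ} (h : v.re ≠ 0 ∨ 0 < v.im) : -I * v ∈ slitPlane := by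
  rw [mem_slitPlane_iff]
  simp only [neg_mul, neg_re, mul_re, I_re, I_im, neg_im, mul_im]
  rcases h with h | h
  · right
    intro h0
    apply h
    linarith
  · left
    linarith

theorem slit_up {v : ℂ} (h : v.re ≠ 0 ∨ v.im < 0) : I * v ∈ slitPlane := by
  rw [mem_slitPlane_iff]
  simp only [mul_re, I_re, I_im, mul_im]
  rcases h with h | h
  · right
    intro h0
    apply h
    linarith
  · left
    linarith

theorem ag_cont {κ : ℂ} {α : ℝ} {X : Type*} [TopologicalSpace X] {f : X → ℂ} {A : Set X}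
    (hf : ContinuousOn f A) (h : ∀ x ∈ A, κ * f x ∈ slitPlane) :
    ContinuousOn (fun x => ag κ α (f x)) A := by
  unfold ag
  refine ContinuousOn.add (fun x hx => ?_) continuousOn_const
  exact ContinuousAt.comp_continuousWithinAt (g := arg) (continuousAt_arg (h x hx))
    ((continuousOn_const.mul hf) x hx)

/-- the directions of the chords in a window -/
theorem dir_const (L : Loop c) (D : Dirn c θ) {w κ : ℂ} (w0 : w ≠ 0) {α lo hi : ℝ}
    (hκ : exp (α * I) * κ = 1) (h1 : lo < hi) (h2 : hi < lo + 1)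
    (h : ∀ x y, lo ≤ x → x < y → y ≤ hi → κ * (w * (c y - c x)) ∈ slitPlane) :
    ∃ C, ∀ x y, lo ≤ x → x < y → y ≤ hi → θ x y + C = ag κ α (w * (c y - c x)) := by
  have cc := L.cont
  obtain ⟨lw, hlw⟩ : ∃ v, exp v = w := ⟨log w, exp_log w0⟩
  obtain ⟨A, hA⟩ : ∃ A : Set (ℝ × ℝ), A = {p | lo ≤ p.1 ∧ p.1 < p.2 ∧ p.2 ≤ hi} := ⟨_, rfl⟩
  have cA : Convex ℝ A := by
    have e : A = ({p : ℝ × ℝ | lo ≤ p.1}) ∩ ({p : ℝ × ℝ | p.1 < p.2} ∩ {p : ℝ × ℝ | p.2 ≤ hi}) := by
      rw [hA]; ext p; rfl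
    have c1 : Convex ℝ {p : ℝ × ℝ | lo ≤ p.1} := by
      intro p hp q hq a b ha hb hab
      simp only [mem_ofPred_eq] at hp hq ⊢
      simp only [Prod.fst_add, Prod.smul_fst, smul_eq_mul]
      have e1 := mul_le_mul_of_nonneg_left hp ha
      have e2 := mul_le_mul_of_nonneg_left hq hb
      have : lo = a * lo + b * lo := by rw [← add_mul, hab, one_mul]
      linarith
    have c2 : Convex ℝ {p : ℝ × ℝ | p.2 ≤ hi} := by
      intro p hp q hq a b ha hb hab
      simp only [mem_ofPred_eq] at hp hq ⊢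
      simp only [Prod.snd_add, Prod.smul_snd, smul_eq_mul]
      have e1 := mul_le_mul_of_nonneg_left hp ha
      have e2 := mul_le_mul_of_nonneg_left hq hb
      have : hi = a * hi + b * hi := by rw [← add_mul, hab, one_mul]
      linarith
    have c3 : Convex ℝ {p : ℝ × ℝ | p.1 < p.2} := by
      intro p hp q hq a b ha hb hab
      simp only [mem_ofPred_eq] at hp hq ⊢
      simp only [Prod.fst_add, Prod.snd_add, Prod.smul_fst, Prod.smul_snd, smul_eq_mul]
      rcases eq_or_lt_of_le ha with h0 | h0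
      · have hb1 : b = 1 := by rw [← h0, zero_add] at hab; exact hab
        rw [← h0, hb1]; linarith
      · have e1 := mul_lt_mul_of_pos_left hp h0
        have e2 := mul_le_mul_of_nonneg_left hq.le hb
        linarith
    rw [e]
    exact c1.inter (c3.inter c2)
  have key := fun (x y : ℝ × ℝ) (hx : x ∈ A) (hy : y ∈ A) =>
    H777R2.exp_const_on (A := A) cA.isPreconnected
    (k := fun p => (((ag κ α (w * (c p.2 - c p.1)) - θ p.1 p.2 - lw.im : ℝ) : ℂ)) * I)
    (by
      refine ContinuousOn.mul ?_ continuousOn_const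
      refine continuous_ofReal.comp_continuousOn ?_
      refine ((ag_cont (by fun_prop) fun p hp => ?_).sub (D.cont.mono fun p hp => ?_)).sub
        continuousOn_const
      · rw [hA] at hp
        exact h p.1 p.2 hp.1 hp.2.1 hp.2.2
      · rw [hA] at hp
        exact ⟨hp.2.1, by show p.2 < p.1 + 1; linarith [hp.1, hp.2.2]⟩) (c := 1) (fun p hp => by
      rw [hA] at hp
      obtain ⟨p1, p2, p3⟩ := hp
      obtain ⟨ρ, hρ, e⟩ := D.ex p.1 p.2 p2 (by linarith)
      have e1 := ag_polar hκ (w * (c p.2 - c p.1))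
      have hne : w * (c p.2 - c p.1) ≠ 0 := by
        rw [e]
        exact mul_ne_zero w0 (mul_ne_zero (ofReal_ne_zero.2 hρ.ne') (exp_ne_zero _))
      have e2 : ((‖w * (c p.2 - c p.1)‖ : ℝ) : ℂ) * exp (ag κ α (w * (c p.2 - c p.1)) * I) =
          ((Real.exp lw.re * ρ : ℝ) : ℂ) * exp ((θ p.1 p.2 + lw.im : ℝ) * I) := by
        rw [← e1, e]
        nth_rewrite 1 [← hlw]
        nth_rewrite 1 [← re_add_im lw]
        push_cast
        rw [exp_add, add_mul, exp_add]
        ring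
      obtain ⟨n, hn⟩ := ang_eq (norm_pos_iff.2 hne) (mul_pos (Real.exp_pos _) hρ) e2
      rw [hn, exp_eq_one_iff]
      exact ⟨n, by push_cast; ring⟩) hx hy
  refine ⟨ag κ α (w * (c hi - c lo)) - θ lo hi, fun x y g1 g2 g3 => ?_⟩
  have h4 := key (x, y) (lo, hi) (by rw [hA]; exact ⟨g1, g2, g3⟩)
    (by rw [hA]; exact ⟨le_rfl, h1, le_rfl⟩)
  simp only at h4
  have h5 := mul_right_cancel₀ I_ne_zero h4
  have h6 : ag κ α (w * (c y - c x)) - θ x y - lw.im =
      ag κ α (w * (c hi - c lo)) - θ lo hi - lw.im := by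
    exact_mod_cast h5
  linarith

/-- the variation of the direction seen from a point as a difference of principal values -/
theorem Phi_ag (L : Loop c) {E w κ : ℂ} (hE : E ∉ range c) (w0 : w ≠ 0) {α lo hi : ℝ}
    (hκ : exp (α * I) * κ = 1) (h : ∀ s, lo ≤ s → s ≤ hi → κ * (w * (c s - E)) ∈ slitPlane)
    {s s' : ℝ} (h1 : lo ≤ s) (h2 : s ≤ hi) (h1' : lo ≤ s') (h2' : s' ≤ hi) :
    Phi c E s s' = ag κ α (w * (c s' - E)) - ag κ α (w * (c s - E)) := by
  have cc := L.cont
  obtain ⟨lw, hlw⟩ : ∃ v, exp v = w := ⟨log w, exp_log w0⟩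
  obtain ⟨k, hk, ek⟩ := exists_Lg L hE
  have key := fun (x y : ℝ) (hx : x ∈ Icc lo hi) (hy : y ∈ Icc lo hi) =>
    H777R2.exp_const_on (A := Icc lo hi) isPreconnected_Icc
    (k := fun s => (((ag κ α (w * (c s - E)) - (k s).im - lw.im : ℝ) : ℂ)) * I)
    (by
      refine ContinuousOn.mul ?_ continuousOn_const
      refine continuous_ofReal.comp_continuousOn ?_
      refine ((ag_cont (by fun_prop) fun p hp => h p hp.1 hp.2).sub (by fun_prop)).sub
        continuousOn_const) (c := 1) (fun p hp => by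
      have e1 := ag_polar hκ (w * (c p - E))
      have hne : w * (c p - E) ≠ 0 := by
        rw [← ek]
        exact mul_ne_zero w0 (exp_ne_zero _)
      have e2 : ((‖w * (c p - E)‖ : ℝ) : ℂ) * exp (ag κ α (w * (c p - E)) * I) =
          ((Real.exp lw.re * Real.exp (k p).re : ℝ) : ℂ) * exp (((k p).im + lw.im : ℝ) * I) := by
        rw [← e1, ← ek]
        nth_rewrite 1 [← hlw]
        nth_rewrite 1 [← re_add_im lw]
        nth_rewrite 1 [← re_add_im (k p)]
        push_cast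
        rw [exp_add, add_mul, exp_add, exp_add]
        ring
      obtain ⟨n, hn⟩ := ang_eq (norm_pos_iff.2 hne)
        (mul_pos (Real.exp_pos _) (Real.exp_pos _)) e2
      rw [hn, exp_eq_one_iff]
      exact ⟨n, by push_cast; ring⟩) hx hy
  have h4 := key s' s ⟨h1', h2'⟩ ⟨h1, h2⟩
  have h5 := mul_right_cancel₀ I_ne_zero h4
  have h6 : ag κ α (w * (c s' - E)) - (k s').im - lw.im =
      ag κ α (w * (c s - E)) - (k s).im - lw.im := by
    exact_mod_cast h5
  rw [Phi_eq ⟨hk, ek⟩, sub_im]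
  linarith

theorem ag_rel {κ z v m : ℂ} {α ρ T μ β : ℝ} (hκ : exp (α * I) * κ = 1) (hρ : 0 < ρ)
    (hμ : 0 < μ) (hv : v = ρ * exp (T * I)) (hm : m = μ * exp (β * I)) (hz : z = m * v) :
    ∃ j : ℤ, ag κ α z = T + β + j * (2 * Real.pi) := by
  have e1 := ag_polar hκ z
  have hne : z ≠ 0 := by
    rw [hz, hv, hm]
    exact mul_ne_zero (mul_ne_zero (ofReal_ne_zero.2 hμ.ne') (exp_ne_zero _))
      (mul_ne_zero (ofReal_ne_zero.2 hρ.ne') (exp_ne_zero _))
  refine ang_eq (ρ₂ := μ * ρ) (norm_pos_iff.2 hne) (mul_pos hμ hρ) ?_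
  rw [← e1, hz, hv, hm]
  push_cast
  rw [add_mul, exp_add]
  ring

/-- the directions of the three vertices seen from the fourth vertex -/
theorem psi_rel {κ w : ℂ} {α ρ T : ℝ} (hκ : exp (α * I) * κ = 1) (hρ : 0 < ρ) {P Q V : ℂ}
    (hv : w * (P - Q) = ρ * exp (T * I)) (hV : V = P + I * (Q - P)) :
    (∃ j : ℤ, ag κ α (w * (P - (Q + I * (Q - P)))) = T + Real.pi / 4 + j * (2 * Real.pi)) ∧
    (∃ j : ℤ, ag κ α (w * (V - (Q + I * (Q - P)))) = T + j * (2 * Real.pi)) ∧
    (∃ j : ℤ, ag κ α (w * (Q - (Q + I * (Q - P)))) = T + Real.pi / 2 + j * (2 * Real.pi)) := by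
  refine ⟨ag_rel hκ hρ (μ := √2) (by positivity) hv (m := 1 + I) one_add_I (by ring), ?_,
    ag_rel hκ hρ (μ := 1) one_pos hv (m := I) ?_ (by ring)⟩
  · obtain ⟨j, hj⟩ := ag_rel (z := w * (V - (Q + I * (Q - P)))) hκ hρ (μ := 1) (β := 0) one_pos hv
      (m := 1) (by simp) (by rw [hV]; ring)
    exact ⟨j, by rw [hj]; ring⟩
  · push_cast
    rw [exp_pi_div_two_mul_I, one_mul]

end Pool.Agent.Run7.h564
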