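import Pool.Agent.Run7.h564.Core

/-! The labels at the points treated in `N335/Hg`. -/

set_option autoImplicit false
open Complex Set Topology Metric Filter
open scoped ComplexConjugate

namespace Pool.Agent.Run7.h564

open Pool.Agent.H763R2 Pool.Agent.H763R2.An
open Pool.Agent.H763R2.Dm (NoSq)
open Pool.Agent.Y765.Sq (Ann exists_int exists_rep TriM tri_fam)
open Pool.Agent.N335.Hg

variable {c : ℝ → ℂ} {θ : ℝ → ℝ → ℝ} {Rp : ℂ → ℂ → ℂ → Prop}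

/-- the labels of all members of the family are the standard ones -/
def Lb (c : ℝ → ℂ) (θ : ℝ → ℝ → ℝ) (δ : ℝ) (T : Set Ann) : Prop :=
  ∀ a', ∀ q ∈ Mm c δ a', (((q.1 : AddCircle (1 : ℝ)), q.2.1) : Ann) ∈ T →
    l1 θ q = Real.pi / 2 ∧ m1 c q = -(Real.pi / 4) ∧ m2 c q = Real.pi / 2

theorem Lb_of (L : Loop c) (J : Inj c) (nosq : NoSq (range c)) (D : Dirn c θ) {δ a : ℝ}
    {T : Set Ann} (F : Fm c Rp δ T) {q₀ : ℝ × ℝ × ℝ} (hq₀ : q₀ ∈ Mm c δ a)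
    (hT : (((q₀.1 : AddCircle (1 : ℝ)), q₀.2.1) : Ann) ∈ T)
    (e1 : l1 θ q₀ = Real.pi / 2) (e2 : m1 c q₀ = -(Real.pi / 4)) (e3 : m2 c q₀ = Real.pi / 2) :
    Lb c θ δ T :=
  labels_all L J nosq D F.δ0 F.pre F.ty.tyA hq₀ hT e1 e2 e3

theorem mkMm {δ x s u a : ℝ} (h1 : a ≤ x) (h2 : x ≤ a + 1) (h3 : δ ≤ s) (h4 : s ≤ 1 - δ)
    (h5 : x ≤ u) (h6 : u ≤ x + s) (h7 : c u = c x + I * (c (x + s) - c x)) :
    (x, s, u) ∈ Mm c δ a := ⟨⟨h1, h2⟩, ⟨h3, h4⟩, h5, h6, h7⟩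

theorem memT {T : Set Ann} {x s : ℝ} {p : Ann} (hp : p ∈ T) (h1 : (x : AddCircle (1 : ℝ)) = p.1)
    (h2 : p.2 = s) : (((x : AddCircle (1 : ℝ)), s) : Ann) ∈ T := by
  have : (((x : AddCircle (1 : ℝ)), s) : Ann) = p := Prod.ext h1 h2.symm
  rw [this]; exact hp

/-- the short member as a triple -/
theorem Fm.short {δ : ℝ} {T : Set Ann} (F : Fm c Rp δ T) (hδ : δ < 1 / 2) {zL zR : ℝ}
    (h : ∃ p ∈ T, p.2 = δ ∧ ∃ x : ℝ, (x : AddCircle (1 : ℝ)) = p.1 ∧ zL < x ∧ x + δ < zR) :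
    ∃ x u, zL < x ∧ x < u ∧ u < x + δ ∧ x + δ < zR ∧ c u = c x + I * (c (x + δ) - c x) ∧
      Rp (c x) (c (x + δ)) (c u) ∧ (x, δ, u) ∈ Mm c δ x ∧
      (((x : AddCircle (1 : ℝ)), δ) : Ann) ∈ T := by
  obtain ⟨p, hp, hp2, x, hx, x1, x2⟩ := h
  obtain ⟨d1, d2, hall⟩ := F.ty p hp
  obtain ⟨u, u1, u2, u3, u4⟩ := hall x hx
  rw [hp2] at u2 u3 u4
  exact ⟨x, u, x1, u1, u2, x2, u3, u4, mkMm le_rfl (by linarith) le_rfl (by linarith) u1.le u2.le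
    u3, memT hp hx hp2⟩

/-- the long member as a triple -/
theorem Fm.long {δ : ℝ} {T : Set Ann} (F : Fm c Rp δ T) (hδ : δ < 1 / 2) {zL zR : ℝ}
    (h : ∃ p ∈ T, p.2 = 1 - δ ∧ ∃ x u : ℝ, (x : AddCircle (1 : ℝ)) = p.1 ∧ x < u ∧
      u < x + (1 - δ) ∧ c u = c x + I * (c (x + (1 - δ)) - c x) ∧
      Rp (c x) (c (x + (1 - δ))) (c u) ∧ ((zL < x - δ ∧ u < zR) ∨ (zL < u - 1 ∧ x < zR))) :
    ∃ x u, x < u ∧ u < x + (1 - δ) ∧ c u = c x + I * (c (x + (1 - δ)) - c x) ∧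
      Rp (c x) (c (x + (1 - δ))) (c u) ∧ ((zL < x - δ ∧ u < zR) ∨ (zL < u - 1 ∧ x < zR)) ∧
      (x, 1 - δ, u) ∈ Mm c δ x ∧ (((x : AddCircle (1 : ℝ)), 1 - δ) : Ann) ∈ T := by
  obtain ⟨p, hp, hp2, x, u, hx, x1, x2, x3, x4, x5⟩ := h
  have := F.δ0
  exact ⟨x, u, x1, x2, x3, x4, x5, mkMm le_rfl (by linarith) (by linarith) le_rfl x1.le x2.le
    x3, memT hp hx hp2⟩

theorem mon_S (L : Loop c) (J : Inj c) (nosq : NoSq (range c)) (D : Dirn c θ) {z : ℝ}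
    (h : Mon c z) : ShortC c Rp (Lb c θ) z := by
  obtain ⟨ρ, hρ, w, M⟩ := h.win
  refine ⟨z - ρ, z + ρ, 1 / 2, by linarith, by linarith, by norm_num, fun δ T hd F hs => ?_⟩
  obtain ⟨x, u, h1, h2, h3, h4, h5, h6, h7, h8⟩ := F.short hd hs
  obtain ⟨b1, b2, b3⟩ := mon_short L J nosq D F.δ0 h7 M h1 h4
  exact Lb_of L J nosq D F h7 h8 b1 b2 b3

theorem mon_L (L : Loop c) (J : Inj c) (nosq : NoSq (range c)) (D : Dirn c θ)
    (hR : ∀ x y u, Rp (c x) (c y) (c u) → ∃ n : ℤ, n ≠ 0 ∧ IsWc c (c y + I * (c y - c x)) n)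
    {Z : ℝ} (h : Mon c Z) : LongC c Rp (Lb c θ) Z := by
  have cc := L.cont
  obtain ⟨r, hr, w', M'⟩ := h.win
  obtain ⟨d, hd, hfar⟩ := far_pos L J (t := Z) hr
  have hev : ∀ᶠ s in 𝓝 Z, 4 * ‖c s - c Z‖ < d := by
    have h0 : Tendsto (fun s => 4 * ‖c s - c Z‖) (𝓝 Z) (𝓝 (4 * ‖c Z - c Z‖)) :=
      (Continuous.tendsto (by fun_prop) Z)
    rw [sub_self, norm_zero, mul_zero] at h0
    exact h0.eventually (gt_mem_nhds hd)
  obtain ⟨η, η0, hη⟩ := Metric.eventually_nhds_iff.1 hev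
  obtain ⟨m, hm⟩ : ∃ m, m = min η r := ⟨_, rfl⟩
  have m0 : 0 < m := by rw [hm]; exact lt_min η0 hr
  have m1' : m ≤ η := by rw [hm]; exact min_le_left _ _
  have m2' : m ≤ r := by rw [hm]; exact min_le_right _ _
  have near : ∀ s, Z - m < s → s < Z + m → 4 * ‖c s - c Z‖ < d := fun s a b =>
    hη (by rw [Real.dist_eq, abs_lt]; constructor <;> linarith)
  refine ⟨Z - m, Z + m, 1 / 2, by linarith, by linarith, by norm_num, fun δ T hd' F hs hQ => ?_⟩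
  obtain ⟨x, u, h1, h2, h3, h4, h5, h6, h7⟩ := F.long hd' hs
  have d0 := F.δ0
  obtain ⟨b1, b2, b3⟩ := hQ x _ h6 h7
  rcases h5 with ⟨g1, g2⟩ | ⟨g1, g2⟩
  · have e : c (x + (1 - δ)) = c (x - δ) := by
      rw [← L.per (x - δ)]; congr 1; ring
    refine mon_long2 L J nosq D d0 h6 M' (by show Z - r < x + (1 - δ) - 1; linarith)
      (by show u < Z + r; linarith) (t := Z) (d := d)
      (fun σ k1 k2 => hfar σ k1 (by linarith)) (near x (by linarith) (by linarith)) ?_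
      (near u (by linarith) (by linarith)) ⟨b1, b3⟩
    show 4 * ‖c (x + (1 - δ)) - c Z‖ < d
    rw [e]
    exact near _ (by linarith) (by linarith)
  · obtain ⟨n, hn, hw⟩ := hR _ _ _ h4
    exact mon_long3 L J nosq d0 h6 M' (by show Z - r < u - 1; linarith)
      (by show x < Z + r; linarith) hn hw b2

theorem hour_S (L : Loop c) (J : Inj c) {Q : ℝ → Set Ann → Prop} {z : ℝ} (h : Hourglass c z) :
    ShortC c Rp Q z := by
  obtain ⟨zL, zR, d, z1, z2, hd, hloc⟩ := hour_thm L J h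
  refine ⟨zL, zR, 1 - d, z1, z2, by linarith, fun δ T hd' F hs => ?_⟩
  exfalso
  obtain ⟨p, hp, hp2, x, hx, x1, x2⟩ := hs
  obtain ⟨q, hq, hq2⟩ := F.lo
  have := hloc δ T F.δ0 F.pre F.ty.tyA ⟨p, hp, x, hx, x1, by rw [hp2]; exact x2⟩ q hq
  rw [hq2] at this
  linarith

theorem hour_L (L : Loop c) (J : Inj c) {Q : ℝ → Set Ann → Prop} {z : ℝ} (h : Hourglass c z) :
    LongC c Rp Q z := by
  obtain ⟨zL, zR, d, z1, z2, hd, hloc⟩ := hour_long L J h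
  refine ⟨zL, zR, d, z1, z2, hd, fun δ T hd' F hs => ?_⟩
  exfalso
  obtain ⟨p, hp, hp2, x, u, hx, x1, x2, x3, -, x5⟩ := hs
  obtain ⟨q, hq, hq2⟩ := F.sh
  have := hloc δ T F.δ0 F.pre F.ty.tyA ⟨p, hp, x, u, hx, x1, by rw [hp2]; exact x2,
    by rw [hp2]; exact x3, by
      rw [hp2]
      rcases x5 with h | h
      · exact Or.inl ⟨by linarith [h.1], h.2⟩
      · exact Or.inr h⟩ q hq
  rw [hq2] at this
  linarith

theorem crn_S (L : Loop c) (J : Inj c) (nosq : NoSq (range c)) (D : Dirn c θ) {z : ℝ}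
    (h : Crn c z) : ShortC c Rp (Lb c θ) z := by
  obtain ⟨zL, zR, d, z1, z2, hd, hloc⟩ := crn_short L J nosq D h
  refine ⟨zL, zR, 1 - d, z1, z2, by linarith, fun δ T hd' F hs => ?_⟩
  obtain ⟨p, hp, hp2, x, hx, x1, x2⟩ := hs
  rcases hloc δ T F.δ0 F.pre F.ty.tyA ⟨p, hp, x, hx, x1, by rw [hp2]; exact x2⟩ with h |
    ⟨a', q₀, g1, g2, g3, g4, g5⟩
  · exfalso
    obtain ⟨q, hq, hq2⟩ := F.lo
    have := h q hq
    rw [hq2] at this
    linarith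
  · exact Lb_of L J nosq D F g1 g2 g3 g4 g5

theorem crn_L (L : Loop c) (J : Inj c) (nosq : NoSq (range c))
    (hR : ∀ x y u, Rp (c x) (c y) (c u) → ∃ n : ℤ, n ≠ 0 ∧ IsWc c (c y + I * (c y - c x)) n)
    {z : ℝ} (h : Crn c z) : LongC c Rp (Lb c θ) z := by
  obtain ⟨zL, zR, d, z1, z2, hd, hloc⟩ := crn_long L J nosq h
  refine ⟨zL, zR, d, z1, z2, hd, fun δ T hd' F hs hQ => ?_⟩
  obtain ⟨p, hp, hp2, x, u, hx, x1, x2, x3, -, x5⟩ := hs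
  rcases hloc δ T F.δ0 F.pre F.ty.tyA ⟨p, hp, x, u, hx, x1, by rw [hp2]; exact x2,
    by rw [hp2]; exact x3, by
      rw [hp2]
      rcases x5 with h | h
      · exact Or.inl ⟨by linarith [h.1], h.2⟩
      · exact Or.inr h⟩ with h | ⟨a', r, g1, g2, g3⟩
  · obtain ⟨q, hq, hq2⟩ := F.sh
    have := h q hq
    rw [hq2] at this
    linarith
  · obtain ⟨-, l2, l3⟩ := hQ a' r g1 g2
    obtain ⟨-, -, hall⟩ := F.ty _ g2
    obtain ⟨v, -, -, -, v4⟩ := hall r.1 rfl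
    obtain ⟨k, hk, hk'⟩ := hR _ _ _ v4
    exact g3 k hk hk' ⟨l2, l3⟩

theorem nop_S {Q : ℝ → Set Ann → Prop} {z : ℝ} (h : NoP c Rp z) : ShortC c Rp Q z := by
  obtain ⟨ε, hε, h⟩ := h
  refine ⟨z - ε, z + ε, 1 / 2, by linarith, by linarith, by norm_num, fun δ T hd F hs => ?_⟩
  obtain ⟨x, u, h1, h2, h3, h4, h5, h6, h7, h8⟩ := F.short hd hs
  have a : ∀ s, z - ε < s → s < z + ε → |s - z| < ε := fun s k1 k2 => by
    rw [abs_lt]; constructor <;> linarith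
  exact absurd h6 (h _ _ _ (a _ h1 (by linarith)) (a _ (by linarith) h4)
    (a _ (by linarith) (by linarith)))

theorem nop_L (L : Loop c) {Q : ℝ → Set Ann → Prop} {z : ℝ} (h : NoP c Rp z) :
    LongC c Rp Q z := by
  obtain ⟨ε, hε, h⟩ := h
  refine ⟨z - ε, z + ε, 1 / 2, by linarith, by linarith, by norm_num, fun δ T hd F hs hQ => ?_⟩
  have d0 := F.δ0
  obtain ⟨x, u, h1, h2, h3, h4, h5, h6, h7⟩ := F.long hd hs
  have a : ∀ s, z - ε < s → s < z + ε → |s - z| < ε := fun s k1 k2 => by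
    rw [abs_lt]; constructor <;> linarith
  have e : c (x + (1 - δ)) = c (x - δ) := by
    rw [← L.per (x - δ)]; congr 1; ring
  have e' : c u = c (u - 1) := by
    rw [← L.per (u - 1)]; congr 1; ring
  rcases h5 with ⟨g1, g2⟩ | ⟨g1, g2⟩
  · refine h x (x - δ) u (a _ (by linarith) (by linarith)) (a _ g1 (by linarith))
      (a _ (by linarith) g2) ?_
    rw [← e]; exact h4
  · refine h x (x - δ) (u - 1) (a _ (by linarith) (by linarith)) (a _ (by linarith) (by linarith))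
      (a _ (by linarith) (by linarith)) ?_
    rw [← e, ← e']; exact h4

end Pool.Agent.Run7.h564
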