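import Pool.Agent.Run7.h564.Std
import Pool.Agent.Run7.h564.Area

/-! Small triangles near a cusp of two Lipschitz graphs. -/

set_option autoImplicit false
open Complex Set Topology Metric Filter
open scoped ComplexConjugate

namespace Pool.Agent.Run7.h564

open Pool.Agent.H763R2 Pool.Agent.H763R2.An
open Pool.Agent.H763R2.Dm (NoSq)
open Pool.Agent.Y765.Sq (Ann exists_int exists_rep TriM tri_fam)
open Pool.Agent.N335.Hg

variable {c : ℝ → ℂ}

/-- two Lipschitz graphs to the right of the point `c t` -/
structure Tip (c : ℝ → ℂ) (w : ℂ) (t r X lam : ℝ) (inn out : ℝ → ℝ) : Prop where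
  w0 : w ≠ 0
  r0 : 0 < r
  r1 : r < 1 / 4
  l0 : 0 ≤ lam
  l1 : lam ^ 2 + 2 * lam < 1
  Li : Lip lam inn
  Lo : Lip lam out
  anti : ∀ s s', t - r ≤ s → s < s' → s' ≤ t → (mv c w t s').re < (mv c w t s).re
  mono : ∀ s s', t ≤ s → s < s' → s' ≤ t + r → (mv c w t s).re < (mv c w t s').re
  hin : ∀ s, t - r ≤ s → s ≤ t → (mv c w t s).im = inn (mv c w t s).re
  hout : ∀ s, t ≤ s → s ≤ t + r → (mv c w t s).im = out (mv c w t s).re
  hi : ∀ s, t - r ≤ s → s ≤ t + r → (mv c w t s).re ≤ X

theorem mv_self (c : ℝ → ℂ) (w : ℂ) (t : ℝ) : mv c w t t = 0 := by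
  unfold mv; rw [sub_self, mul_zero]

theorem perp {lam a b : ℝ} (h0 : 0 ≤ lam) (h1 : lam < 1) (ha : |a| ≤ lam * |b|)
    (hb : |b| ≤ lam * |a|) : a = 0 ∧ b = 0 := by
  have k1 := mul_le_mul_of_nonneg_left hb h0
  have k2 : |a| ≤ 0 := by nlinarith [abs_nonneg a, abs_nonneg b]
  have a0 : a = 0 := abs_nonpos_iff.1 k2
  have b0 : b = 0 := by
    rw [a0, abs_zero, mul_zero] at hb
    exact abs_nonpos_iff.1 hb
  exact ⟨a0, b0⟩

theorem arith {lam a b : ℝ} (h0 : 0 ≤ lam) (h1 : lam < 1) (ha : a ≤ lam * |b|)
    (hb : b ≤ lam * |a|) (hab : -b < a) : False := by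
  rcases le_or_gt a 0 with ha0 | ha0
  · rw [abs_of_nonpos ha0] at hb
    nlinarith
  · rw [abs_of_pos ha0] at hb
    rcases le_or_gt b 0 with hb0 | hb0
    · rw [abs_of_nonpos hb0] at ha
      nlinarith
    · rw [abs_of_pos hb0] at ha
      have := mul_le_mul_of_nonneg_left hb h0
      nlinarith

section

variable {w : ℂ} {t r X lam : ℝ} {inn out : ℝ → ℝ}

theorem Tip.lam1 (P : Tip c w t r X lam inn out) : lam < 1 := by
  have := P.l0
  have := P.l1
  nlinarith

theorem Tip.sin (P : Tip c w t r X lam inn out) {s s' : ℝ} (h1 : t - r ≤ s) (h2 : s ≤ t)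
    (h3 : t - r ≤ s') (h4 : s' ≤ t) : |(mv c w t s).im - (mv c w t s').im| ≤
      lam * |(mv c w t s).re - (mv c w t s').re| := by
  rw [P.hin s h1 h2, P.hin s' h3 h4]
  exact P.Li _ _

theorem Tip.sout (P : Tip c w t r X lam inn out) {s s' : ℝ} (h1 : t ≤ s) (h2 : s ≤ t + r)
    (h3 : t ≤ s') (h4 : s' ≤ t + r) : |(mv c w t s).im - (mv c w t s').im| ≤
      lam * |(mv c w t s).re - (mv c w t s').re| := by
  rw [P.hout s h1 h2, P.hout s' h3 h4]
  exact P.Lo _ _

theorem Tip.pos (P : Tip c w t r X lam inn out) {s : ℝ} (h1 : t - r ≤ s) (h2 : s ≤ t + r) :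
    0 ≤ (mv c w t s).re := by
  have h := mv_self c w t
  rcases lt_trichotomy s t with g | g | g
  · have := P.anti s t h1 g le_rfl
    rw [h, zero_re] at this
    exact this.le
  · rw [g, h, zero_re]
  · have := P.mono t s le_rfl g h2
    rw [h, zero_re] at this
    exact this.le

/-- if the incoming branch is the upper one: a point of the outgoing branch against one of the
incoming branch -/
theorem Tip.low (P : Tip c w t r X lam inn out) (hL : ∀ x, 0 ≤ x → x ≤ X → out x ≤ inn x)
    {s s' : ℝ} (h1 : t ≤ s) (h2 : s ≤ t + r) (h3 : t - r ≤ s') (h4 : s' ≤ t) :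
    (mv c w t s).im - (mv c w t s').im ≤ lam * |(mv c w t s).re - (mv c w t s').re| := by
  have hr := P.r0
  rw [P.hout s h1 h2, P.hin s' h3 h4]
  have := hL (mv c w t s').re (P.pos h3 (by linarith)) (P.hi s' h3 (by linarith))
  have := (abs_le.1 (P.Lo (mv c w t s).re (mv c w t s').re)).2
  linarith

/-- the relation between the coordinates of the vertices -/
theorem coords {R A B : ℂ} (h : A = R + I * (B - R)) :
    A.re - R.re = -(B.im - R.im) ∧ A.im - R.im = B.re - R.re := by
  rw [h]
  constructor <;> simp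

/-- the turn to the left: no triangles -/
theorem Tip.no_left (P : Tip c w t r X lam inn out)
    (hL : ∀ x, 0 ≤ x → x ≤ X → out x ≤ inn x) {x u y : ℝ} (hx : t - r ≤ x) (hx' : x ≤ t + r)
    (hu : t - r ≤ u) (hu' : u ≤ t + r) (hy : t - r ≤ y) (hy' : y ≤ t + r)
    (hord : (x < u ∧ u < y) ∨ (y < x ∧ x < u) ∨ (u < y ∧ y < x))
    (h : mv c w t u = mv c w t x + I * (mv c w t y - mv c w t x)) : False := by
  have l0 := P.l0
  have l1 := P.lam1
  obtain ⟨e1, e2⟩ := coords h
  obtain ⟨a, ha⟩ : ∃ a, a = (mv c w t y).re - (mv c w t x).re := ⟨_, rfl⟩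
  obtain ⟨b, hb⟩ : ∃ b, b = (mv c w t y).im - (mv c w t x).im := ⟨_, rfl⟩
  rw [← hb] at e1
  rw [← ha] at e2
  have eAB : (mv c w t y).re - (mv c w t u).re = a + b := by linarith
  -- all on one branch
  have one : |a| ≤ lam * |b| → |b| ≤ lam * |a| → a ≠ 0 ∨ b ≠ 0 → False := fun k1 k2 k3 => by
    obtain ⟨g1, g2⟩ := perp l0 l1 k1 k2
    rcases k3 with k | k
    · exact k g1
    · exact k g2
  have two : ∀ {p q : ℝ}, 0 < p → |q| ≤ lam * |p| → p ≤ lam * |q| → False := by
    intro p q hp k1 k2
    have k3 := mul_le_mul_of_nonneg_left k1 l0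
    rw [abs_of_pos hp] at k3
    have k4 : lam * p ≤ p := by nlinarith
    have k5 := mul_le_mul_of_nonneg_left k4 l0
    have k6 : lam * p < p := by nlinarith
    linarith
  rcases hord with ⟨o1, o2⟩ | ⟨o1, o2⟩ | ⟨o1, o2⟩
  · rcases le_total y t with g | g
    · -- all incoming
      have k1 := P.sin hu (by linarith) hx (by linarith)
      have k2 := P.sin hy g hx (by linarith)
      rw [e1, e2, abs_neg] at k1
      rw [← ha, ← hb] at k2
      have k3 := P.anti x u hx o1 (by linarith)
      exact one k1 k2 (Or.inr (by intro hb0; linarith))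
    · rcases le_total u t with g' | g'
      · have k1 := P.sin hu g' hx (by linarith)
        rw [e1, e2, abs_neg] at k1
        have k2 := P.low hL g hy' hx (by linarith)
        rw [← ha, ← hb] at k2
        have k3 := P.anti x u hx o1 g'
        exact two (p := b) (q := a) (by linarith) k1 k2
      · rcases le_total x t with g'' | g''
        · have k1 := P.low hL g' hu' hx g''
          rw [e1, e2, abs_neg] at k1
          have k2 := P.low hL g hy' hx g''
          rw [← ha, ← hb] at k2
          have k3 := P.mono u y g' o2 hy'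
          exact arith l0 l1 k1 k2 (by linarith)
        · have k1 := P.sout g' hu' g'' hx'
          have k2 := P.sout g hy' g'' hx'
          rw [e1, e2, abs_neg] at k1
          rw [← ha, ← hb] at k2
          have k3 := P.mono x u g'' o1 hu'
          exact one k1 k2 (Or.inr (by intro hb0; linarith))
  · rcases le_total u t with g | g
    · have k1 := P.sin hu g hx (by linarith)
      have k2 := P.sin hy (by linarith) hx (by linarith)
      rw [e1, e2, abs_neg] at k1
      rw [← ha, ← hb] at k2
      have k3 := P.anti x u hx o2 g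
      exact one k1 k2 (Or.inr (by intro hb0; linarith))
    · rcases le_total x t with g' | g'
      · have k1 := P.sin hy (by linarith) hx g'
        rw [← ha, ← hb] at k1
        have k2 := P.low hL g hu' hx g'
        rw [e1, e2, abs_neg] at k2
        have k3 := P.anti y x hy o1 g'
        exact two (p := a) (q := b) (by linarith) k1 k2
      · rcases le_total y t with g'' | g''
        · have k1 := P.sout g hu' g' hx'
          rw [e1, e2, abs_neg] at k1
          have k2 := P.low hL g' hx' hy g''
          rw [← neg_sub, ← neg_sub (mv c w t y).re, ← ha, ← hb, abs_neg] at k2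
          have k3 := P.mono x u g' o2 hu'
          refine two (p := -b) (q := a) (by linarith) ?_ k2
          rwa [abs_neg]
        · have k1 := P.sout g hu' g' hx'
          have k2 := P.sout g'' hy' g' hx'
          rw [e1, e2, abs_neg] at k1
          rw [← ha, ← hb] at k2
          have k3 := P.mono x u g' o2 hu'
          exact one k1 k2 (Or.inr (by intro hb0; linarith))
  · rcases le_total x t with g | g
    · have k1 := P.sin hu (by linarith) hx g
      have k2 := P.sin hy (by linarith) hx g
      rw [e1, e2, abs_neg] at k1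
      rw [← ha, ← hb] at k2
      have k3 := P.anti y x hy o2 g
      exact one k1 k2 (Or.inl (by intro ha0; linarith))
    · rcases le_total y t with g' | g'
      · have k1 := P.low hL g hx' hu (by linarith)
        have k2 := P.low hL g hx' hy g'
        rw [← neg_sub, ← neg_sub (mv c w t u).re, e1, e2, neg_neg] at k1
        rw [← neg_sub, ← neg_sub (mv c w t y).re, ← ha, ← hb, abs_neg] at k2
        have k3 := P.anti u y hu o1 g'
        refine arith (a := -a) (b := -b) l0 l1 ?_ ?_ (by linarith)
        · rwa [abs_neg]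
        · rwa [abs_neg]
      · rcases le_total u t with g'' | g''
        · have k1 := P.sout g' hy' g hx'
          rw [← ha, ← hb] at k1
          have k2 := P.low hL g hx' hu g''
          rw [← neg_sub, ← neg_sub (mv c w t u).re, e1, e2, neg_neg] at k2
          have k3 := P.mono y x g' o2 hx'
          refine two (p := -a) (q := b) (by linarith) ?_ k2
          rwa [abs_neg]
        · have k1 := P.sout g'' hu' g hx'
          have k2 := P.sout g' hy' g hx'
          rw [e1, e2, abs_neg] at k1
          rw [← ha, ← hb] at k2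
          have k3 := P.mono y x g' o2 hx'
          exact one k1 k2 (Or.inl (by intro ha0; linarith))

end

end Pool.Agent.Run7.h564
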