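import Pool.Agent.Run7.h564.TipS

/-! The cusp with the turn to the right: labels at the long end. -/

set_option autoImplicit false
open Complex Set Topology Metric Filter
open scoped ComplexConjugate

namespace Pool.Agent.Run7.h564

open Pool.Agent.H763R2 Pool.Agent.H763R2.An
open Pool.Agent.H763R2.Dm (NoSq)
open Pool.Agent.Y765.Sq (Ann exists_int exists_rep TriM tri_fam)
open Pool.Agent.N335.Hg

variable {c : ℝ → ℂ} {Rp : ℂ → ℂ → ℂ → Prop} {θ : ℝ → ℝ → ℝ}

theorem half (L : Loop c) {E V w : ℂ} {t : ℝ} (hE : E ∉ range c) (hV : V = w * (E - c t))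
    {s s' p q : ℝ} (hss : s ≤ s') (h : ∀ τ, s ≤ τ → τ ≤ s' →
      0 < p * ((mv c w t τ).re - V.re) - q * ((mv c w t τ).im - V.im)) :
    |Phi c E s s'| < Real.pi := by
  refine Phi_half L hE (w := ((p : ℂ) + q * I) * w) hss fun τ hτ => ?_
  have e : ((p : ℂ) + q * I) * w * (c τ - E) = ((p : ℂ) + q * I) * (mv c w t τ - V) := by
    rw [hV]; unfold mv; ring
  rw [e]
  have := h τ hτ.1 hτ.2
  simp only [mul_re, add_re, ofReal_re, ofReal_im, I_re, I_im, add_im, mul_im, sub_re, sub_im]
  linarith

theorem neg' (L : Loop c) {E V w : ℂ} {t : ℝ} (hE : E ∉ range c) (hV : V = w * (E - c t))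
    {s s' : ℝ} (h1 : |Phi c E s s'| < Real.pi)
    (h : ((mv c w t s').im - V.im) * ((mv c w t s).re - V.re) -
      ((mv c w t s').re - V.re) * ((mv c w t s).im - V.im) < 0) : Phi c E s s' < 0 := by
  refine phi_neg L hE h1 ?_
  have e : ((mv c w t s').im - V.im) * ((mv c w t s).re - V.re) -
      ((mv c w t s').re - V.re) * ((mv c w t s).im - V.im) =
      normSq w * ((c s' - E) * conj (c s - E)).im := by
    have e1 : mv c w t s' - V = w * (c s' - E) := by rw [hV]; unfold mv; ring
    have e2 : mv c w t s - V = w * (c s - E) := by rw [hV]; unfold mv; ring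
    rw [← sub_im, ← sub_re, ← sub_re, ← sub_im, e1, e2]
    simp only [mul_re, mul_im, conj_re, conj_im, normSq_apply]
    ring
  rw [e] at h
  by_contra hc
  push Not at hc
  have := mul_nonneg (normSq_nonneg w) hc
  linarith

section

variable {w : ℂ} {t r X lam : ℝ} {inn out : ℝ → ℝ}

theorem Tip.rein (P : Tip c w t r X lam inn out) {s s' : ℝ} (h1 : t - r ≤ s) (h : s ≤ s')
    (h2 : s' ≤ t) : (mv c w t s').re ≤ (mv c w t s).re := by
  rcases eq_or_lt_of_le h with h | h
  · rw [h]
  · exact (P.anti s s' h1 h h2).le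

theorem Tip.reout (P : Tip c w t r X lam inn out) {s s' : ℝ} (h1 : t ≤ s) (h : s ≤ s')
    (h2 : s' ≤ t + r) : (mv c w t s).re ≤ (mv c w t s').re := by
  rcases eq_or_lt_of_le h with h | h
  · rw [h]
  · exact (P.mono s s' h1 h h2).le

theorem Tip.ordL2 (L : Loop c) (P : Tip c w t r X lam inn out) {x u y a b : ℝ} {E V : ℂ}
    (hE : E ∉ range c) (hV : V = w * (E - c t)) (h0 : t - r ≤ y) (h1 : y < x) (h2 : x < u)
    (h3 : u ≤ t + r) (C : Co (mv c w t x) (mv c w t u) (mv c w t y) V a b) :
    |Phi c E y u| < Real.pi := by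
  have l0 := P.l0
  have l1 := P.lam1
  have hr := P.r0
  obtain ⟨a1, b1, a2, b2, a3, b3⟩ := C
  rcases le_total u t with g | g
  · exfalso
    have k1 := P.sin (s := u) (s' := x) (by linarith) (by linarith) (by linarith) (by linarith)
    have k2 := P.sin (s := y) (s' := x) (by linarith) (by linarith) (by linarith) (by linarith)
    rw [a2, b2, add_sub_cancel_left, sub_sub_cancel_left, abs_neg] at k1
    rw [a1, b1, add_sub_cancel_left, add_sub_cancel_left] at k2
    have k3 := P.anti x u (by linarith) h2 (by linarith)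
    obtain ⟨g1, g2⟩ := perp l0 l1 k1 k2
    rw [a2, g2] at k3
    linarith
  rcases le_total x t with g' | g'
  · have k2 := P.sin (s := y) (s' := x) (by linarith) (by linarith) (by linarith) (by linarith)
    rw [a1, b1, add_sub_cancel_left, add_sub_cancel_left] at k2
    have k3 := P.anti y x h0 h1 g'
    rw [a1] at k3
    have ha : 0 < a := by linarith
    rw [abs_of_pos ha] at k2
    have k4 := abs_le.1 k2
    have k5 : lam * a < a := by nlinarith
    refine half L hE hV (p := -1) (q := 1) (by linarith) fun τ m1 m2 => ?_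
    rcases le_total τ t with m | m
    · have n1 := P.rein h0 m1 m
      have n2 := (abs_le.1 (P.sin (s := τ) (s' := y) (by linarith) m h0 (by linarith))).2
      rw [abs_of_nonpos (by linarith)] at n2
      have n3 : lam * -((mv c w t τ).re - (mv c w t y).re) ≤
        -((mv c w t τ).re - (mv c w t y).re) := by nlinarith
      linarith
    · have n1 := P.reout m m2 h3
      have n2 := (abs_le.1 (P.sout (s := τ) (s' := u) m (by linarith) g h3)).2
      rw [abs_of_nonpos (by linarith)] at n2
      have n3 : lam * -((mv c w t τ).re - (mv c w t u).re) ≤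
        -((mv c w t τ).re - (mv c w t u).re) := by nlinarith
      linarith
  · rcases le_total y t with g'' | g''
    · have k2 := P.sout (s := u) (s' := x) (by linarith) (by linarith) (by linarith) (by linarith)
      rw [a2, b2, add_sub_cancel_left, sub_sub_cancel_left, abs_neg] at k2
      have k3 := P.mono x u g' h2 h3
      rw [a2] at k3
      have hb : 0 < -b := by linarith
      rw [abs_of_neg (by linarith : b < 0)] at k2
      have k4 := abs_le.1 k2
      have k5 : lam * -b < -b := by nlinarith
      refine half L hE hV (p := -1) (q := -1) (by linarith) fun τ m1 m2 => ?_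
      rcases le_total τ t with m | m
      · have n1 := P.rein h0 m1 m
        have n2 := (abs_le.1 (P.sin (s := τ) (s' := y) (by linarith) m h0 (by linarith))).1
        rw [abs_of_nonpos (by linarith)] at n2
        have n3 : lam * -((mv c w t τ).re - (mv c w t y).re) ≤
          -((mv c w t τ).re - (mv c w t y).re) := by nlinarith
        linarith
      · have n1 := P.reout m m2 h3
        have n2 := (abs_le.1 (P.sout (s := τ) (s' := u) m (by linarith) g h3)).1
        rw [abs_of_nonpos (by linarith)] at n2
        have n3 : lam * -((mv c w t τ).re - (mv c w t u).re) ≤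
          -((mv c w t τ).re - (mv c w t u).re) := by nlinarith
        linarith
    · exfalso
      have k1 := P.sout (s := u) (s' := x) (by linarith) (by linarith) (by linarith) (by linarith)
      have k2 := P.sout (s := y) (s' := x) (by linarith) (by linarith) (by linarith) (by linarith)
      rw [a2, b2, add_sub_cancel_left, sub_sub_cancel_left, abs_neg] at k1
      rw [a1, b1, add_sub_cancel_left, add_sub_cancel_left] at k2
      have k3 := P.mono x u (by linarith) h2 (by linarith)
      obtain ⟨g1, g2⟩ := perp l0 l1 k1 k2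
      rw [a2, g2] at k3
      linarith

theorem Tip.ordL3 (L : Loop c) (P : Tip c w t r X lam inn out) {x u y a b : ℝ} {E V : ℂ}
    (hE : E ∉ range c) (hV : V = w * (E - c t)) (h0 : t - r ≤ u) (h1 : u < y) (h2 : y < x)
    (h3 : x ≤ t + r) (C : Co (mv c w t x) (mv c w t u) (mv c w t y) V a b)
    (v0 : 0 < V.re) (v1 : inn V.re < V.im) (v2 : V.im < out V.re) :
    Phi c E u y < 0 := by
  have l0 := P.l0
  have l1 := P.lam1
  have hr := P.r0
  have z0 := mv_self c w t
  obtain ⟨a1, b1, a2, b2, a3, b3⟩ := C
  rcases le_total x t with g | g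
  · exfalso
    have k1 := P.sin (s := u) (s' := x) (by linarith) (by linarith) (by linarith) (by linarith)
    have k2 := P.sin (s := y) (s' := x) (by linarith) (by linarith) (by linarith) (by linarith)
    rw [a2, b2, add_sub_cancel_left, sub_sub_cancel_left, abs_neg] at k1
    rw [a1, b1, add_sub_cancel_left, add_sub_cancel_left] at k2
    have k3 := P.anti y x (by linarith) h2 (by linarith)
    obtain ⟨g1, g2⟩ := perp l0 l1 k1 k2
    rw [a1, g1] at k3
    linarith
  rcases le_total y t with g' | g'
  · exfalso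
    have k1 := P.vin v1 h0 (by linarith)
    have k2 := P.vin v1 (s := y) (by linarith) g'
    have k3 := P.anti u y h0 h1 g'
    rw [a2, b2, a3, b3, show (mv c w t x).im + a - ((mv c w t x).im + a + b) = -b by ring,
      show (mv c w t x).re - b - ((mv c w t x).re + a - b) = -a by ring] at k1
    rw [a1, b1, a3, b3, show (mv c w t x).im + b - ((mv c w t x).im + a + b) = -a by ring,
      show (mv c w t x).re + a - ((mv c w t x).re + a - b) = b by ring] at k2
    rw [a1, a2] at k3
    refine arith (a := -a) (b := -b) l0 l1 ?_ k1.le (by linarith)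
    rw [abs_neg]; exact k2.le
  rcases le_total t u with g'' | g''
  · exfalso
    have k1 := P.sout (s := u) (s' := x) (by linarith) (by linarith) (by linarith) (by linarith)
    have k2 := P.sout (s := y) (s' := x) (by linarith) (by linarith) (by linarith) (by linarith)
    rw [a2, b2, add_sub_cancel_left, sub_sub_cancel_left, abs_neg] at k1
    rw [a1, b1, add_sub_cancel_left, add_sub_cancel_left] at k2
    have k3 := P.mono y x (by linarith) h2 (by linarith)
    obtain ⟨g1, g2⟩ := perp l0 l1 k1 k2
    rw [a1, g1] at k3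
    linarith
  have k2 := P.sout (s := y) (s' := x) g' (by linarith) g h3
  have k3 := P.mono y x g' h2 h3
  rw [a1, b1, add_sub_cancel_left, add_sub_cancel_left] at k2
  rw [a1] at k3
  have ha : a < 0 := by linarith
  rw [abs_of_neg ha] at k2
  have k4 := abs_le.1 k2
  have k5 : lam * -a < -a := by nlinarith
  have cz : Continuous fun s => (mv c w t s).re := continuous_re.comp (mv_loop L w t).cont
  obtain ⟨s₀, ⟨s1, s2⟩, hs⟩ : ∃ s₀ ∈ Icc u t, (mv c w t s₀).re = V.re := by
    refine intermediate_value_Icc' g'' cz.continuousOn ⟨?_, ?_⟩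
    · rw [z0, zero_re]; exact v0.le
    · rw [a2, a3]; linarith
  have is0 := P.hin s₀ (by linarith) s2
  rw [hs] at is0
  have i0 : inn 0 = 0 := by
    have := P.hin t (by linarith) le_rfl
    rw [z0, zero_im, zero_re] at this
    exact this.symm
  have o0 : out 0 = 0 := by
    have := P.hout t le_rfl (by linarith)
    rw [z0, zero_im, zero_re] at this
    exact this.symm
  have q1 : Phi c E u s₀ < 0 := by
    refine neg' L hE hV (half L hE hV (p := 1) (q := 1) s1 fun τ m1 m2 => ?_) ?_
    · have n1 := P.rein (s := τ) (s' := s₀) (by linarith) m2 s2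
      have n2 := (abs_le.1 (P.Li (mv c w t τ).re V.re)).2
      rw [← P.hin τ (by linarith) (by linarith)] at n2
      rw [hs] at n1
      rw [abs_of_nonneg (by linarith)] at n2
      have n3 : lam * ((mv c w t τ).re - V.re) ≤ (mv c w t τ).re - V.re := by nlinarith
      linarith
    · rw [hs, is0, sub_self, zero_mul, sub_zero]
      exact mul_neg_of_neg_of_pos (by linarith) (by rw [a2, a3]; linarith)
  have q2 : Phi c E s₀ t < 0 := by
    refine neg' L hE hV (half L hE hV (p := -1) (q := 1) s2 fun τ m1 m2 => ?_) ?_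
    · have n1 := P.rein (s := s₀) (s' := τ) (by linarith) m1 m2
      have n2 := (abs_le.1 (P.Li (mv c w t τ).re V.re)).2
      rw [← P.hin τ (by linarith) (by linarith)] at n2
      rw [hs] at n1
      rw [abs_of_nonpos (by linarith)] at n2
      have n3 : lam * -((mv c w t τ).re - V.re) ≤ -((mv c w t τ).re - V.re) := by nlinarith
      linarith
    · rw [hs, is0, z0, zero_re, zero_im, sub_self, mul_zero]
      have := mul_pos v0 (sub_pos.2 v1)
      linarith
  have q3 : Phi c E t y < 0 := by
    refine neg' L hE hV (half L hE hV (p := -1) (q := -1) g' fun τ m1 m2 => ?_) ?_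
    · have n1 := P.reout m1 m2 (by linarith)
      have n2 := (abs_le.1 (P.sout (s := τ) (s' := y) m1 (by linarith) g' (by linarith))).1
      rw [abs_of_nonpos (by linarith)] at n2
      have n3 : lam * -((mv c w t τ).re - (mv c w t y).re) ≤
        -((mv c w t τ).re - (mv c w t y).re) := by nlinarith
      linarith
    · have n1 := (abs_le.1 (P.Li V.re 0)).1
      have n2 := (abs_le.1 (P.Lo V.re 0)).2
      rw [i0, sub_zero, sub_zero, abs_of_pos v0] at n1
      rw [o0, sub_zero, sub_zero, abs_of_pos v0] at n2
      have n3 : |V.im| ≤ lam * V.re := abs_le.2 ⟨by linarith, by linarith⟩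
      have n4 : |b| * |V.im| ≤ (lam * -a) * (lam * V.re) :=
        mul_le_mul k2 n3 (abs_nonneg _) (by nlinarith)
      rw [← abs_mul] at n4
      have n5 := (abs_le.1 n4).2
      have n6 : (lam * -a) * (lam * V.re) < -a * V.re := by
        have : lam * V.re ≤ V.re := by nlinarith
        have h5 : 0 ≤ lam * -a := by nlinarith
        nlinarith
      rw [z0, zero_re, zero_im, a1, b1]
      have e1 : (mv c w t x).im + b - V.im = -a := by rw [b3]; ring
      have e2 : (mv c w t x).re + a - V.re = b := by rw [a3]; ring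
      rw [e1, e2]
      linarith
  rw [← Phi_add L hE u t y, ← Phi_add L hE u s₀ t]
  linarith

end

theorem tip_L (L : Loop c) (J : Inj c) (nosq : NoSq (range c)) {w : ℂ} {t r X lam : ℝ}
    {inn out : ℝ → ℝ} (P : Tip c w t r X lam inn out)
    (hR : ∀ x y u, Rp (c x) (c y) (c u) → ∃ n : ℤ, n ≠ 0 ∧ IsWc c (c y + I * (c y - c x)) n)
    (hB : Btw c Rp w t r inn out) : LongC c Rp (Lb c θ) t := by
  have r0 := P.r0
  refine ⟨t - r, t + r, 1 / 2, by linarith, by linarith, by norm_num, fun δ T hd F hs hQ => ?_⟩
  have d0 := F.δ0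
  have hπ := Real.pi_pos
  obtain ⟨x, u, h1, h2, h3, h4, h5, h6, h7⟩ := F.long hd hs
  obtain ⟨-, b2, b3⟩ := hQ x _ h6 h7
  have hE := E4_notMem J nosq d0 h6
  obtain ⟨n, hn, hw⟩ := hR _ _ _ h4
  have e : c (x + (1 - δ)) = c (x - δ) := by
    rw [← L.per (x - δ)]; congr 1; ring
  have eu : c u = c (u - 1) := by
    rw [← L.per (u - 1)]; congr 1; ring
  obtain ⟨E, hEe⟩ : ∃ E, E = E4 c (x, 1 - δ, u) := ⟨_, rfl⟩
  have hE1 : E = c (x - δ) + I * (c (x - δ) - c x) := by
    rw [hEe]; unfold E4; simp only; rw [e]
  have hw' : IsWc c E n := by rw [hEe]; exact hw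
  rw [← hEe] at hE
  have hV : mv c w t (x - δ) + I * (mv c w t (x - δ) - mv c w t x) = w * (E - c t) := by
    rw [hE1]; unfold mv; ring
  unfold m1 at b2
  unfold m2 at b3
  rw [← hEe] at b2 b3
  simp only at b2 b3
  rcases h5 with ⟨g1, g2⟩ | ⟨g1, g2⟩
  · rw [e] at h3
    obtain ⟨a, b, C⟩ := co_of (mv_rel (w := w) (t := t) h3)
    have k := P.ordL2 L hE hV g1.le (by linarith) h1 g2.le C
    have k1 := Phi_add L hE (x - δ) x u
    have k2 := Phi_add L hE x u (x + (1 - δ))
    have k3 := Phi_add L hE x (x + (1 - δ)) (x + 1)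
    have k4 := Phi_wind L hw' x
    have k5 := Phi_per L hE (x - δ) x
    rw [show x - δ + 1 = x + (1 - δ) by ring] at k5
    have k6 := abs_lt.1 k
    -- the winding number is zero
    have e1 : Phi c E (x - δ) u = n * (2 * Real.pi) - Real.pi / 2 := by linarith
    rw [e1] at k6
    rcases lt_trichotomy n 0 with hn' | hn' | hn'
    · have : n ≤ -1 := by omega
      have : (n : ℝ) ≤ -1 := by exact_mod_cast this
      nlinarith
    · exact hn hn'
    · have : 1 ≤ n := by omega
      have : (1 : ℝ) ≤ n := by exact_mod_cast this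
      nlinarith
  · rw [e] at h3 h4
    rw [eu] at h3 h4
    obtain ⟨a, b, C⟩ := co_of (mv_rel (w := w) (t := t) h3)
    have v := hB x (x - δ) (u - 1) (by linarith) g2.le (by linarith) (by linarith) g1.le
      (by linarith) h4 _ rfl
    have k := P.ordL3 L hE hV g1.le (by linarith) (by linarith) g2.le C v.1 v.2.1 v.2.2
    have k5 := Phi_per L hE (u - 1) (x - δ)
    rw [show x - δ + 1 = x + (1 - δ) by ring, sub_add_cancel] at k5
    linarith

end Pool.Agent.Run7.h564
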