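import Pool.Agent.Run7.h564.Tip

/-! The cusp with the turn to the right: positions of the small triangles. -/

set_option autoImplicit false
open Complex Set Topology Metric Filter
open scoped ComplexConjugate

namespace Pool.Agent.Run7.h564

open Pool.Agent.H763R2 Pool.Agent.H763R2.An
open Pool.Agent.H763R2.Dm (NoSq)
open Pool.Agent.Y765.Sq (Ann exists_int exists_rep TriM tri_fam)
open Pool.Agent.N335.Hg

variable {c : ℝ → ℂ} {Rp : ℂ → ℂ → ℂ → Prop}

/-- the fourth vertex is between the branches -/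
def Btw (c : ℝ → ℂ) (Rp : ℂ → ℂ → ℂ → Prop) (w : ℂ) (t r : ℝ) (inn out : ℝ → ℝ) : Prop :=
  ∀ x y u, t - r ≤ x → x ≤ t + r → t - r ≤ y → y ≤ t + r → t - r ≤ u → u ≤ t + r →
    Rp (c x) (c y) (c u) → ∀ V, V = mv c w t y + I * (mv c w t y - mv c w t x) →
    0 < V.re ∧ inn V.re < V.im ∧ V.im < out V.re

section

variable {w : ℂ} {t r X lam : ℝ} {inn out : ℝ → ℝ}

/-- a point of the outgoing branch against one of the incoming branch -/
theorem Tip.high (P : Tip c w t r X lam inn out) (hR : ∀ x, 0 ≤ x → x ≤ X → inn x ≤ out x)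
    {s s' : ℝ} (h1 : t ≤ s) (h2 : s ≤ t + r) (h3 : t - r ≤ s') (h4 : s' ≤ t) :
    -(lam * |(mv c w t s).re - (mv c w t s').re|) ≤ (mv c w t s).im - (mv c w t s').im := by
  have hr := P.r0
  rw [P.hout s h1 h2, P.hin s' h3 h4]
  have := hR (mv c w t s').re (P.pos h3 (by linarith)) (P.hi s' h3 (by linarith))
  have := (abs_le.1 (P.Lo (mv c w t s).re (mv c w t s').re)).1
  linarith

/-- the fourth vertex against the incoming branch -/
theorem Tip.vin (P : Tip c w t r X lam inn out) {V : ℂ} (hV : inn V.re < V.im) {s : ℝ}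
    (h1 : t - r ≤ s) (h2 : s ≤ t) :
    (mv c w t s).im - V.im < lam * |(mv c w t s).re - V.re| := by
  rw [P.hin s h1 h2]
  have := (abs_le.1 (P.Li (mv c w t s).re V.re)).2
  linarith

/-- the fourth vertex against the outgoing branch -/
theorem Tip.vout (P : Tip c w t r X lam inn out) {V : ℂ} (hV : V.im < out V.re) {s : ℝ}
    (h1 : t ≤ s) (h2 : s ≤ t + r) :
    V.im - (mv c w t s).im < lam * |(mv c w t s).re - V.re| := by
  rw [P.hout s h1 h2]
  have := (abs_le.1 (P.Lo (mv c w t s).re V.re)).1
  linarith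

/-- coordinates of the four vertices -/
structure Co (R A B V : ℂ) (a b : ℝ) : Prop where
  a1 : B.re = R.re + a
  b1 : B.im = R.im + b
  a2 : A.re = R.re - b
  b2 : A.im = R.im + a
  a3 : V.re = R.re + a - b
  b3 : V.im = R.im + a + b

theorem co_of {R A B : ℂ} (h : A = R + I * (B - R)) :
    ∃ a b, Co R A B (B + I * (B - R)) a b := by
  refine ⟨B.re - R.re, B.im - R.im, ?_⟩
  constructor <;> (try rw [h]) <;> simp <;> ring

theorem two {lam p q : ℝ} (l0 : 0 ≤ lam) (l1 : lam < 1) (hp : 0 < p) (k1 : |q| ≤ lam * |p|)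
    (k2 : p ≤ lam * |q|) : False := by
  have k3 := mul_le_mul_of_nonneg_left k1 l0
  rw [abs_of_pos hp] at k3
  have k4 : lam * p ≤ p := by nlinarith
  have k5 := mul_le_mul_of_nonneg_left k4 l0
  have k6 : lam * p < p := by nlinarith
  linarith

/-- small triangles in the order of the short end -/
theorem Tip.ordS (P : Tip c w t r X lam inn out) {x u y a b : ℝ} {V : ℂ} (hx : t - r ≤ x)
    (h1 : x < u) (h2 : u < y) (hy : y ≤ t + r)
    (C : Co (mv c w t x) (mv c w t u) (mv c w t y) V a b) (hV2 : V.im < out V.re) :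
    u < t ∧ t < y ∧ 0 < b ∧ |a| ≤ lam * b := by
  have l0 := P.l0
  have l1 := P.lam1
  have hr := P.r0
  obtain ⟨a1, b1, a2, b2, a3, b3⟩ := C
  -- not all on one branch
  have n1 : t < y := by
    by_contra hc
    push Not at hc
    have k1 := P.sin (s := u) (s' := x) (by linarith) (by linarith) hx (by linarith)
    have k2 := P.sin (s := y) (s' := x) (by linarith) hc hx (by linarith)
    rw [a2, b2, add_sub_cancel_left, sub_sub_cancel_left, abs_neg] at k1
    rw [a1, b1, add_sub_cancel_left, add_sub_cancel_left] at k2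
    have k3 := P.anti x u hx h1 (by linarith)
    obtain ⟨g1, g2⟩ := perp l0 l1 k1 k2
    rw [a2, g2] at k3
    linarith
  have n2 : u < t := by
    by_contra hc
    push Not at hc
    rcases le_total t x with g | g
    · have k1 := P.sout (s := u) (s' := x) hc (by linarith) g (by linarith)
      have k2 := P.sout (s := y) (s' := x) n1.le hy g (by linarith)
      rw [a2, b2, add_sub_cancel_left, sub_sub_cancel_left, abs_neg] at k1
      rw [a1, b1, add_sub_cancel_left, add_sub_cancel_left] at k2
      have k3 := P.mono x u g h1 (by linarith)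
      obtain ⟨g1, g2⟩ := perp l0 l1 k1 k2
      rw [a2, g2] at k3
      linarith
    · have k1 := P.vout hV2 hc (by linarith)
      have k2 := P.vout hV2 n1.le hy
      have k3 := P.mono u y hc h2 hy
      rw [a2, b2, a3, b3, show (mv c w t x).im + a + b - ((mv c w t x).im + a) = b by ring,
        show (mv c w t x).re - b - ((mv c w t x).re + a - b) = -a by ring, abs_neg] at k1
      rw [a1, b1, a3, b3, show (mv c w t x).im + a + b - ((mv c w t x).im + b) = a by ring,
        show (mv c w t x).re + a - ((mv c w t x).re + a - b) = b by ring] at k2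
      rw [a2, a1] at k3
      exact arith l0 l1 k2.le k1.le (by linarith)
  have k1 := P.sin (s := u) (s' := x) (by linarith) n2.le hx (by linarith)
  have k3 := P.anti x u hx h1 n2.le
  rw [a2, b2, add_sub_cancel_left, sub_sub_cancel_left, abs_neg] at k1
  rw [a2] at k3
  have hb : 0 < b := by linarith
  rw [abs_of_pos hb] at k1
  exact ⟨n2, n1, hb, k1⟩

/-- a triangle in the order of the short end gives a solution of the area problem -/
theorem Tip.sq (P : Tip c w t r X lam inn out) {x u y a b : ℝ} {V : ℂ} (hx : t - r ≤ x)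
    (h1 : x < u) (h2 : u < y) (hy : y ≤ t + r)
    (C : Co (mv c w t x) (mv c w t u) (mv c w t y) V a b) (hV2 : V.im < out V.re) :
    SQ inn out lam (mv c w t x).re a b ∧ b ≤ (mv c w t x).re := by
  obtain ⟨n1, n2, hb, ha⟩ := P.ordS hx h1 h2 hy C hV2
  have hr := P.r0
  obtain ⟨a1, b1, a2, b2, a3, b3⟩ := C
  have e1 := P.hin x hx (by linarith)
  have e2 := P.hin u (by linarith) n1.le
  have e3 := P.hout y n2.le hy
  have e4 := P.pos (s := u) (by linarith) (by linarith)
  refine ⟨⟨hb, ha, ?_, ?_, ?_⟩, by linarith⟩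
  · rw [← a2, ← e2, b2, e1]
  · rw [← a1, ← e3, b1, e1]
  · rw [a3, b3, e1] at hV2
    exact hV2.le

end

end Pool.Agent.Run7.h564
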