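import Pool.Agent.Run7.h564.TipR

/-! The cusp with the turn to the right: no family of triangles grows from it. -/

set_option autoImplicit false
open Complex Set Topology Metric Filter
open scoped ComplexConjugate

namespace Pool.Agent.Run7.h564

open Pool.Agent.H763R2 Pool.Agent.H763R2.An
open Pool.Agent.H763R2.Dm (NoSq)
open Pool.Agent.Y765.Sq (Ann exists_int exists_rep TriM tri_fam)
open Pool.Agent.N335.Hg

variable {c : ℝ → ℂ} {Rp : ℂ → ℂ → ℂ → Prop}

theorem Fm.props (J : Inj c) {δ a : ℝ} {T : Set Ann} (F : Fm c Rp δ T) {q : ℝ × ℝ × ℝ}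
    (hq : q ∈ Mm c δ a) (hT : (((q.1 : AddCircle (1 : ℝ)), q.2.1) : Ann) ∈ T) :
    q.1 < q.2.2 ∧ q.2.2 < q.1 + q.2.1 ∧ q.1 + q.2.1 < q.1 + 1 ∧
      Rp (c q.1) (c (q.1 + q.2.1)) (c q.2.2) := by
  have s := Mm_strict J F.δ0 hq
  obtain ⟨-, -, hall⟩ := F.ty _ hT
  obtain ⟨v, v1, v2, v3, v4⟩ := hall q.1 rfl
  refine ⟨s.1, s.2.1, s.2.2, ?_⟩
  simp only at v3 v4
  have e : c q.2.2 = c v := by rw [v3]; exact hq.2.2.2.2
  rw [e]; exact v4

theorem mv_rel {w : ℂ} {t x y u : ℝ} (h : c u = c x + I * (c y - c x)) :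
    mv c w t u = mv c w t x + I * (mv c w t y - mv c w t x) := by
  unfold mv
  rw [h]; ring

theorem tip_S (L : Loop c) (J : Inj c) {w : ℂ} {t r X lam : ℝ} {inn out : ℝ → ℝ}
    (P : Tip c w t r X lam inn out) (hlt : ∀ x, 0 < x → x ≤ X → inn x < out x)
    (hB : Btw c Rp w t r inn out) {Q : ℝ → Set Ann → Prop} : ShortC c Rp Q t := by
  have l0 := P.l0
  have l1 := P.lam1
  have l2 := P.l1
  have r0 := P.r0
  have r1 := P.r1
  have cz : Continuous (mv c w t) := (mv_loop L w t).cont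
  have z0 := mv_self c w t
  have p1 : 0 < (mv c w t (t - r)).re := by
    have := P.anti (t - r) t le_rfl (by linarith) le_rfl
    rwa [z0, zero_re] at this
  have p2 : 0 < (mv c w t (t + r)).re := by
    have := P.mono t (t + r) le_rfl (by linarith) le_rfl
    rwa [z0, zero_re] at this
  have i0 : inn 0 = 0 := by
    have := P.hin t (by linarith) le_rfl
    rw [z0, zero_im, zero_re] at this
    exact this.symm
  have o0 : out 0 = 0 := by
    have := P.hout t le_rfl (by linarith)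
    rw [z0, zero_im, zero_re] at this
    exact this.symm
  obtain ⟨X1, hX1⟩ : ∃ X1, X1 = min (mv c w t (t - r)).re (mv c w t (t + r)).re / 3 := ⟨_, rfl⟩
  have X0 : 0 < X1 := by rw [hX1]; have := lt_min p1 p2; positivity
  have Xa : 3 * X1 ≤ (mv c w t (t - r)).re := by
    have := min_le_left (mv c w t (t - r)).re (mv c w t (t + r)).re
    rw [hX1]; linarith
  have Xb : 3 * X1 ≤ (mv c w t (t + r)).re := by
    have := min_le_right (mv c w t (t - r)).re (mv c w t (t + r)).re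
    rw [hX1]; linarith
  have XX : X1 ≤ X := by
    have := P.hi (t - r) le_rfl (by linarith)
    linarith
  obtain ⟨m, hm⟩ : ∃ m, m = (out X1 - inn X1) / 2 := ⟨_, rfl⟩
  have m0 : 0 < m := by
    have := hlt X1 X0 XX
    rw [hm]; linarith
  obtain ⟨k, hk⟩ : ∃ k, k = 1 / 2 - lam := ⟨_, rfl⟩
  have k0 : 0 < k := by rw [hk]; nlinarith
  have k1 : k ≤ 1 / 2 := by rw [hk]; linarith
  obtain ⟨x1, hx1⟩ : ∃ x1, x1 = min X1 (k * m / 5) := ⟨_, rfl⟩
  have x10 : 0 < x1 := by rw [hx1]; exact lt_min X0 (by positivity)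
  have x1a : x1 ≤ X1 := by rw [hx1]; exact min_le_left _ _
  have x1b : x1 ≤ k * m / 5 := by rw [hx1]; exact min_le_right _ _
  obtain ⟨η, η0, hη⟩ : ∃ η > 0, ∀ s, |s - t| < η → (mv c w t s).re < x1 := by
    have h : ∀ᶠ s in 𝓝 t, (mv c w t s).re < x1 := by
      have h1 : Tendsto (fun s => (mv c w t s).re) (𝓝 t) (𝓝 (mv c w t t).re) :=
        ((continuous_re.comp cz).tendsto t)
      rw [z0, zero_re] at h1
      exact h1.eventually (gt_mem_nhds x10)
    obtain ⟨η, η0, h⟩ := Metric.eventually_nhds_iff.1 h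
    exact ⟨η, η0, fun s hs => h (by rwa [Real.dist_eq])⟩
  obtain ⟨η', hη'⟩ : ∃ η', η' = min η r := ⟨_, rfl⟩
  have η'0 : 0 < η' := by rw [hη']; exact lt_min η0 r0
  have η'1 : η' ≤ η := by rw [hη']; exact min_le_left _ _
  have η'2 : η' ≤ r := by rw [hη']; exact min_le_right _ _
  refine ⟨t - η', t + η', 1 / 2, by linarith, by linarith, by norm_num, fun δ T hδ F hs => ?_⟩
  exfalso
  have d0 := F.δ0
  obtain ⟨x, u, h1, h2, h3, h4, h5, h6, -, h8⟩ := F.short hδ hs
  obtain ⟨a, b, C⟩ := co_of (mv_rel (w := w) (t := t) h5)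
  have V2 := (hB x (x + δ) u (by linarith) (by linarith) (by linarith) (by linarith)
    (by linarith) (by linarith) h6 _ rfl).2.2
  have S0 := P.sq (by linarith) h2 h3 (by linarith) C V2
  have O0 := P.ordS (by linarith) h2 h3 (by linarith) C V2
  have hxx : (mv c w t x).re < x1 := hη x (by rw [abs_lt]; constructor <;> linarith)
  obtain ⟨x₀, hx₀⟩ : ∃ x₀, x₀ = (mv c w t x).re := ⟨_, rfl⟩
  rw [← hx₀] at hxx S0
  have x₀0 : 0 ≤ x₀ := by rw [hx₀]; exact P.pos (by linarith) (by linarith)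
  obtain ⟨a₀, ha₀⟩ : ∃ a₀, a₀ = t - 1 / 2 := ⟨_, rfl⟩
  have hcr : Continuous fun q : ℝ × ℝ × ℝ => (mv c w t q.1).re :=
    continuous_re.comp (cz.comp continuous_fst)
  have cov : ∀ X', x₀ ≤ X' → X' ≤ X1 → ∃ a b, SQ inn out lam X' a b := by
    intro X' g1 g2
    by_contra hno
    obtain ⟨N, hN⟩ : ∃ N : Set (ℝ × ℝ × ℝ), N = {q | t - r ≤ q.1 ∧ q.2.2 ≤ t ∧
      t ≤ q.1 + q.2.1 ∧ q.1 + q.2.1 ≤ t + r ∧ (mv c w t q.1).re ≤ X'} := ⟨_, rfl⟩
    obtain ⟨N', hN'⟩ : ∃ N' : Set (ℝ × ℝ × ℝ), N' = {q | q.1 ≤ t - r ∨ t ≤ q.2.2 ∨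
      q.1 + q.2.1 ≤ t ∨ t + r ≤ q.1 + q.2.1 ∨ X' ≤ (mv c w t q.1).re} := ⟨_, rfl⟩
    have cN : IsClosed N := by
      have k1 : IsClosed {q : ℝ × ℝ × ℝ | t - r ≤ q.1} := isClosed_le (by fun_prop) (by fun_prop)
      have k2 : IsClosed {q : ℝ × ℝ × ℝ | q.2.2 ≤ t} := isClosed_le (by fun_prop) (by fun_prop)
      have k3 : IsClosed {q : ℝ × ℝ × ℝ | t ≤ q.1 + q.2.1} :=
        isClosed_le (by fun_prop) (by fun_prop)
      have k4 : IsClosed {q : ℝ × ℝ × ℝ | q.1 + q.2.1 ≤ t + r} :=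
        isClosed_le (by fun_prop) (by fun_prop)
      have k5 : IsClosed {q : ℝ × ℝ × ℝ | (mv c w t q.1).re ≤ X'} :=
        isClosed_le hcr (by fun_prop)
      rw [hN]
      exact k1.inter (k2.inter (k3.inter (k4.inter k5)))
    have cN' : IsClosed N' := by
      have k1 : IsClosed {q : ℝ × ℝ × ℝ | q.1 ≤ t - r} := isClosed_le (by fun_prop) (by fun_prop)
      have k2 : IsClosed {q : ℝ × ℝ × ℝ | t ≤ q.2.2} := isClosed_le (by fun_prop) (by fun_prop)
      have k3 : IsClosed {q : ℝ × ℝ × ℝ | q.1 + q.2.1 ≤ t} :=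
        isClosed_le (by fun_prop) (by fun_prop)
      have k4 : IsClosed {q : ℝ × ℝ × ℝ | t + r ≤ q.1 + q.2.1} :=
        isClosed_le (by fun_prop) (by fun_prop)
      have k5 : IsClosed {q : ℝ × ℝ × ℝ | X' ≤ (mv c w t q.1).re} :=
        isClosed_le (by fun_prop) hcr
      rw [hN']
      exact k1.union (k2.union (k3.union (k4.union k5)))
    have hM := Mm_closed L.cont δ a₀
    have tri : ∀ q ∈ Mm c δ a₀, q ∈ N → (((q.1 : AddCircle (1 : ℝ)), q.2.1) : Ann) ∈ T →
        ∃ a b, q.2.2 < t ∧ t < q.1 + q.2.1 ∧ SQ inn out lam (mv c w t q.1).re a b ∧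
          b ≤ (mv c w t q.1).re ∧ (mv c w t (q.1 + q.2.1)).re = (mv c w t q.1).re + a := by
      intro q hq hqN hqT
      rw [hN] at hqN
      obtain ⟨n1, n2, n3, n4, n5⟩ := hqN
      obtain ⟨f1, f2, f3, f4⟩ := F.props J hq hqT
      obtain ⟨a, b, C⟩ := co_of (mv_rel (w := w) (t := t) hq.2.2.2.2)
      have V2 := (hB q.1 (q.1 + q.2.1) q.2.2 (by linarith) (by linarith) (by linarith)
        (by linarith) (by linarith) (by linarith) f4 _ rfl).2.2
      obtain ⟨s1, s2⟩ := P.sq (by linarith) f1 f2 (by linarith) C V2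
      have o1 := P.ordS (by linarith) f1 f2 (by linarith) C V2
      exact ⟨a, b, o1.1, o1.2.1, s1, s2, C.a1⟩
    have q0M : (x, δ, u) ∈ Mm c δ a₀ :=
      mkMm (by rw [ha₀]; linarith) (by rw [ha₀]; linarith [O0.1]) le_rfl (by linarith) h2.le h3.le
        h5
    have q0N : (x, δ, u) ∈ N := by
      rw [hN]
      exact ⟨by show t - r ≤ x; linarith, O0.1.le, O0.2.1.le, by show x + δ ≤ t + r; linarith, by
        show (mv c w t x).re ≤ X'; rw [← hx₀]; exact g1⟩
    have all := clopen3 L J d0 F.pre F.ty.tyA (hM.inter cN) (hM.inter cN') (fun q _ hq => by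
        rw [hN'] 
        rw [hN] at hq
        by_contra hc
        simp only [mem_ofPred_eq, not_or, not_le] at hc hq
        exact hq ⟨hc.1.le, hc.2.1.le, hc.2.2.1.le, hc.2.2.2.1.le, hc.2.2.2.2.le⟩)
      (fun q hq => by
        have n := hq.2
        rw [hN] at n
        have s := Mm_strict J d0 hq.1
        obtain ⟨n1, n2, -⟩ := n
        rw [ha₀]
        constructor <;> linarith)
      (fun q hq n n' hT => by
        obtain ⟨a, b, o1, o2, s1, s2, e1⟩ := tri q hq n hT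
        rw [hN] at n
        obtain ⟨n1, n2, n3, n4, n5⟩ := n
        rw [hN'] at n'
        have b0 := s1.b0
        rcases n' with n' | n' | n' | n' | n'
        · have : q.1 = t - r := le_antisymm n' n1
          rw [this] at n5
          linarith
        · linarith
        · linarith
        · have e : q.1 + q.2.1 = t + r := le_antisymm n4 n'
          rw [e] at e1
          have := (abs_le.1 s1.ab).2
          have : lam * b ≤ b := by nlinarith
          linarith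
        · have e : (mv c w t q.1).re = X' := le_antisymm n5 n'
          rw [e] at s1
          exact hno ⟨a, b, s1⟩) ⟨q0M, q0N⟩ h8
    obtain ⟨p, hp, hp2⟩ := F.lo
    obtain ⟨q, hq, e⟩ := all p hp
    have n := hq.2
    rw [hN] at n
    obtain ⟨n1, n2, n3, n4, n5⟩ := n
    have e2 : q.2.1 = p.2 := by rw [← e]
    linarith
  refine no_growth l0 l2 P.Li P.Lo i0 o0 x₀0 (by linarith) m0 cov ⟨a, b, S0.1, S0.2⟩ ?_ ?_
  · intro a b S
    have g1 := (abs_le.1 (P.Lo (X1 + a) X1)).1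
    rw [S.p2, add_sub_cancel_left] at g1
    have g2 := mul_le_mul_of_nonneg_left S.ab l0
    have g3 : lam * (lam * b) ≤ b := by
      have b0 := S.b0
      have : lam * b ≤ b := by nlinarith
      nlinarith
    rw [hm]
    linarith
  · have g1 : x₀ ^ 2 ≤ (k * m / 5) ^ 2 := pow_le_pow_left₀ x₀0 (by linarith) 2
    have g2 : 20 * (k * m / 5) ^ 2 = 4 / 5 * k * (k * m ^ 2) := by ring
    rw [← hk]
    have g3 : 0 < k * m ^ 2 := by positivity
    nlinarith

end Pool.Agent.Run7.h564
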